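import Pool.Agent.Work.MP_dd2eb3_aa.Interface

/-! # Block BAD1 (helper25): matrices with a given derogatory eigenvalue for one permutation -/

set_option autoImplicit false

namespace Pool.CYA

open Module

theorem BAD1_fin {F : Type} [Field F] [Finite F] (t : AlgebraicClosure F) : Finite (Kt t) := by
  have ht : IsIntegral F t := Algebra.IsIntegral.isIntegral t
  haveI : FiniteDimensional F (Kt t) := IntermediateField.adjoin.finiteDimensional ht
  exact Module.finite_of_finite F

theorem p_BAD1 (hCNT1 : Stmt_CNT1) (hPAIR : Stmt_PAIR) (hFUL : Stmt_FUL) : Stmt_BAD1 := by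
  classical
  intro F _ _ n t σ
  haveI := BAD1_fin t
  haveI : Fintype F := Fintype.ofFinite F
  refine le_trans ?_ (hCNT1 F n (Fin 2 → Kt t) (mt t) σ)
  let D : Type := {A : Matrix (Fin n) (Fin n) F // Der A σ t}
  let P : D → Type := fun A => {v : Fin 2 → (Fin n → Kt t) //
    LinearIndependent (Kt t) v ∧ ∀ a, Eig A.1 σ t (v a)}
  haveI : Finite D := inferInstance
  haveI : Fintype D := Fintype.ofFinite D
  haveI : ∀ A : D, Finite (P A) := fun A => inferInstance
  have h1 : Nat.card {A : Matrix (Fin n) (Fin n) F // Der A σ t} * gl2 (Nat.card F ^ dg t) ≤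
      Nat.card (Σ A : D, P A) := by
    rw [Nat.card_sigma]
    have h2 : ∑ A : D, gl2 (Nat.card F ^ dg t) ≤ ∑ A : D, Nat.card (P A) :=
      Finset.sum_le_sum fun A _ => hPAIR F n A.1 σ t A.2
    rw [Finset.sum_const, Finset.card_univ, smul_eq_mul, ← Nat.card_eq_fintype_card] at h2
    exact h2
  refine h1.trans ?_
  refine Nat.card_le_card_of_injective (fun p => ⟨(p.1.1, fun i a => p.2.1 a i), ?_, ?_⟩) ?_
  · intro W hW hT
    exact hFUL F n t p.2.1 p.2.2.1 W hW hT
  · intro c
    funext a
    have h3 := p.2.2.2 a c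
    rw [Finset.sum_apply]
    exact h3
  · rintro ⟨⟨A, hA⟩, ⟨v, hv⟩⟩ ⟨⟨A', hA'⟩, ⟨v', hv'⟩⟩ h
    simp only [Subtype.mk.injEq, Prod.mk.injEq] at h
    obtain ⟨e1, e2⟩ := h
    subst e1
    have e3 : v = v' := by
      funext a i
      exact congrFun (congrFun e2 i) a
    subst e3
    rfl

end Pool.CYA
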