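import Pool.Agent.Work.MP_dd2eb3_aa.Interface4

/-!
# MP_dd2eb3_aa, block BADI (helper65): matrices with given derogatory eigenvalues for k shifts, all
configurations independent
-/

set_option autoImplicit false

namespace Pool.CYA

open Module

theorem BADI_fin {F : Type} [Field F] [Finite F] (t : AlgebraicClosure F) :
    FiniteDimensional F (Kt t) :=
  IntermediateField.adjoin.finiteDimensional (Algebra.IsIntegral.isIntegral t)

theorem p_BADI (hCNTI : Stmt_CNTI) (hPAIR : Stmt_PAIR) : Stmt_BADI := by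
  classical
  intro F _ _ n k t
  haveI : ∀ j, FiniteDimensional F (Kt (t j)) := fun j => BADI_fin (t j)
  haveI : ∀ j, Finite (Kt (t j)) := fun j => Module.finite_of_finite F
  haveI : Fintype F := Fintype.ofFinite F
  refine le_trans ?_ (hCNTI F n k (fun j => Fin 2 → Kt (t j)) (fun j => mt (t j))
    (fun j => sh n j))
  let D : Type := {A : Matrix (Fin n) (Fin n) F // (∀ j, Der A (sh n j) (t j)) ∧ ¬ Dep A t}
  let P : D → Fin k → Type := fun A j => {v : Fin 2 → (Fin n → Kt (t j)) //
    LinearIndependent (Kt (t j)) v ∧ ∀ a, Eig A.1 (sh n j) (t j) (v a)}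
  haveI : Finite D := inferInstance
  haveI : Fintype D := Fintype.ofFinite D
  haveI : ∀ (A : D) (j : Fin k), Finite (P A j) := fun A j => inferInstance
  have h1 : Nat.card D * ∏ j, gl2 (Nat.card F ^ dg (t j)) ≤
      Nat.card (Σ A : D, ∀ j, P A j) := by
    rw [Nat.card_sigma]
    have h2 : ∑ A : D, ∏ j, gl2 (Nat.card F ^ dg (t j)) ≤ ∑ A : D, Nat.card (∀ j, P A j) := by
      refine Finset.sum_le_sum fun A _ => ?_
      rw [Nat.card_pi]
      exact Finset.prod_le_prod' fun j _ => hPAIR F n A.1 (sh n j) (t j) (A.2.1 j)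
    rw [Finset.sum_const, Finset.card_univ, smul_eq_mul, ← Nat.card_eq_fintype_card] at h2
    exact h2
  refine h1.trans ?_
  refine Nat.card_le_card_of_injective
    (fun p => ⟨(p.1.1, fun i j a => (p.2 j).1 a i), ?_, ?_⟩) ?_
  · intro j c
    funext a
    have h3 := (p.2 j).2.2 a c
    rw [Finset.sum_apply]
    exact h3
  · by_contra hs
    exact p.1.2.2 ⟨fun j => (p.2 j).1, fun j => (p.2 j).2, hs⟩
  · rintro ⟨⟨A, hA⟩, v⟩ ⟨⟨A', hA'⟩, v'⟩ h
    simp only [Subtype.mk.injEq, Prod.mk.injEq] at h
    obtain ⟨e1, e2⟩ := h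
    subst e1
    have e3 : v = v' := by
      funext j
      apply Subtype.ext
      funext a i
      exact congrFun (congrFun (congrFun e2 i) j) a
    subst e3
    rfl

end Pool.CYA
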