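import Pool.Agent.Work.MP_dd2eb3_aa.Interface

/-!
# MP_dd2eb3_aa, block CNT1 (helper38): the first moment for one permutation
-/

set_option autoImplicit false

namespace Pool.CYA

open Module

theorem p_CNT1 (hCOL : Stmt_COL) : Stmt_CNT1 := by
  intro F _ _ n V _ _ _ T σ
  classical
  haveI : Finite (Matrix (Fin n) (Fin n) F) := inferInstanceAs (Finite (Fin n → Fin n → F))
  haveI : Fintype (Fin n → V) := Fintype.ofFinite _
  set q := Nat.card F with hqdef
  set N := q ^ (n * n) with hN
  set P : Matrix (Fin n) (Fin n) F → (Fin n → V) → Prop := fun A x =>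
    (∀ W : Submodule F V, (∀ i, x i ∈ W) → (∀ w ∈ W, T w ∈ W) → W = ⊤) ∧
      ∀ c, ∑ i, A i c • x i = T (x (σ c)) with hP
  have htot : Nat.card {p : Matrix (Fin n) (Fin n) F × (Fin n → V) // P p.1 p.2} =
      ∑ x : Fin n → V, Nat.card {A : Matrix (Fin n) (Fin n) F // P A x} := by
    rw [← Nat.card_sigma]
    refine Nat.card_congr ⟨fun p => ⟨p.1.2, ⟨p.1.1, p.2⟩⟩, fun y => ⟨(y.2.1, y.1), y.2.2⟩,
      fun _ => rfl, fun _ => rfl⟩
  change Nat.card {p : Matrix (Fin n) (Fin n) F × (Fin n → V) // P p.1 p.2} ≤ N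
  rw [htot]
  -- the span is everything as soon as there is a matrix
  have hspan : ∀ (A : Matrix (Fin n) (Fin n) F) (x : Fin n → V), P A x →
      Submodule.span F (Set.range x) = ⊤ := by
    intro A x hx
    refine hx.1 _ (fun i => Submodule.subset_span ⟨i, rfl⟩) ?_
    intro w hw
    have h1 : Submodule.span F (Set.range x) ≤
        (Submodule.span F (Set.range x)).comap T := by
      rw [Submodule.span_le]
      rintro _ ⟨i, rfl⟩
      change T (x i) ∈ Submodule.span F (Set.range x)
      have h2 := hx.2 (σ.symm i)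
      rw [Equiv.apply_symm_apply] at h2
      rw [← h2]
      exact Submodule.sum_mem _ fun j _ => Submodule.smul_mem _ _
        (Submodule.subset_span ⟨j, rfl⟩)
    exact h1 hw
  have hVpos : 0 < Nat.card V := Nat.card_pos
  have hbound : ∀ x : Fin n → V,
      Nat.card {A : Matrix (Fin n) (Fin n) F // P A x} * Nat.card V ^ n ≤ N := by
    intro x
    by_cases hne : Nonempty {A : Matrix (Fin n) (Fin n) F // P A x}
    · obtain ⟨A0⟩ := hne
      have htop := hspan A0.1 x A0.2
      have h1 := hCOL F n V x (fun c => T (x (σ c)))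
      rw [htop] at h1
      have h2 : Nat.card (⊤ : Submodule F V) = Nat.card V :=
        Nat.card_congr (Submodule.topEquiv (R := F) (M := V)).toEquiv
      rw [h2] at h1
      refine le_trans (Nat.mul_le_mul_right _ ?_) h1
      exact Nat.card_le_card_of_injective
        (fun A : {A : Matrix (Fin n) (Fin n) F // P A x} =>
          (⟨A.1, A.2.2⟩ : {A : Matrix (Fin n) (Fin n) F //
            ∀ c, ∑ i, A i c • x i = (fun c => T (x (σ c))) c}))
        (fun A B h => Subtype.ext (congrArg (fun z => z.1) h))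
    · rw [not_nonempty_iff] at hne
      rw [Nat.card_of_isEmpty, Nat.zero_mul]
      exact Nat.zero_le _
  have hfin : (∑ x : Fin n → V, Nat.card {A : Matrix (Fin n) (Fin n) F // P A x}) *
      Nat.card V ^ n ≤ N * Nat.card V ^ n := by
    rw [Finset.sum_mul]
    calc ∑ x : Fin n → V, Nat.card {A : Matrix (Fin n) (Fin n) F // P A x} * Nat.card V ^ n
        ≤ ∑ _x : Fin n → V, N := Finset.sum_le_sum fun x _ => hbound x
      _ = Nat.card V ^ n * N := by
          rw [Finset.sum_const, smul_eq_mul, Finset.card_univ, ← Nat.card_eq_fintype_card,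
            Nat.card_fun, Nat.card_eq_fintype_card (α := Fin n), Fintype.card_fin]
      _ = N * Nat.card V ^ n := Nat.mul_comm _ _
  exact Nat.le_of_mul_le_mul_right hfin (pow_pos hVpos n)

end Pool.CYA
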