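import Pool.Agent.Work.MP_dd2eb3_aa.B_CNTI

/-!
# MP_dd2eb3_aa, block CNTD (helper75, after B_CNT of helper41): the first moment of the
configurations with a first dependency at the last place
-/

set_option autoImplicit false

namespace Pool.CYA

open Module

namespace CNTD

/-- a geometric sum -/
theorem geo (N Q : ℕ) (hQ : 2 ≤ Q) (D : ℕ) (f : ℕ → ℕ) (hf : ∀ i < D, f i * Q ^ (i + 1) ≤ N) :
    (∑ i ∈ Finset.range D, f i) * Q ≤ 2 * N := by
  have hQ0 : (0 : ℝ) < Q := by
    have : 0 < Q := by omega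
    exact_mod_cast this
  have hQ2 : (2 : ℝ) ≤ Q := by exact_mod_cast hQ
  have h1 : ∀ i ∈ Finset.range D, (f i : ℝ) * Q ≤ N * (1 / 2) ^ i := by
    intro i hi
    have h2 : ((f i * Q ^ (i + 1) : ℕ) : ℝ) ≤ (N : ℝ) := Nat.cast_le.2 (hf i (Finset.mem_range.1 hi))
    rw [Nat.cast_mul, Nat.cast_pow, pow_succ] at h2
    have h3 : (2 : ℝ) ^ i ≤ (Q : ℝ) ^ i := pow_le_pow_left₀ (by norm_num) hQ2 i
    have h4 : (f i : ℝ) * Q * 2 ^ i ≤ N := by
      have h5 : (f i : ℝ) * Q * 2 ^ i ≤ (f i : ℝ) * Q * Q ^ i :=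
        mul_le_mul_of_nonneg_left h3 (by positivity)
      have h6 : (f i : ℝ) * Q * Q ^ i = f i * (Q ^ i * Q) := by ring
      linarith
    rw [one_div, inv_pow, ← div_eq_mul_inv, le_div_iff₀ (by positivity)]
    exact h4
  have h2 : (((∑ i ∈ Finset.range D, f i) * Q : ℕ) : ℝ) ≤ ((2 * N : ℕ) : ℝ) := by
    rw [Nat.cast_mul, Nat.cast_sum, Finset.sum_mul]
    calc ∑ i ∈ Finset.range D, (f i : ℝ) * Q ≤ ∑ i ∈ Finset.range D, (N : ℝ) * (1 / 2) ^ i :=
          Finset.sum_le_sum h1
      _ = (N : ℝ) * ∑ i ∈ Finset.range D, (1 / 2 : ℝ) ^ i := by rw [Finset.mul_sum]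
      _ ≤ (N : ℝ) * 2 := mul_le_mul_of_nonneg_left (sum_geometric_two_le D) (Nat.cast_nonneg N)
      _ = ((2 * N : ℕ) : ℝ) := by push_cast; ring
  exact Nat.cast_le.1 h2

theorem abs_sub (N w Q K : ℕ) {X : Type} (s : Finset X) (a : X → ℕ)
    (ha : ∀ x ∈ s, a x * w ≤ N) (hs : s.card * Q ≤ w * K) (hw : 0 < w) :
    (∑ x ∈ s, a x) * Q ≤ K * N := by
  have h1 : ((∑ x ∈ s, a x) * Q) * w ≤ (K * N) * w := by
    calc ((∑ x ∈ s, a x) * Q) * w = (∑ x ∈ s, a x * w) * Q := by
            rw [← Finset.sum_mul]; ring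
      _ ≤ (∑ x ∈ s, N) * Q := Nat.mul_le_mul_right _ (Finset.sum_le_sum ha)
      _ = (s.card * Q) * N := by rw [Finset.sum_const, smul_eq_mul]; ring
      _ ≤ (w * K) * N := Nat.mul_le_mul_right _ hs
      _ = (K * N) * w := by ring
  exact Nat.le_of_mul_le_mul_right h1 hw

end CNTD

theorem p_CNTD (hCOL : Stmt_COL) (hHYP : Stmt_HYP2) (hSUB : Stmt_SUBL) : Stmt_CNTD := by
  intro F _ _ n k V _ _ _ T σ hT hσ hD
  classical
  have : Fintype (Fin n → ∀ j, V j) := Fintype.ofFinite _
  have : Finite (Submodule F (∀ j, V j)) :=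
    Finite.of_injective (fun W : Submodule F (∀ j, V j) => (W : Set (∀ j, V j)))
      SetLike.coe_injective
  have : Fintype (Submodule F (∀ j, V j)) := Fintype.ofFinite _
  have hq2 : 2 ≤ Nat.card F := Finite.one_lt_card
  set q := Nat.card F with hqdef
  set N := q ^ (n * n) with hN
  set D := finrank F (∀ j, V j) with hDdef
  have hq : 0 < q := by omega
  obtain ⟨e, he⟩ : ∃ e, n - k = e + D ∧ 1 ≤ e := ⟨n - k - D, by omega, by omega⟩
  set P : Matrix (Fin n) (Fin n) F → (Fin n → ∀ j, V j) → Prop := fun A x =>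
    Full T x ∧ Rel T σ A x ∧
      Submodule.span F (Set.range (fun (i : Fin n) (j : Fin k) => x i j.castSucc)) = ⊤ ∧
      Submodule.span F (Set.range x) ≠ ⊤ with hP
  have htot := CNTI.tot (F := F) (n := n) (X := Fin n → ∀ j, V j) P
  set a : (Fin n → ∀ j, V j) → ℕ := fun x =>
    Nat.card {A : Matrix (Fin n) (Fin n) F // P A x} with ha
  set g : (Fin n → ∀ j, V j) → Submodule F (∀ j, V j) := fun x =>
    Submodule.span F (Set.range x) with hg
  have hbound : ∀ x, a x * Nat.card (g x) ^ n ≤ N := fun x =>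
    CNTI.bound hCOL T σ x (fun A => P A x) (fun A h => h.2.1)
  have hzero : ∀ x, ¬ (Full T x ∧ (∀ c, (fun j => T j (x (σ j c) j)) ∈ g x) ∧
      Submodule.span F (Set.range (fun (i : Fin n) (j : Fin k) => x i j.castSucc)) = ⊤ ∧
      g x ≠ ⊤) → a x = 0 := by
    intro x hx
    have : IsEmpty {A : Matrix (Fin n) (Fin n) F // P A x} := by
      constructor
      rintro ⟨A, h1, h2, h3, h4⟩
      refine hx ⟨h1, fun c => ?_, h3, h4⟩
      rw [← CNTI.rel_eq h2 c]
      exact Submodule.sum_mem _ fun i _ => Submodule.smul_mem _ _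
        (Submodule.subset_span ⟨i, rfl⟩)
    exact Nat.card_of_isEmpty
  have hcW : ∀ W : Submodule F (∀ j, V j), Nat.card W = q ^ finrank F W := fun W =>
    Module.natCard_eq_pow_finrank
  have hcR : Nat.card (∀ j, V j) = q ^ D := Module.natCard_eq_pow_finrank
  have hpos : ∀ W : Submodule F (∀ j, V j), 0 < Nat.card W := fun W => Nat.card_pos
  -- one subspace
  have hsub : ∀ W : Submodule F (∀ j, V j), W ≠ ⊤ →
      (∑ x ∈ Finset.univ with g x = W, a x) * Nat.card (∀ j, V j) ^ (n - k) ≤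
        Nat.card W ^ (n - k) * N := by
    intro W hW
    have h1 : ∑ x ∈ Finset.univ with g x = W, a x =
        ∑ x ∈ Finset.univ with (g x = W ∧ Full T x ∧ (∀ c, (fun j => T j (x (σ j c) j)) ∈ W) ∧
          Submodule.span F (Set.range (fun (i : Fin n) (j : Fin k) => x i j.castSucc)) = ⊤),
          a x := by
      symm
      refine Finset.sum_subset ?_ ?_
      · intro x hx
        exact Finset.mem_filter.2 ⟨Finset.mem_univ _, (Finset.mem_filter.1 hx).2.1⟩
      · intro x hx hx'
        apply hzero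
        rintro ⟨h2, h3, h4, -⟩
        apply hx'
        have hgx := (Finset.mem_filter.1 hx).2
        rw [hgx] at h3
        exact Finset.mem_filter.2 ⟨Finset.mem_univ _, hgx, h2, h3, h4⟩
    rw [h1]
    refine CNTD.abs_sub N (Nat.card W ^ n) _ (Nat.card W ^ (n - k)) _ a ?_ ?_ (pow_pos (hpos W) _)
    · intro x hx
      have h := hbound x
      rw [(Finset.mem_filter.1 hx).2.1] at h
      exact h
    · have h2 := hHYP F n k V T σ hT hσ W
      have h3 : Nat.card {x : Fin n → ∀ j, V j // Submodule.span F (Set.range x) = W ∧ Full T x ∧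
          (∀ c, (fun j => T j (x (σ j c) j)) ∈ W) ∧
          Submodule.span F (Set.range (fun (i : Fin n) (j : Fin k) => x i j.castSucc)) = ⊤} =
          (Finset.univ.filter fun x : Fin n → ∀ j, V j => g x = W ∧ Full T x ∧
            (∀ c, (fun j => T j (x (σ j c) j)) ∈ W) ∧
          Submodule.span F (Set.range (fun (i : Fin n) (j : Fin k) => x i j.castSucc)) = ⊤).card := by
        rw [Nat.card_eq_fintype_card, Fintype.card_subtype]
      rw [h3, pow_add] at h2
      exact h2
  -- group by the span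
  have hfib : ∑ x, a x = ∑ W : Submodule F (∀ j, V j), ∑ x ∈ Finset.univ with g x = W, a x :=
    (Finset.sum_fiberwise Finset.univ g a).symm
  have htop : ∑ x ∈ Finset.univ with g x = ⊤, a x = 0 := by
    refine Finset.sum_eq_zero fun x hx => hzero x ?_
    rintro ⟨-, -, -, h4⟩
    exact h4 (Finset.mem_filter.1 hx).2
  have hsum : ∑ x, a x = ∑ W ∈ Finset.univ.erase (⊤ : Submodule F (∀ j, V j)),
      ∑ x ∈ Finset.univ with g x = W, a x := by
    rw [hfib, ← Finset.add_sum_erase Finset.univ _ (Finset.mem_univ ⊤), htop, zero_add]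
  -- group by the codimension
  have hlt : ∀ W : Submodule F (∀ j, V j), W ≠ ⊤ → finrank F W < D := fun W hW =>
    Submodule.finrank_lt (lt_of_le_of_ne le_top hW).ne
  set cd : Submodule F (∀ j, V j) → ℕ := fun W => D - finrank F W - 1 with hcd
  have hmaps : ∀ W ∈ Finset.univ.erase (⊤ : Submodule F (∀ j, V j)), cd W ∈ Finset.range D := by
    intro W hW
    have := hlt W (Finset.ne_of_mem_erase hW)
    rw [Finset.mem_range]
    show D - finrank F W - 1 < D
    omega
  have hsum2 : ∑ x, a x = ∑ i ∈ Finset.range D,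
      ∑ W ∈ (Finset.univ.erase (⊤ : Submodule F (∀ j, V j))).filter (fun W => cd W = i),
        ∑ x ∈ Finset.univ with g x = W, a x := by
    rw [hsum]
    exact (Finset.sum_fiberwise_of_maps_to hmaps _).symm
  have hi : ∀ i < D, (∑ W ∈ (Finset.univ.erase (⊤ : Submodule F (∀ j, V j))).filter
      (fun W => cd W = i), ∑ x ∈ Finset.univ with g x = W, a x) * (q ^ e) ^ (i + 1) ≤ N := by
    intro i _
    have h1 : ((Finset.univ.erase (⊤ : Submodule F (∀ j, V j))).filter
        (fun W => cd W = i)).card ≤ q ^ ((i + 1) * D) := by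
      refine le_trans ?_ (hSUB F (∀ j, V j) (i + 1))
      rw [Nat.card_eq_fintype_card, Fintype.card_subtype]
      refine Finset.card_le_card fun W hW => ?_
      rw [Finset.mem_filter] at hW ⊢
      refine ⟨Finset.mem_univ _, ?_⟩
      have h2 := hlt W (Finset.ne_of_mem_erase hW.1)
      have h3 : D - finrank F W - 1 = i := hW.2
      show finrank F W + (i + 1) = D
      omega
    have h2 : ∀ W ∈ (Finset.univ.erase (⊤ : Submodule F (∀ j, V j))).filter
        (fun W => cd W = i), (∑ x ∈ Finset.univ with g x = W, a x) *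
          q ^ ((i + 1) * (n - k)) ≤ N := by
      intro W hW
      rw [Finset.mem_filter] at hW
      have h3 := hsub W (Finset.ne_of_mem_erase hW.1)
      have h4 := hlt W (Finset.ne_of_mem_erase hW.1)
      have h5 : D - finrank F W - 1 = i := hW.2
      have h6 : D = finrank F W + (i + 1) := by omega
      rw [hcW, hcR, h6, ← pow_mul, ← pow_mul, Nat.add_mul, pow_add] at h3
      refine Nat.le_of_mul_le_mul_left (c := q ^ (finrank F W * (n - k))) ?_ (pow_pos hq _)
      calc _ = (∑ x ∈ Finset.univ with g x = W, a x) *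
            (q ^ (finrank F W * (n - k)) * q ^ ((i + 1) * (n - k))) := by ring
        _ ≤ _ := h3
    refine Nat.le_of_mul_le_mul_left (c := q ^ ((i + 1) * D)) ?_ (pow_pos hq _)
    calc q ^ ((i + 1) * D) * ((∑ W ∈ (Finset.univ.erase (⊤ : Submodule F (∀ j, V j))).filter
          (fun W => cd W = i), ∑ x ∈ Finset.univ with g x = W, a x) * (q ^ e) ^ (i + 1))
        = ∑ W ∈ (Finset.univ.erase (⊤ : Submodule F (∀ j, V j))).filter
          (fun W => cd W = i), (∑ x ∈ Finset.univ with g x = W, a x) *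
            q ^ ((i + 1) * (n - k)) := by
          have e3 : q ^ ((i + 1) * (n - k)) = (q ^ e) ^ (i + 1) * q ^ ((i + 1) * D) := by
            rw [he.1, Nat.mul_add, pow_add, ← pow_mul, Nat.mul_comm e (i + 1)]
          rw [← Finset.sum_mul, e3]
          ring
      _ ≤ ∑ _W ∈ (Finset.univ.erase (⊤ : Submodule F (∀ j, V j))).filter
          (fun W => cd W = i), N := Finset.sum_le_sum h2
      _ = ((Finset.univ.erase (⊤ : Submodule F (∀ j, V j))).filter
          (fun W => cd W = i)).card * N := by rw [Finset.sum_const, smul_eq_mul]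
      _ ≤ q ^ ((i + 1) * D) * N := Nat.mul_le_mul_right _ h1
  have hQ : 2 ≤ q ^ e := by
    calc 2 ≤ q := hq2
      _ = q ^ 1 := (pow_one q).symm
      _ ≤ q ^ e := Nat.pow_le_pow_right hq he.2
  have hgeo := CNTD.geo N (q ^ e) hQ D _ hi
  rw [← hsum2] at hgeo
  show Nat.card {p : Matrix (Fin n) (Fin n) F × (Fin n → ∀ j, V j) // P p.1 p.2} * q ^ n ≤
    2 * q ^ (n * n + k + D)
  rw [htot]
  have hn : n = e + (k + D) := by
    have := he.1
    omega
  calc (∑ x, a x) * q ^ n = ((∑ x, a x) * q ^ e) * q ^ (k + D) := by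
        rw [mul_assoc, ← pow_add, ← hn]
    _ ≤ (2 * N) * q ^ (k + D) := Nat.mul_le_mul_right _ hgeo
    _ = 2 * q ^ (n * n + k + D) := by
        rw [add_assoc (n * n), pow_add q (n * n), hN]
        ring

end Pool.CYA
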