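import Pool.Agent.Work.MP_dd2eb3_aa.Interface4

/-!
# MP_dd2eb3_aa, block CNTI (helper75, after B_CNT of helper41): the first moment of the independent
configurations
-/

set_option autoImplicit false

namespace Pool.CYA

open Module

namespace CNTI

theorem rel_eq {F : Type} [Field F] {n k : ℕ} {V : Fin k → Type} [∀ j, AddCommGroup (V j)]
    [∀ j, Module F (V j)] {T : ∀ j, V j →ₗ[F] V j} {σ : Fin k → Equiv.Perm (Fin n)}
    {A : Matrix (Fin n) (Fin n) F} {x : Fin n → ∀ j, V j} (h : Rel T σ A x) (c : Fin n) :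
    ∑ i, A i c • x i = fun j => T j (x (σ j c) j) := by
  funext j
  rw [← h j c, Finset.sum_apply]
  rfl

/-- the number of matrices for one family -/
theorem bound (hCOL : Stmt_COL) {F : Type} [Field F] [Finite F] {n k : ℕ} {V : Fin k → Type}
    [∀ j, AddCommGroup (V j)] [∀ j, Module F (V j)] [∀ j, Finite (V j)]
    (T : ∀ j, V j →ₗ[F] V j) (σ : Fin k → Equiv.Perm (Fin n)) (x : Fin n → ∀ j, V j)
    (P : Matrix (Fin n) (Fin n) F → Prop) (hP : ∀ A, P A → Rel T σ A x) :
    Nat.card {A : Matrix (Fin n) (Fin n) F // P A} *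
      Nat.card (Submodule.span F (Set.range x)) ^ n ≤ Nat.card F ^ (n * n) := by
  have : Finite (Matrix (Fin n) (Fin n) F) := inferInstanceAs (Finite (Fin n → Fin n → F))
  refine le_trans (Nat.mul_le_mul_right _ ?_)
    (hCOL F n (∀ j, V j) x (fun c j => T j (x (σ j c) j)))
  exact Nat.card_le_card_of_injective
    (fun A : {A : Matrix (Fin n) (Fin n) F // P A} =>
      (⟨A.1, fun c => rel_eq (hP A.1 A.2) c⟩ : {A : Matrix (Fin n) (Fin n) F //
        ∀ c, ∑ i, A i c • x i = (fun c j => T j (x (σ j c) j)) c}))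
    (fun A B h => Subtype.ext (congrArg (fun z => z.1) h))

theorem tot {F : Type} [Field F] [Finite F] {n : ℕ} {X : Type} [Fintype X]
    (P : Matrix (Fin n) (Fin n) F → X → Prop) :
    Nat.card {p : Matrix (Fin n) (Fin n) F × X // P p.1 p.2} =
      ∑ x : X, Nat.card {A : Matrix (Fin n) (Fin n) F // P A x} := by
  have : Finite (Matrix (Fin n) (Fin n) F) := inferInstanceAs (Finite (Fin n → Fin n → F))
  rw [← Nat.card_sigma]
  exact Nat.card_congr ⟨fun p => ⟨p.1.2, ⟨p.1.1, p.2⟩⟩, fun y => ⟨(y.2.1, y.1), y.2.2⟩,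
    fun _ => rfl, fun _ => rfl⟩

end CNTI

theorem p_CNTI (hCOL : Stmt_COL) : Stmt_CNTI := by
  intro F _ _ n k V _ _ _ T σ
  classical
  have : Fintype (Fin n → ∀ j, V j) := Fintype.ofFinite _
  have htot := CNTI.tot (F := F) (n := n) (X := Fin n → ∀ j, V j)
    (fun A x => Rel T σ A x ∧ Submodule.span F (Set.range x) = ⊤)
  rw [htot]
  have hpos : 0 < Nat.card (∀ j, V j) := Nat.card_pos
  have hb : ∀ x : Fin n → ∀ j, V j,
      Nat.card {A : Matrix (Fin n) (Fin n) F // Rel T σ A x ∧
        Submodule.span F (Set.range x) = ⊤} * Nat.card (∀ j, V j) ^ n ≤ Nat.card F ^ (n * n) := by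
    intro x
    by_cases hx : Submodule.span F (Set.range x) = ⊤
    · have h1 := CNTI.bound hCOL T σ x
        (fun A => Rel T σ A x ∧ Submodule.span F (Set.range x) = ⊤) (fun A h => h.1)
      have h2 : Nat.card (Submodule.span F (Set.range x)) = Nat.card (∀ j, V j) := by
        rw [hx]
        exact Nat.card_congr (Submodule.topEquiv (R := F) (M := ∀ j, V j)).toEquiv
      rw [h2] at h1
      exact h1
    · have : IsEmpty {A : Matrix (Fin n) (Fin n) F // Rel T σ A x ∧
          Submodule.span F (Set.range x) = ⊤} := ⟨fun A => hx A.2.2⟩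
      rw [Nat.card_of_isEmpty, Nat.zero_mul]
      exact Nat.zero_le _
  have hfin : (∑ x : Fin n → ∀ j, V j, Nat.card {A : Matrix (Fin n) (Fin n) F // Rel T σ A x ∧
      Submodule.span F (Set.range x) = ⊤}) * Nat.card (∀ j, V j) ^ n ≤
      Nat.card F ^ (n * n) * Nat.card (∀ j, V j) ^ n := by
    rw [Finset.sum_mul]
    calc _ ≤ ∑ _x : Fin n → ∀ j, V j, Nat.card F ^ (n * n) := Finset.sum_le_sum fun x _ => hb x
      _ = Nat.card (∀ j, V j) ^ n * Nat.card F ^ (n * n) := by
          rw [Finset.sum_const, smul_eq_mul, Finset.card_univ, ← Nat.card_eq_fintype_card,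
            Nat.card_fun, Nat.card_eq_fintype_card (α := Fin n), Fintype.card_fin]
      _ = _ := Nat.mul_comm _ _
  exact Nat.le_of_mul_le_mul_right hfin (pow_pos hpos n)

end Pool.CYA
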