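import Pool.Agent.Work.MP_dd2eb3_aa.Interface

/-!
# Block DEG
-/

set_option autoImplicit false

namespace Pool.CYA

open Module

theorem DEG_fin (F : Type) [Field F] [Finite F] (n : ℕ) :
    {t : AlgebraicClosure F | dg t ≤ n}.Finite := by
  classical
  have hfin : ((Polynomial.degreeLT F (n + 1) : Submodule F (Polynomial F)) :
      Set (Polynomial F)).Finite := by
    have : Finite (Polynomial.degreeLT F (n + 1)) :=
      Finite.of_equiv _ (Polynomial.degreeLTEquiv F (n + 1)).symm.toEquiv
    exact Set.toFinite _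
  have hU : (⋃ p ∈ ((Polynomial.degreeLT F (n + 1) : Submodule F (Polynomial F)) :
      Set (Polynomial F)), p.rootSet (AlgebraicClosure F)).Finite :=
    hfin.biUnion (fun p _ => Polynomial.rootSet_finite p _)
  refine hU.subset ?_
  intro t ht
  have ht' : (minpoly F t).natDegree ≤ n := ht
  have hint : IsIntegral F t := Algebra.IsIntegral.isIntegral t
  rw [Set.mem_iUnion₂]
  refine ⟨minpoly F t, ?_, ?_⟩
  · show minpoly F t ∈ Polynomial.degreeLT F (n + 1)
    rw [Polynomial.mem_degreeLT]
    refine lt_of_le_of_lt Polynomial.degree_le_natDegree ?_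
    exact_mod_cast Nat.lt_succ_of_le ht'
  · rw [Polynomial.mem_rootSet]
    exact ⟨minpoly.ne_zero hint, minpoly.aeval F t⟩

theorem DEG_le (F : Type) [Field F] (n : ℕ) (A : Matrix (Fin n) (Fin n) F)
    (σ : Equiv.Perm (Fin n)) (t : AlgebraicClosure F) (h : Der A σ t) : dg t ≤ n := by
  classical
  obtain ⟨v, hv, he⟩ := h
  have h0 : v 0 ≠ 0 := hv.ne_zero 0
  have hdet : (Matrix.scalar (Fin n) (gt t) -
      (Matrix.of fun d i => A i (σ.symm d)).map (algebraMap F (Kt t))).det = 0 := by
    rw [← Matrix.exists_mulVec_eq_zero_iff]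
    refine ⟨v 0, h0, ?_⟩
    funext d
    have h1 := he 0 (σ.symm d)
    rw [Equiv.apply_symm_apply] at h1
    rw [Matrix.sub_mulVec, Pi.sub_apply, Matrix.scalar_apply, Matrix.mulVec_diagonal, ← h1]
    simp only [Matrix.mulVec, dotProduct, Matrix.map_apply, Matrix.of_apply, Pi.zero_apply,
      Algebra.smul_def]
    exact sub_self _
  have h2 : Polynomial.aeval (gt t) (Matrix.of fun d i => A i (σ.symm d)).charpoly = 0 := by
    rw [Polynomial.aeval_def, ← Polynomial.eval_map, ← Matrix.charpoly_map, Matrix.eval_charpoly]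
    exact hdet
  have h3 : Polynomial.aeval t (Matrix.of fun d i => A i (σ.symm d)).charpoly = 0 := by
    have h4 := Polynomial.aeval_algebraMap_apply (AlgebraicClosure F) (gt t)
      (Matrix.of fun d i => A i (σ.symm d)).charpoly
    rw [h2, map_zero, IntermediateField.AdjoinSimple.algebraMap_gen] at h4
    exact h4
  have h5 := Polynomial.natDegree_le_of_dvd (minpoly.dvd F t h3)
    (Matrix.charpoly_monic _).ne_zero
  rw [Matrix.charpoly_natDegree_eq_dim, Fintype.card_fin] at h5
  exact h5

theorem p_DEG : Stmt_DEG := by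
  intro F _ _ n
  exact ⟨DEG_fin F n, fun A σ t h => DEG_le F n A σ t h⟩

end Pool.CYA
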