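import Pool.Agent.Work.MP_dd2eb3_aa.Interface
import Pool.Agent.Work.MP_dd2eb3_hess.Cyc

/-!
# Block EIG
-/

set_option autoImplicit false

namespace Pool.CYA

open Module

section

variable {F : Type} [Field F] {n : ℕ}

/-- The eigenvectors over `F(t)` form a subspace. -/
noncomputable def eigSub (A : Matrix (Fin n) (Fin n) F) (σ : Equiv.Perm (Fin n))
    (t : AlgebraicClosure F) : Submodule (Kt t) (Fin n → Kt t) where
  carrier := {v | Eig A σ t v}
  add_mem' := by
    intro a b ha hb c
    have h1 := ha c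
    have h2 := hb c
    simp only [Pi.add_apply, smul_add, Finset.sum_add_distrib, mul_add]
    rw [h1, h2]
  zero_mem' := by
    intro c
    simp
  smul_mem' := by
    intro r a ha c
    have h1 := ha c
    simp only [Pi.smul_apply, smul_eq_mul]
    have h2 : ∑ i, A i c • (r * a i) = r * ∑ i, A i c • a i := by
      rw [Finset.mul_sum]
      apply Finset.sum_congr rfl
      intro i _
      rw [mul_smul_comm]
    rw [h2, h1]
    ring

theorem mem_eigSub {A : Matrix (Fin n) (Fin n) F} {σ : Equiv.Perm (Fin n)}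
    {t : AlgebraicClosure F} {v : Fin n → Kt t} : v ∈ eigSub A σ t ↔ Eig A σ t v := Iff.rfl

theorem finrank_eigSub {A : Matrix (Fin n) (Fin n) F} {σ : Equiv.Perm (Fin n)}
    {t : AlgebraicClosure F} (h : ¬ Der A σ t) : finrank (Kt t) (eigSub A σ t) ≤ 1 := by
  by_contra hcon
  push Not at hcon
  apply h
  let b := Module.finBasis (Kt t) (eigSub A σ t)
  refine ⟨fun a => (b (Fin.castLE hcon a)).1, ?_, fun a => ?_⟩
  · have h1 : LinearIndependent (Kt t) (fun a : Fin 2 => b (Fin.castLE hcon a)) :=
      b.linearIndependent.comp _ (Fin.castLE_injective hcon)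
    exact h1.map' (eigSub A σ t).subtype (Submodule.ker_subtype _)
  · exact (b (Fin.castLE hcon a)).2

theorem line_gen {K L : Type*} [Field K] [Field L] [Algebra K L] {n : ℕ}
    (E : Submodule K (Fin n → K)) (hE : finrank K E ≤ 1) :
    ∃ u : Fin n → L, ∀ w : Fin n → L, (∀ φ : L →ₗ[K] K, (fun i => φ (w i)) ∈ E) →
      ∃ c : L, w = c • u := by
  obtain ⟨u, hu⟩ := finrank_le_one_iff.1 hE
  refine ⟨fun i => algebraMap K L (u.1 i), fun w hw => ?_⟩
  let b := Basis.ofVectorSpace K L
  have hc : ∀ β, ∃ c : K, ∀ i, b.repr (w i) β = c * u.1 i := by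
    intro β
    have hE : (fun i => b.repr (w i) β) ∈ E := hw (b.coord β)
    obtain ⟨c, hc⟩ := hu ⟨_, hE⟩
    refine ⟨c, fun i => ?_⟩
    have := congrArg (fun z : E => z.1 i) hc
    simpa using this.symm
  by_cases h0 : u.1 = 0
  · refine ⟨0, ?_⟩
    funext i
    apply b.repr.injective
    ext β
    obtain ⟨c, hc⟩ := hc β
    rw [hc i, h0]
    simp
  · obtain ⟨i0, hi0⟩ := Function.ne_iff.1 h0
    simp only [Pi.zero_apply] at hi0
    have hmap : algebraMap K L (u.1 i0) ≠ 0 :=
      (map_ne_zero_iff _ (algebraMap K L).injective).mpr hi0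
    have hw' : ∀ i, w i = (u.1 i / u.1 i0) • w i0 := by
      intro i
      apply b.repr.injective
      ext β
      obtain ⟨c, hc⟩ := hc β
      rw [map_smul, Finsupp.smul_apply, hc i, hc i0, smul_eq_mul]
      field_simp
    refine ⟨w i0 / algebraMap K L (u.1 i0), ?_⟩
    funext i
    rw [hw' i, Algebra.smul_def, map_div₀]
    simp only [Pi.smul_apply, smul_eq_mul]
    field_simp

theorem line_of_not_der {A : Matrix (Fin n) (Fin n) F} {σ : Equiv.Perm (Fin n)}
    {t : AlgebraicClosure F} (h : ¬ Der A σ t) :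
    ∃ u : Fin n → AlgebraicClosure F, ∀ w : Fin n → AlgebraicClosure F,
      (∀ c, ∑ i, A i c • w i = t * w (σ c)) → ∃ c : AlgebraicClosure F, w = c • u := by
  obtain ⟨u, hu⟩ := line_gen (L := AlgebraicClosure F) (eigSub A σ t) (finrank_eigSub h)
  refine ⟨u, fun w hw => hu w ?_⟩
  intro φ
  rw [mem_eigSub]
  intro c
  have h1 := congrArg φ (hw c)
  have h2 : t * w (σ c) = gt t • w (σ c) := by
    rw [Algebra.smul_def]
    rfl
  rw [h2, map_sum, map_smul, smul_eq_mul] at h1
  rw [← h1]
  apply Finset.sum_congr rfl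
  intro i _
  have h3 : A i c • w i = (algebraMap F (Kt t) (A i c)) • w i := by
    rw [algebraMap_smul]
  rw [h3, map_smul, algebraMap_smul]

end

theorem b_EIG : Stmt_EIG := by
  intro F _ n A σ hA hne
  by_contra hcon
  push Not at hcon
  apply hne
  set L := AlgebraicClosure F with hL
  have h1 : A * σ.permMatrix F = A.submatrix id σ.symm := by
    rw [Equiv.Perm.permMatrix]
    exact PEquiv.mul_toMatrix_toPEquiv A σ
  rw [h1]
  set M := A.submatrix id σ.symm with hM
  have hdet : (M.map (algebraMap F L)).det ≠ 0 := by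
    have h2 : (M.map (algebraMap F L)).det = algebraMap F L M.det := by
      rw [RingHom.map_det]; rfl
    rw [h2]
    apply (map_ne_zero_iff _ (algebraMap F L).injective).mpr
    rw [← h1, Matrix.det_mul]
    apply mul_ne_zero hA
    rw [Matrix.det_permutation]
    rcases Int.units_eq_one_or (Equiv.Perm.sign σ) with h3 | h3 <;> rw [h3] <;> simp
  have hlines : Agent.Work.CycHess.Lines ((M.map (algebraMap F L)).transpose) := by
    intro t
    by_cases ht : t = 0
    · refine ⟨0, fun w hw => ⟨0, ?_⟩⟩
      rw [ht, zero_smul] at hw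
      rw [zero_smul]
      apply Matrix.eq_zero_of_mulVec_eq_zero _ hw
      rw [Matrix.det_transpose]
      exact hdet
    · obtain ⟨u, hu⟩ := line_of_not_der (hcon t ht)
      refine ⟨u, fun w hw => hu w ?_⟩
      intro c
      have h3 := congrFun hw (σ c)
      simp only [Matrix.mulVec, dotProduct, Matrix.transpose_apply, Matrix.map_apply, hM,
        Matrix.submatrix_apply, Equiv.symm_apply_apply, Pi.smul_apply, smul_eq_mul, id] at h3
      rw [← h3]
      apply Finset.sum_congr rfl
      intro i _
      rw [Algebra.smul_def]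
  have hlines2 : Agent.Work.CycHess.Lines (M.map (algebraMap F L)) := by
    have := hlines.transpose
    rwa [Matrix.transpose_transpose] at this
  rw [Agent.Work.CycHess.lines_iff] at hlines2
  have h2 : n ≤ 1 * (minpoly F M).natDegree :=
    Agent.Work.MP_dd2eb3_helper90.le_mul_natDegree_minpoly L M 1 hlines2
  have hint : IsIntegral F M := Algebra.IsIntegral.isIntegral M
  symm
  apply Polynomial.eq_of_monic_of_dvd_of_natDegree_le (minpoly.monic hint)
    (Matrix.charpoly_monic M) (Matrix.minpoly_dvd_charpoly M)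
  rw [Matrix.charpoly_natDegree_eq_dim, Fintype.card_fin]
  omega

end Pool.CYA
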