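import Pool.Agent.Work.MP_dd2eb3_aa.Interface

/-!
# Almost all invertible matrices over a finite field: the final count
-/

set_option autoImplicit false

namespace Pool.CYA

open Module

theorem FIN_shift (n m : ℕ) :
    IsShift (n := n) (k := m) (fun j => (finRotate n) ^ j.1) := by
  intro j c
  obtain ⟨j, hj⟩ := j
  change c.1 + j < n → (((finRotate n) ^ j) c).1 = c.1 + j
  clear hj
  induction j with
  | zero => intro _; simp
  | succ j ih =>
    intro h
    have h1 := ih (by omega)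
    rw [pow_succ', Equiv.Perm.mul_apply]
    obtain _ | n := n
    · exact c.elim0
    rw [coe_finRotate_of_ne_last]
    · rw [h1]; rfl
    · intro h2
      rw [h2, Fin.val_last] at h1
      omega

theorem FIN_gl2_pos {Q : ℕ} (hQ : 2 ≤ Q) : 0 < gl2 Q := by
  unfold gl2
  apply Nat.mul_pos
  · have : 2 ^ 2 ≤ Q ^ 2 := Nat.pow_le_pow_left hQ 2
    omega
  · have : Q * 2 ≤ Q * Q := Nat.mul_le_mul_left Q hQ
    have h2 : Q ^ 2 = Q * Q := by ring
    omega

theorem FIN_dg_pos {F : Type} [Field F] (t : AlgebraicClosure F) : 0 < dg t :=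
  minpoly.natDegree_pos (Algebra.IsIntegral.isIntegral t)

theorem p_FIN (hEIG : Stmt_EIG) (hDEG : Stmt_DEG) (hBADK : Stmt_BADK) (hBAD1 : Stmt_BAD1)
    (hSUMT : Stmt_SUMT) (hGLC : Stmt_GLC) : Stmt_FIN := by
  intro F _ _ n m hnm
  classical
  have : Fintype F := Fintype.ofFinite F
  have hGL := hGLC F n
  set q := Nat.card F with hq
  have hq2 : 2 ≤ q := by
    rw [hq]
    exact Nat.succ_le_of_lt (Finite.one_lt_card)
  rcases Nat.eq_zero_or_pos m with hm0 | hm
  · subst hm0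
    have h1 : Nat.card {A : Matrix (Fin n) (Fin n) F // A.det ≠ 0 ∧ ∀ j < 0,
      minpoly F (A * ((finRotate n) ^ j).permMatrix F) ≠
        (A * ((finRotate n) ^ j).permMatrix F).charpoly} ≤
        Nat.card {A : Matrix (Fin n) (Fin n) F // A.det ≠ 0} := by
      apply Nat.card_le_card_of_injective (fun A => (⟨A.1, A.2.1⟩ :
        {A : Matrix (Fin n) (Fin n) F // A.det ≠ 0}))
      intro A B h
      have h' := congrArg Subtype.val h
      exact Subtype.ext h'
    rw [pow_zero, one_mul]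
    omega
  have hmn4 : m ≤ m ^ 4 := Nat.le_self_pow (by norm_num) m
  have hmn : m ≤ n := by omega
  set σ : Fin m → Equiv.Perm (Fin n) := fun j => (finRotate n) ^ j.1 with hσdef
  have hσ : IsShift σ := FIN_shift n m
  have hQ : ∀ t : AlgebraicClosure F, 2 ≤ q ^ dg t := by
    intro t
    exact hq2.trans (Nat.le_self_pow (FIN_dg_pos t).ne' q)
  have hgpos : ∀ t : AlgebraicClosure F, (0 : ℝ) < (gl2 (q ^ dg t) : ℝ) := by
    intro t
    exact_mod_cast FIN_gl2_pos (hQ t)
  set B : Finset (Matrix (Fin n) (Fin n) F) := Finset.univ.filter fun A =>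
    A.det ≠ 0 ∧ ∀ j < m,
      minpoly F (A * ((finRotate n) ^ j).permMatrix F) ≠
        (A * ((finRotate n) ^ j).permMatrix F).charpoly with hB
  have hBc : Nat.card {A : Matrix (Fin n) (Fin n) F // A.det ≠ 0 ∧ ∀ j < m,
      minpoly F (A * ((finRotate n) ^ j).permMatrix F) ≠
        (A * ((finRotate n) ^ j).permMatrix F).charpoly} = B.card := by
    rw [Nat.card_eq_fintype_card, Fintype.card_subtype]
  rw [hBc]
  set Θ : Finset (AlgebraicClosure F) := (hDEG F m).1.toFinset.filter (fun t => t ≠ 0) with hΘ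
  set Θ' : Finset (AlgebraicClosure F) := (hDEG F n).1.toFinset.filter (fun t => m < dg t) with hΘ'
  set D : (Fin m → AlgebraicClosure F) → Finset (Matrix (Fin n) (Fin n) F) := fun τ =>
    Finset.univ.filter fun A => ∀ j, Der A (σ j) (τ j) with hD
  set E : Fin m → AlgebraicClosure F → Finset (Matrix (Fin n) (Fin n) F) := fun j t =>
    Finset.univ.filter fun A => Der A (σ j) t with hE
  have hDc : ∀ τ, (D τ).card = Nat.card {A : Matrix (Fin n) (Fin n) F // ∀ j, Der A (σ j) (τ j)} := by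
    intro τ
    rw [Nat.card_eq_fintype_card, Fintype.card_subtype]
  have hEc : ∀ j t, (E j t).card = Nat.card {A : Matrix (Fin n) (Fin n) F // Der A (σ j) t} := by
    intro j t
    rw [Nat.card_eq_fintype_card, Fintype.card_subtype]
  have hsub : B ⊆ (Fintype.piFinset (fun _ : Fin m => Θ)).biUnion D ∪
      (Finset.univ : Finset (Fin m)).biUnion (fun j => Θ'.biUnion (E j)) := by
    intro A hA
    rw [hB, Finset.mem_filter] at hA
    have hex : ∀ j : Fin m, ∃ t : AlgebraicClosure F, t ≠ 0 ∧ Der A (σ j) t := fun j =>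
      hEIG F n A (σ j) hA.2.1 (hA.2.2 j.1 j.2)
    choose t ht0 htD using hex
    rw [Finset.mem_union]
    by_cases hall : ∀ j, dg (t j) ≤ m
    · left
      rw [Finset.mem_biUnion]
      refine ⟨t, ?_, ?_⟩
      · rw [Fintype.mem_piFinset]
        intro j
        rw [hΘ, Finset.mem_filter, Set.Finite.mem_toFinset]
        exact ⟨hall j, ht0 j⟩
      · rw [hD]
        simp only [Finset.mem_filter, Finset.mem_univ, true_and]
        exact htD
    · right
      push Not at hall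
      obtain ⟨j, hj⟩ := hall
      rw [Finset.mem_biUnion]
      refine ⟨j, Finset.mem_univ _, ?_⟩
      rw [Finset.mem_biUnion]
      refine ⟨t j, ?_, ?_⟩
      · rw [hΘ', Finset.mem_filter, Set.Finite.mem_toFinset]
        exact ⟨(hDEG F n).2 A (σ j) (t j) (htD j), hj⟩
      · rw [hE]
        simp only [Finset.mem_filter, Finset.mem_univ, true_and]
        exact htD j
  have hcard : (B.card : ℝ) ≤ ∑ τ ∈ Fintype.piFinset (fun _ : Fin m => Θ), ((D τ).card : ℝ) +
      ∑ j : Fin m, ∑ t ∈ Θ', ((E j t).card : ℝ) := by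
    have h1 := (Finset.card_le_card hsub).trans (Finset.card_union_le _ _)
    have h2 : ((Fintype.piFinset (fun _ : Fin m => Θ)).biUnion D).card ≤
        ∑ τ ∈ Fintype.piFinset (fun _ : Fin m => Θ), (D τ).card := Finset.card_biUnion_le
    have h3 : ((Finset.univ : Finset (Fin m)).biUnion (fun j => Θ'.biUnion (E j))).card ≤
        ∑ j : Fin m, ∑ t ∈ Θ', (E j t).card :=
      Finset.card_biUnion_le.trans (Finset.sum_le_sum fun j _ => Finset.card_biUnion_le)
    have h4 : B.card ≤ ∑ τ ∈ Fintype.piFinset (fun _ : Fin m => Θ), (D τ).card +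
      ∑ j : Fin m, ∑ t ∈ Θ', (E j t).card := by omega
    exact_mod_cast h4
  set N : ℝ := (q : ℝ) ^ (n * n) with hN
  have hN0 : 0 < N := by
    rw [hN]
    have : (0 : ℝ) < q := by exact_mod_cast (by omega : 0 < q)
    positivity
  -- the main part
  have hmain : ∑ τ ∈ Fintype.piFinset (fun _ : Fin m => Θ), ((D τ).card : ℝ) ≤
      2 * N * (1 / 2) ^ m := by
    have h1 : ∀ τ ∈ Fintype.piFinset (fun _ : Fin m => Θ), ((D τ).card : ℝ) ≤
        2 * N * ∏ j, (1 / (gl2 (q ^ dg (τ j)) : ℝ)) := by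
      intro τ hτ
      rw [Fintype.mem_piFinset] at hτ
      have hτ' : ∀ j, dg (τ j) ≤ m ∧ τ j ≠ 0 := by
        intro j
        have := hτ j
        rw [hΘ, Finset.mem_filter, Set.Finite.mem_toFinset] at this
        exact this
      have hs : ∑ j, 2 * dg (τ j) ≤ 2 * m ^ 2 := by
        calc ∑ j, 2 * dg (τ j) ≤ ∑ _j : Fin m, 2 * m :=
              Finset.sum_le_sum fun j _ => Nat.mul_le_mul_left 2 (hτ' j).1
          _ = 2 * m ^ 2 := by
              rw [Finset.sum_const, Finset.card_univ, Fintype.card_fin, smul_eq_mul]; ring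
      have hcond : (∑ j, 2 * dg (τ j)) * (∑ j, 2 * dg (τ j)) + m ≤ n + 1 := by
        have h2 := Nat.mul_le_mul hs hs
        have h3 : (2 * m ^ 2) * (2 * m ^ 2) = 4 * m ^ 4 := by ring
        rw [h3] at h2
        omega
      have h4 := hBADK F n m τ σ (fun j => (hτ' j).2) hσ hmn hcond
      rw [← hDc] at h4
      have h5 : ((D τ).card : ℝ) * ∏ j, (gl2 (q ^ dg (τ j)) : ℝ) ≤ 2 * N := by
        rw [hN]
        exact_mod_cast h4
      have h6 : (0 : ℝ) < ∏ j, (gl2 (q ^ dg (τ j)) : ℝ) :=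
        Finset.prod_pos fun j _ => hgpos (τ j)
      have h7 : ∏ j, (1 / (gl2 (q ^ dg (τ j)) : ℝ)) = 1 / ∏ j, (gl2 (q ^ dg (τ j)) : ℝ) := by
        rw [Finset.prod_div_distrib, Finset.prod_const_one]
      rw [h7, mul_one_div, le_div_iff₀ h6]
      exact h5
    refine (Finset.sum_le_sum h1).trans ?_
    rw [← Finset.mul_sum]
    apply mul_le_mul_of_nonneg_left _ (by positivity)
    have h8 := Finset.prod_univ_sum (fun _ : Fin m => Θ)
      (fun (_ : Fin m) (t : AlgebraicClosure F) => (1 / (gl2 (q ^ dg t) : ℝ)))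
    rw [← h8, Finset.prod_const, Finset.card_univ, Fintype.card_fin]
    apply pow_le_pow_left₀
    · exact Finset.sum_nonneg fun t _ => (one_div_pos.2 (hgpos t)).le
    · have h9 := hSUMT F 0 Θ (fun t _ => FIN_dg_pos t)
      rw [pow_zero, mul_one] at h9
      exact h9
  have htail : ∑ j : Fin m, ∑ t ∈ Θ', ((E j t).card : ℝ) ≤ m * (N * (1 / 2 * (1 / 8) ^ m)) := by
    have h1 : ∀ j : Fin m, ∑ t ∈ Θ', ((E j t).card : ℝ) ≤ N * (1 / 2 * (1 / 8) ^ m) := by
      intro j
      have h2 : ∀ t ∈ Θ', ((E j t).card : ℝ) ≤ N * (1 / (gl2 (q ^ dg t) : ℝ)) := by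
        intro t _
        have h4 := hBAD1 F n t (σ j)
        rw [← hEc] at h4
        have h5 : ((E j t).card : ℝ) * (gl2 (q ^ dg t) : ℝ) ≤ N := by
          rw [hN]
          exact_mod_cast h4
        rw [mul_one_div, le_div_iff₀ (hgpos t)]
        exact h5
      refine (Finset.sum_le_sum h2).trans ?_
      rw [← Finset.mul_sum]
      apply mul_le_mul_of_nonneg_left _ hN0.le
      apply hSUMT F m Θ'
      intro t ht
      rw [hΘ', Finset.mem_filter] at ht
      exact ht.2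
    refine (Finset.sum_le_sum fun j _ => h1 j).trans ?_
    rw [Finset.sum_const, Finset.card_univ, Fintype.card_fin, nsmul_eq_mul]
  have hm4 : (m : ℝ) ≤ 4 ^ m / 4 := by
    obtain ⟨p, rfl⟩ : ∃ p, m = p + 1 := ⟨m - 1, by omega⟩
    have : p + 1 ≤ 4 ^ p := Nat.lt_pow_self (by norm_num)
    have h2 : ((p + 1 : ℕ) : ℝ) ≤ (4 : ℝ) ^ p := by exact_mod_cast this
    rw [pow_succ]
    linarith
  have hGL' : N ≤ 4 * (Nat.card {A : Matrix (Fin n) (Fin n) F // A.det ≠ 0} : ℝ) := by
    rw [hN]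
    exact_mod_cast hGL
  have hfin : (2 : ℝ) ^ m * B.card ≤
      9 * (Nat.card {A : Matrix (Fin n) (Fin n) F // A.det ≠ 0} : ℝ) := by
    have h1 : (2 : ℝ) ^ m * B.card ≤ 2 ^ m * (2 * N * (1 / 2) ^ m + m * (N * (1 / 2 * (1 / 8) ^ m))) :=
      mul_le_mul_of_nonneg_left (hcard.trans (add_le_add hmain htail)) (by positivity)
    have h2 : (2 : ℝ) ^ m * (1 / 2) ^ m = 1 := by
      rw [← mul_pow]; norm_num
    have h3 : (2 : ℝ) ^ m * (1 / 8) ^ m * 4 ^ m = 1 := by
      rw [← mul_pow, ← mul_pow]; norm_num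
    have h4 : (m : ℝ) * ((2 : ℝ) ^ m * (1 / 8) ^ m) ≤ 1 / 4 := by
      have h5 : (0 : ℝ) ≤ (2 : ℝ) ^ m * (1 / 8) ^ m := by positivity
      calc (m : ℝ) * ((2 : ℝ) ^ m * (1 / 8) ^ m) ≤ (4 ^ m / 4) * ((2 : ℝ) ^ m * (1 / 8) ^ m) :=
            mul_le_mul_of_nonneg_right hm4 h5
        _ = (2 : ℝ) ^ m * (1 / 8) ^ m * 4 ^ m / 4 := by ring
        _ = 1 / 4 := by rw [h3]
    have h6 : (2 : ℝ) ^ m * (2 * N * (1 / 2) ^ m + m * (N * (1 / 2 * (1 / 8) ^ m)))
        = 2 * N * (2 ^ m * (1 / 2) ^ m) + N / 2 * (m * (2 ^ m * (1 / 8) ^ m)) := by ring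
    rw [h6, h2] at h1
    have h7 : N / 2 * ((m : ℝ) * (2 ^ m * (1 / 8) ^ m)) ≤ N / 2 * (1 / 4) :=
      mul_le_mul_of_nonneg_left h4 (by positivity)
    linarith
  exact_mod_cast hfin

end Pool.CYA
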