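import Pool.Agent.Work.MP_dd2eb3_aa.Interface4
import Pool.Agent.Work.MP_dd2eb3_aa.B_FINQ

/-!
# Almost all invertible matrices over a finite field: the final count
-/

set_option autoImplicit false

namespace Pool.CYA

open Module

theorem FINL_first {F : Type} [Field F] {n p : ℕ} (A : Matrix (Fin n) (Fin n) F)
    (τ : Fin p → AlgebraicClosure F) (h : Dep A τ) :
    ∃ k : ℕ, ∃ hk : k + 1 ≤ p, Dep A (fun j : Fin (k + 1) => τ (Fin.castLE hk j)) ∧
      ¬ Dep A (fun j : Fin k => τ (Fin.castLE hk j.castSucc)) := by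
  classical
  have hex : ∃ p' : ℕ, ∃ hp : p' ≤ p, Dep A (fun j : Fin p' => τ (Fin.castLE hp j)) :=
    ⟨p, le_rfl, h⟩
  obtain ⟨p', ⟨hp, h1⟩, hmin⟩ : ∃ p' : ℕ,
      (∃ hp : p' ≤ p, Dep A (fun j : Fin p' => τ (Fin.castLE hp j))) ∧
      ∀ p'' < p', ¬ ∃ hp : p'' ≤ p, Dep A (fun j : Fin p'' => τ (Fin.castLE hp j)) :=
    ⟨Nat.find hex, Nat.find_spec hex, fun p' h => Nat.find_min hex h⟩
  obtain _ | k := p'
  · exfalso
    obtain ⟨v, _, h3⟩ := h1
    apply h3
    rw [eq_top_iff]
    intro x _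
    have : x = 0 := by
      funext j
      exact j.elim0
    rw [this]
    exact Submodule.zero_mem _
  · refine ⟨k, hp, h1, ?_⟩
    intro h2
    exact hmin k (by omega) ⟨by omega, h2⟩

theorem p_FINL (hEIG : Stmt_EIG) (hDEG : Stmt_DEG) (hBADI : Stmt_BADI) (hBADD : Stmt_BADD)
    (hBAD1 : Stmt_BAD1) (hSUMA : Stmt_SUMA) (hSUMB : Stmt_SUMB) (hSUMC : Stmt_SUMC)
    (hGLC : Stmt_GLC) : Stmt_FINL := by
  intro F _ _ n m hnm
  classical
  have : Fintype F := Fintype.ofFinite F
  have hGL := hGLC F n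
  set q := Nat.card F with hq
  have hq2 : 2 ≤ q := by
    rw [hq]
    exact Nat.succ_le_of_lt (Finite.one_lt_card)
  rcases Nat.eq_zero_or_pos m with hm0 | hm
  · subst hm0
    have h1 : Nat.card {A : Matrix (Fin n) (Fin n) F // A.det ≠ 0 ∧ ∀ j < 0,
      minpoly F (A * ((finRotate n) ^ j).permMatrix F) ≠
        (A * ((finRotate n) ^ j).permMatrix F).charpoly} ≤
        Nat.card {A : Matrix (Fin n) (Fin n) F // A.det ≠ 0} := by
      apply Nat.card_le_card_of_injective (fun A => (⟨A.1, A.2.1⟩ :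
        {A : Matrix (Fin n) (Fin n) F // A.det ≠ 0}))
      intro A B h
      have h' := congrArg Subtype.val h
      exact Subtype.ext h'
    rw [mul_zero, pow_zero, pow_zero, one_mul, mul_one]
    omega
  have hQ : ∀ t : AlgebraicClosure F, 2 ≤ q ^ dg t := by
    intro t
    exact hq2.trans (Nat.le_self_pow (FIN_dg_pos t).ne' q)
  have hgpos : ∀ t : AlgebraicClosure F, (0 : ℝ) < (gl2 (q ^ dg t) : ℝ) := by
    intro t
    exact_mod_cast FIN_gl2_pos (hQ t)
  set B : Finset (Matrix (Fin n) (Fin n) F) := Finset.univ.filter fun A =>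
    A.det ≠ 0 ∧ ∀ j < m,
      minpoly F (A * ((finRotate n) ^ j).permMatrix F) ≠
        (A * ((finRotate n) ^ j).permMatrix F).charpoly with hB
  have hBc : Nat.card {A : Matrix (Fin n) (Fin n) F // A.det ≠ 0 ∧ ∀ j < m,
      minpoly F (A * ((finRotate n) ^ j).permMatrix F) ≠
        (A * ((finRotate n) ^ j).permMatrix F).charpoly} = B.card := by
    rw [Nat.card_eq_fintype_card, Fintype.card_subtype]
  rw [hBc]
  set Θ : Finset (AlgebraicClosure F) := (hDEG F m).1.toFinset.filter (fun t => t ≠ 0) with hΘ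
  set Θ' : Finset (AlgebraicClosure F) := (hDEG F n).1.toFinset.filter (fun t => m < dg t) with hΘ'
  set D : (p : ℕ) → (Fin p → AlgebraicClosure F) → Finset (Matrix (Fin n) (Fin n) F) := fun p τ =>
    Finset.univ.filter fun A => (∀ j : Fin p, Der A (sh n j) (τ j)) ∧ ¬ Dep A τ with hD
  set G : (k : ℕ) → (Fin (k + 1) → AlgebraicClosure F) → Finset (Matrix (Fin n) (Fin n) F) :=
    fun k τ => Finset.univ.filter fun A => Dep A τ ∧ ¬ Dep A (fun j : Fin k => τ j.castSucc) with hG
  set E : Fin m → AlgebraicClosure F → Finset (Matrix (Fin n) (Fin n) F) := fun j t =>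
    Finset.univ.filter fun A => Der A ((finRotate n) ^ j.1) t with hE
  have hDc : ∀ p τ, (D p τ).card =
      Nat.card {A : Matrix (Fin n) (Fin n) F // (∀ j : Fin p, Der A (sh n j) (τ j)) ∧
        ¬ Dep A τ} := by
    intro p τ
    rw [Nat.card_eq_fintype_card, Fintype.card_subtype]
  have hGc : ∀ k τ, (G k τ).card =
      Nat.card {A : Matrix (Fin n) (Fin n) F // Dep A τ ∧
        ¬ Dep A (fun j : Fin k => τ j.castSucc)} := by
    intro k τ
    rw [Nat.card_eq_fintype_card, Fintype.card_subtype]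
  have hEc : ∀ j t, (E j t).card =
      Nat.card {A : Matrix (Fin n) (Fin n) F // Der A ((finRotate n) ^ j.1) t} := by
    intro j t
    rw [Nat.card_eq_fintype_card, Fintype.card_subtype]
  set P : (p : ℕ) → Finset (Fin p → AlgebraicClosure F) := fun p =>
    Fintype.piFinset (fun _ : Fin p => Θ) with hP
  set N : ℝ := (q : ℝ) ^ (n * n) with hN
  have hN0 : 0 < N := by
    rw [hN]
    have : (0 : ℝ) < q := by exact_mod_cast (by omega : 0 < q)
    positivity
  have hqr : (2 : ℝ) ≤ q := by exact_mod_cast hq2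
  have hq3 : (8 : ℝ) ≤ (q : ℝ) ^ 3 := by
    calc (8 : ℝ) = 2 ^ 3 := by norm_num
      _ ≤ _ := pow_le_pow_left₀ (by norm_num) hqr 3
  have hq30 : (0 : ℝ) < (q : ℝ) ^ 3 := by linarith
  set x : ℝ := 1 / (q : ℝ) ^ 3 with hx
  have hx0 : 0 < x := by rw [hx]; positivity
  have hx8 : x ≤ 1 / 8 := by
    rw [hx]
    exact one_div_le_one_div_of_le (by norm_num) hq3
  -- the bound for one type
  have hone : ∀ (p : ℕ) (τ : Fin p → AlgebraicClosure F),
      ((D p τ).card : ℝ) ≤ N * ∏ j, (1 / (gl2 (q ^ dg (τ j)) : ℝ)) := by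
    intro p τ
    have h4 := hBADI F n p τ
    rw [← hDc] at h4
    have h5 : ((D p τ).card : ℝ) * ∏ j, (gl2 (q ^ dg (τ j)) : ℝ) ≤ N := by
      rw [hN]
      exact_mod_cast h4
    have h6 : (0 : ℝ) < ∏ j, (gl2 (q ^ dg (τ j)) : ℝ) :=
      Finset.prod_pos fun j _ => hgpos (τ j)
    have h7 : ∏ j, (1 / (gl2 (q ^ dg (τ j)) : ℝ)) = 1 / ∏ j, (gl2 (q ^ dg (τ j)) : ℝ) := by
      rw [Finset.prod_div_distrib, Finset.prod_const_one]
    rw [h7, mul_one_div, le_div_iff₀ h6]
    exact h5
  -- the covering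
  set P1 : Finset (Fin m → AlgebraicClosure F) := (P m).filter fun τ => ∑ j, dg (τ j) ≤ 2 * m with hP1
  set P2 : (p : ℕ) → Finset (Fin p → AlgebraicClosure F) := fun p =>
    (P p).filter fun τ => 2 * m < ∑ j, dg (τ j) ∧ ∑ j, dg (τ j) ≤ 3 * m with hP2
  set P3 : (p : ℕ) → Finset (Fin p → AlgebraicClosure F) := fun p =>
    (P p).filter fun τ => ∑ j, dg (τ j) ≤ 3 * m with hP3
  have hsub : B ⊆ ((P1.biUnion (D m) ∪ (Finset.Ico 1 (m + 1)).biUnion
      (fun p => (P2 p).biUnion (D p))) ∪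
      (Finset.univ : Finset (Fin m)).biUnion (fun j => Θ'.biUnion (E j))) ∪
      (Finset.range m).biUnion (fun k => (P3 (k + 1)).biUnion (G k)) := by
    intro A hA
    rw [hB, Finset.mem_filter] at hA
    have hex : ∀ j : Fin m, ∃ t : AlgebraicClosure F, t ≠ 0 ∧ Der A ((finRotate n) ^ j.1) t :=
      fun j => hEIG F n A ((finRotate n) ^ j.1) hA.2.1 (hA.2.2 j.1 j.2)
    choose t ht0 htD using hex
    by_cases hall : ∀ j, dg (t j) ≤ m
    · have hmem : ∀ j, t j ∈ Θ := by
        intro j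
        rw [hΘ, Finset.mem_filter, Set.Finite.mem_toFinset]
        exact ⟨hall j, ht0 j⟩
      -- a dependent prefix
      have hdep : ∀ (p : ℕ) (hp : p ≤ m), ∑ j : Fin p, dg (t (Fin.castLE hp j)) ≤ 3 * m →
          Dep A (fun j : Fin p => t (Fin.castLE hp j)) →
          A ∈ (Finset.range m).biUnion (fun k => (P3 (k + 1)).biUnion (G k)) := by
        intro p hp hs hd
        obtain ⟨k, hk, h1, h2⟩ := FINL_first A _ hd
        rw [Finset.mem_biUnion]
        refine ⟨k, by rw [Finset.mem_range]; omega, ?_⟩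
        rw [Finset.mem_biUnion]
        refine ⟨fun j => t (Fin.castLE hp (Fin.castLE hk j)), ?_, ?_⟩
        · rw [hP3, Finset.mem_filter]
          constructor
          · rw [hP, Fintype.mem_piFinset]
            exact fun j => hmem _
          · refine le_trans ?_ hs
            have h3 : ∑ j : Fin (k + 1), dg (t (Fin.castLE hp (Fin.castLE hk j))) =
                ∑ j ∈ (Finset.univ : Finset (Fin (k + 1))).map (Fin.castLEEmb hk),
                  dg (t (Fin.castLE hp j)) := by
              rw [Finset.sum_map]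
              rfl
            rw [h3]
            exact Finset.sum_le_sum_of_subset (Finset.subset_univ _)
        · rw [hG]
          simp only [Finset.mem_filter, Finset.mem_univ, true_and]
          exact ⟨h1, h2⟩
      by_cases hsum : ∑ j, dg (t j) ≤ 2 * m
      · by_cases hd : Dep A t
        · rw [Finset.mem_union]
          right
          exact hdep m le_rfl (by
            have : ∑ j : Fin m, dg (t (Fin.castLE le_rfl j)) = ∑ j, dg (t j) := rfl
            rw [this]
            omega) hd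
        · rw [Finset.mem_union]
          left
          rw [Finset.mem_union]
          left
          rw [Finset.mem_union]
          left
          rw [Finset.mem_biUnion]
          refine ⟨t, ?_, ?_⟩
          · rw [hP1, Finset.mem_filter]
            refine ⟨?_, hsum⟩
            rw [hP, Fintype.mem_piFinset]
            exact hmem
          · rw [hD]
            simp only [Finset.mem_filter, Finset.mem_univ, true_and]
            exact ⟨htD, hd⟩
      · push Not at hsum
        obtain ⟨p, hp, h1, h2⟩ := FINQ_prefix (fun j => dg (t j)) hall hsum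
        have hp1 : 1 ≤ p := by
          rcases Nat.eq_zero_or_pos p with h0 | h0
          · subst h0
            simp at h1
          · exact h0
        by_cases hd : Dep A (fun j : Fin p => t (Fin.castLE hp j))
        · rw [Finset.mem_union]
          right
          exact hdep p hp h2 hd
        · rw [Finset.mem_union]
          left
          rw [Finset.mem_union]
          left
          rw [Finset.mem_union]
          right
          rw [Finset.mem_biUnion]
          refine ⟨p, by rw [Finset.mem_Ico]; omega, ?_⟩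
          rw [Finset.mem_biUnion]
          refine ⟨fun j => t (Fin.castLE hp j), ?_, ?_⟩
          · rw [hP2, Finset.mem_filter]
            refine ⟨?_, h1, h2⟩
            rw [hP, Fintype.mem_piFinset]
            exact fun j => hmem _
          · rw [hD]
            simp only [Finset.mem_filter, Finset.mem_univ, true_and]
            exact ⟨fun j => htD (Fin.castLE hp j), hd⟩
    · rw [Finset.mem_union]
      left
      rw [Finset.mem_union]
      right
      push Not at hall
      obtain ⟨j, hj⟩ := hall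
      rw [Finset.mem_biUnion]
      refine ⟨j, Finset.mem_univ _, ?_⟩
      rw [Finset.mem_biUnion]
      refine ⟨t j, ?_, ?_⟩
      · rw [hΘ', Finset.mem_filter, Set.Finite.mem_toFinset]
        exact ⟨(hDEG F n).2 A ((finRotate n) ^ j.1) (t j) (htD j), hj⟩
      · rw [hE]
        simp only [Finset.mem_filter, Finset.mem_univ, true_and]
        exact htD j
  have hcard : (B.card : ℝ) ≤ ((∑ τ ∈ P1, ((D m τ).card : ℝ) +
      ∑ p ∈ Finset.Ico 1 (m + 1), ∑ τ ∈ P2 p, ((D p τ).card : ℝ)) +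
      ∑ j : Fin m, ∑ t ∈ Θ', ((E j t).card : ℝ)) +
      ∑ k ∈ Finset.range m, ∑ τ ∈ P3 (k + 1), ((G k τ).card : ℝ) := by
    have h1 := (Finset.card_le_card hsub).trans ((Finset.card_union_le _ _).trans
      (Nat.add_le_add_right ((Finset.card_union_le _ _).trans
      (Nat.add_le_add_right (Finset.card_union_le _ _) _)) _))
    have h2 : (P1.biUnion (D m)).card ≤ ∑ τ ∈ P1, (D m τ).card := Finset.card_biUnion_le
    have h2' : ((Finset.Ico 1 (m + 1)).biUnion (fun p => (P2 p).biUnion (D p))).card ≤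
        ∑ p ∈ Finset.Ico 1 (m + 1), ∑ τ ∈ P2 p, (D p τ).card :=
      Finset.card_biUnion_le.trans (Finset.sum_le_sum fun j _ => Finset.card_biUnion_le)
    have h3 : ((Finset.univ : Finset (Fin m)).biUnion (fun j => Θ'.biUnion (E j))).card ≤
        ∑ j : Fin m, ∑ t ∈ Θ', (E j t).card :=
      Finset.card_biUnion_le.trans (Finset.sum_le_sum fun j _ => Finset.card_biUnion_le)
    have h3' : ((Finset.range m).biUnion (fun k => (P3 (k + 1)).biUnion (G k))).card ≤
        ∑ k ∈ Finset.range m, ∑ τ ∈ P3 (k + 1), (G k τ).card :=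
      Finset.card_biUnion_le.trans (Finset.sum_le_sum fun j _ => Finset.card_biUnion_le)
    have h4 : B.card ≤ ((∑ τ ∈ P1, (D m τ).card +
      ∑ p ∈ Finset.Ico 1 (m + 1), ∑ τ ∈ P2 p, (D p τ).card) +
      ∑ j : Fin m, ∑ t ∈ Θ', (E j t).card) +
      ∑ k ∈ Finset.range m, ∑ τ ∈ P3 (k + 1), (G k τ).card := by omega
    exact_mod_cast h4
  -- the main part
  have hmain : ∑ τ ∈ P1, ((D m τ).card : ℝ) ≤ N * (4 * x) ^ m := by
    have h1 : ∀ τ ∈ P1, ((D m τ).card : ℝ) ≤ N * ∏ j, (1 / (gl2 (q ^ dg (τ j)) : ℝ)) :=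
      fun τ _ => hone m τ
    refine (Finset.sum_le_sum h1).trans ?_
    rw [← Finset.mul_sum]
    apply mul_le_mul_of_nonneg_left _ (by positivity)
    have h8 := Finset.prod_univ_sum (fun _ : Fin m => Θ)
      (fun (_ : Fin m) (t : AlgebraicClosure F) => (1 / (gl2 (q ^ dg t) : ℝ)))
    have h9 : ∑ τ ∈ P1, ∏ j, (1 / (gl2 (q ^ dg (τ j)) : ℝ)) ≤
        ∑ τ ∈ P m, ∏ j, (1 / (gl2 (q ^ dg (τ j)) : ℝ)) := by
      apply Finset.sum_le_sum_of_subset_of_nonneg (Finset.filter_subset _ _)
      intro τ _ _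
      exact Finset.prod_nonneg fun j _ => (one_div_pos.2 (hgpos _)).le
    refine h9.trans ?_
    rw [hP, ← h8, Finset.prod_const, Finset.card_univ, Fintype.card_fin]
    apply pow_le_pow_left₀
    · exact Finset.sum_nonneg fun t _ => (one_div_pos.2 (hgpos t)).le
    · have h9 := hSUMA F 0 Θ (fun t _ => FIN_dg_pos t)
      rw [pow_zero, mul_one] at h9
      refine h9.trans (le_of_eq ?_)
      rw [hx]
      ring
  -- the types of large total degree
  have hmid : ∑ p ∈ Finset.Ico 1 (m + 1), ∑ τ ∈ P2 p, ((D p τ).card : ℝ) ≤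
      m * (N * ((4 * x ^ 2) ^ m * (8 / 3) ^ m)) := by
    have h0 : ∀ p ∈ Finset.Ico 1 (m + 1), ∑ τ ∈ P2 p, ((D p τ).card : ℝ) ≤
        N * ((4 * x ^ 2) ^ m * (8 / 3) ^ m) := by
      intro p hp
      rw [Finset.mem_Ico] at hp
      have h1 : ∀ τ ∈ P2 p, ((D p τ).card : ℝ) ≤
          N * ((4 * x ^ 2) ^ m *
            ∏ j, (((q : ℝ) ^ 3 / 2) ^ dg (τ j) / (gl2 (q ^ dg (τ j)) : ℝ))) := by
        intro τ hτ
        rw [hP2, Finset.mem_filter] at hτ
        refine (hone p τ).trans ?_
        apply mul_le_mul_of_nonneg_left _ (by positivity)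
        rw [Finset.prod_div_distrib, Finset.prod_div_distrib, Finset.prod_const_one,
          Finset.prod_pow_eq_pow_sum, ← mul_div_assoc]
        apply div_le_div_of_nonneg_right _ (Finset.prod_nonneg fun j _ => (hgpos _).le)
        have h10 : ((q : ℝ) ^ 3 / 2) ^ (2 * m) ≤ ((q : ℝ) ^ 3 / 2) ^ (∑ j, dg (τ j)) :=
          pow_le_pow_right₀ (by linarith) hτ.2.1.le
        have h11 : (4 * x ^ 2) ^ m * ((q : ℝ) ^ 3 / 2) ^ (2 * m) = 1 := by
          rw [pow_mul, ← mul_pow]
          have h12 : 4 * x ^ 2 * ((q : ℝ) ^ 3 / 2) ^ 2 = 1 := by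
            rw [hx]
            field_simp
            norm_num
          rw [h12, one_pow]
        calc (1 : ℝ) = (4 * x ^ 2) ^ m * ((q : ℝ) ^ 3 / 2) ^ (2 * m) := h11.symm
          _ ≤ _ := mul_le_mul_of_nonneg_left h10 (by positivity)
      refine (Finset.sum_le_sum h1).trans ?_
      rw [← Finset.mul_sum]
      apply mul_le_mul_of_nonneg_left _ (by positivity)
      rw [← Finset.mul_sum]
      apply mul_le_mul_of_nonneg_left _ (by positivity)
      have h8 := Finset.prod_univ_sum (fun _ : Fin p => Θ)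
        (fun (_ : Fin p) (t : AlgebraicClosure F) =>
          (((q : ℝ) ^ 3 / 2) ^ dg t / (gl2 (q ^ dg t) : ℝ)))
      have h9 : ∑ τ ∈ P2 p, ∏ j, (((q : ℝ) ^ 3 / 2) ^ dg (τ j) / (gl2 (q ^ dg (τ j)) : ℝ)) ≤
          ∑ τ ∈ P p, ∏ j, (((q : ℝ) ^ 3 / 2) ^ dg (τ j) / (gl2 (q ^ dg (τ j)) : ℝ)) := by
        apply Finset.sum_le_sum_of_subset_of_nonneg (Finset.filter_subset _ _)
        intro τ _ _
        exact Finset.prod_nonneg fun j _ => (div_pos (by positivity) (hgpos _)).le
      refine h9.trans ?_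
      rw [hP, ← h8, Finset.prod_const, Finset.card_univ, Fintype.card_fin]
      calc _ ≤ (8 / 3 : ℝ) ^ p := pow_le_pow_left₀
            (Finset.sum_nonneg fun t _ => (div_pos (by positivity) (hgpos _)).le) (hSUMB F Θ) p
        _ ≤ _ := pow_le_pow_right₀ (by norm_num) (by omega)
    refine (Finset.sum_le_sum h0).trans ?_
    rw [Finset.sum_const, Nat.card_Ico, nsmul_eq_mul, Nat.add_sub_cancel]
  have htail : ∑ j : Fin m, ∑ t ∈ Θ', ((E j t).card : ℝ) ≤ m * (N * (4 * x * x ^ m)) := by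
    have h1 : ∀ j : Fin m, ∑ t ∈ Θ', ((E j t).card : ℝ) ≤ N * (4 * x * x ^ m) := by
      intro j
      have h2 : ∀ t ∈ Θ', ((E j t).card : ℝ) ≤ N * (1 / (gl2 (q ^ dg t) : ℝ)) := by
        intro t _
        have h4 := hBAD1 F n t ((finRotate n) ^ j.1)
        rw [← hEc] at h4
        have h5 : ((E j t).card : ℝ) * (gl2 (q ^ dg t) : ℝ) ≤ N := by
          rw [hN]
          exact_mod_cast h4
        rw [mul_one_div, le_div_iff₀ (hgpos t)]
        exact h5
      refine (Finset.sum_le_sum h2).trans ?_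
      rw [← Finset.mul_sum]
      apply mul_le_mul_of_nonneg_left _ hN0.le
      have h6 := hSUMA F m Θ' (by
        intro t ht
        rw [hΘ', Finset.mem_filter] at ht
        exact ht.2)
      refine h6.trans (le_of_eq ?_)
      rw [hx]
      ring
    refine (Finset.sum_le_sum fun j _ => h1 j).trans ?_
    rw [Finset.sum_const, Finset.card_univ, Fintype.card_fin, nsmul_eq_mul]
  have hm4 : (m : ℝ) ≤ 4 ^ m / 4 := by
    obtain ⟨p, rfl⟩ : ∃ p, m = p + 1 := ⟨m - 1, by omega⟩
    have : p + 1 ≤ 4 ^ p := Nat.lt_pow_self (by norm_num)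
    have h2 : ((p + 1 : ℕ) : ℝ) ≤ (4 : ℝ) ^ p := by exact_mod_cast this
    rw [pow_succ]
    linarith
  have hm3 : (m : ℝ) ≤ 3 ^ m / 3 := by
    obtain ⟨p, rfl⟩ : ∃ p, m = p + 1 := ⟨m - 1, by omega⟩
    have : p + 1 ≤ 3 ^ p := Nat.lt_pow_self (by norm_num)
    have h2 : ((p + 1 : ℕ) : ℝ) ≤ (3 : ℝ) ^ p := by exact_mod_cast this
    rw [pow_succ]
    linarith
  have hGL' : N ≤ 4 * (Nat.card {A : Matrix (Fin n) (Fin n) F // A.det ≠ 0} : ℝ) := by
    rw [hN]
    exact_mod_cast hGL
  -- the dependent configurations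
  have hdepc : ∑ k ∈ Finset.range m, ∑ τ ∈ P3 (k + 1), ((G k τ).card : ℝ) ≤
      m * (2 * N * x ^ m) := by
    have hcardP : ∀ p : ℕ, ((P3 p).card : ℝ) ≤ (q : ℝ) ^ (6 * m) := by
      intro p
      have h1 : ∀ τ ∈ P3 p, (1 : ℝ) ≤ (q : ℝ) ^ (6 * m) * ∏ j, (1 / (q : ℝ) ^ 2) ^ dg (τ j) := by
        intro τ hτ
        rw [hP3, Finset.mem_filter] at hτ
        rw [Finset.prod_pow_eq_pow_sum]
        have h2 : (1 / (q : ℝ) ^ 2) ^ (3 * m) ≤ (1 / (q : ℝ) ^ 2) ^ (∑ j, dg (τ j)) := by
          apply pow_le_pow_of_le_one (by positivity) _ hτ.2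
          rw [div_le_one (by positivity)]
          exact one_le_pow₀ (by linarith)
        have h3 : (q : ℝ) ^ (6 * m) * (1 / (q : ℝ) ^ 2) ^ (3 * m) = 1 := by
          rw [one_div, inv_pow, ← pow_mul]
          have h4 : 2 * (3 * m) = 6 * m := by ring
          rw [h4]
          exact mul_inv_cancel₀ (by positivity)
        calc (1 : ℝ) = (q : ℝ) ^ (6 * m) * (1 / (q : ℝ) ^ 2) ^ (3 * m) := h3.symm
          _ ≤ _ := mul_le_mul_of_nonneg_left h2 (by positivity)
      have h5 : ((P3 p).card : ℝ) = ∑ τ ∈ P3 p, (1 : ℝ) := by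
        rw [Finset.sum_const, nsmul_eq_mul, mul_one]
      rw [h5]
      refine (Finset.sum_le_sum h1).trans ?_
      rw [← Finset.mul_sum]
      apply mul_le_of_le_one_right (by positivity)
      have h8 := Finset.prod_univ_sum (fun _ : Fin p => Θ)
        (fun (_ : Fin p) (t : AlgebraicClosure F) => (1 / (q : ℝ) ^ 2) ^ dg t)
      have h9 : ∑ τ ∈ P3 p, ∏ j, (1 / (q : ℝ) ^ 2) ^ dg (τ j) ≤
          ∑ τ ∈ P p, ∏ j, (1 / (q : ℝ) ^ 2) ^ dg (τ j) := by
        apply Finset.sum_le_sum_of_subset_of_nonneg (Finset.filter_subset _ _)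
        intro τ _ _
        exact Finset.prod_nonneg fun j _ => by positivity
      refine h9.trans ?_
      rw [hP, ← h8, Finset.prod_const, Finset.card_univ, Fintype.card_fin]
      apply pow_le_one₀
      · exact Finset.sum_nonneg fun t _ => by positivity
      · exact hSUMC F Θ
    have hGb : ∀ k ∈ Finset.range m, ∀ τ ∈ P3 (k + 1), ((G k τ).card : ℝ) ≤
        2 * N * ((q : ℝ) ^ (7 * m) / (q : ℝ) ^ n) := by
      intro k hk τ hτ
      rw [Finset.mem_range] at hk
      rw [hP3, Finset.mem_filter, hP, Fintype.mem_piFinset] at hτ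
      have hτ0 : ∀ j, τ j ≠ 0 := by
        intro j
        have := hτ.1 j
        rw [hΘ, Finset.mem_filter] at this
        exact this.2
      have hs : ∑ j, 2 * dg (τ j) ≤ 6 * m := by
        rw [← Finset.mul_sum]
        have := hτ.2
        omega
      have h4 := hBADD F n k τ hτ0 (by omega)
      rw [← hGc] at h4
      have h5 : ((G k τ).card : ℝ) * (q : ℝ) ^ n ≤
          2 * (q : ℝ) ^ (n * n + k + ∑ j, 2 * dg (τ j)) := by
        exact_mod_cast h4
      rw [← mul_div_assoc, le_div_iff₀ (by positivity)]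
      refine h5.trans ?_
      have h6 : (q : ℝ) ^ (n * n + k + ∑ j, 2 * dg (τ j)) ≤ (q : ℝ) ^ (n * n + 7 * m) :=
        pow_le_pow_right₀ (by linarith) (by omega)
      rw [pow_add _ (n * n) (7 * m)] at h6
      rw [hN]
      linarith
    calc ∑ k ∈ Finset.range m, ∑ τ ∈ P3 (k + 1), ((G k τ).card : ℝ)
        ≤ ∑ k ∈ Finset.range m, ∑ τ ∈ P3 (k + 1), 2 * N * ((q : ℝ) ^ (7 * m) / (q : ℝ) ^ n) :=
          Finset.sum_le_sum fun k hk => Finset.sum_le_sum (hGb k hk)
      _ = ∑ k ∈ Finset.range m, ((P3 (k + 1)).card : ℝ) *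
            (2 * N * ((q : ℝ) ^ (7 * m) / (q : ℝ) ^ n)) := by
          apply Finset.sum_congr rfl
          intro k _
          rw [Finset.sum_const, nsmul_eq_mul]
      _ ≤ ∑ k ∈ Finset.range m, (q : ℝ) ^ (6 * m) *
            (2 * N * ((q : ℝ) ^ (7 * m) / (q : ℝ) ^ n)) := by
          apply Finset.sum_le_sum
          intro k _
          exact mul_le_mul_of_nonneg_right (hcardP _) (by positivity)
      _ = m * (2 * N * ((q : ℝ) ^ (6 * m) * (q : ℝ) ^ (7 * m) / (q : ℝ) ^ n)) := by
          rw [Finset.sum_const, Finset.card_range, nsmul_eq_mul]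
          ring
      _ ≤ m * (2 * N * x ^ m) := by
          apply mul_le_mul_of_nonneg_left _ (by positivity)
          apply mul_le_mul_of_nonneg_left _ (by positivity)
          rw [hx, one_div, inv_pow, ← pow_mul, ← pow_add, div_le_iff₀ (by positivity),
            inv_mul_eq_div, le_div_iff₀ (by positivity), ← pow_add]
          exact pow_le_pow_right₀ (by linarith) (by omega)
  have hdep2 : (m : ℝ) * (2 * N * x ^ m) ≤ 1 / 2 * N * (4 * x) ^ m := by
    have h3 : (4 : ℝ) ^ m * (1 / 4) ^ m = 1 := by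
      rw [← mul_pow]; norm_num
    have h4 : x ^ m = (4 * x) ^ m * (1 / 4) ^ m := by
      rw [← mul_pow]; congr 1; ring
    calc (m : ℝ) * (2 * N * x ^ m) = (m * (1 / 4) ^ m) * (2 * N * (4 * x) ^ m) := by
          rw [h4]; ring
      _ ≤ (1 / 4) * (2 * N * (4 * x) ^ m) := by
          apply mul_le_mul_of_nonneg_right _ (by positivity)
          calc (m : ℝ) * (1 / 4) ^ m ≤ (4 ^ m / 4) * (1 / 4) ^ m :=
                mul_le_mul_of_nonneg_right hm4 (by positivity)
            _ = ((4 : ℝ) ^ m * (1 / 4) ^ m) / 4 := by ring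
            _ = 1 / 4 := by rw [h3]
      _ = _ := by ring
  -- the middle part
  have hmid2 : (m : ℝ) * (N * ((4 * x ^ 2) ^ m * (8 / 3) ^ m)) ≤ 1 / 3 * N * (4 * x) ^ m := by
    have h1 : (4 * x ^ 2) ^ m * (8 / 3 : ℝ) ^ m ≤ (4 * x) ^ m * (1 / 3) ^ m := by
      rw [← mul_pow, ← mul_pow]
      apply pow_le_pow_left₀ (by positivity)
      nlinarith
    calc (m : ℝ) * (N * ((4 * x ^ 2) ^ m * (8 / 3) ^ m))
        ≤ m * (N * ((4 * x) ^ m * (1 / 3) ^ m)) := by
          apply mul_le_mul_of_nonneg_left _ (by positivity)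
          apply mul_le_mul_of_nonneg_left h1 (by positivity)
      _ = (m * (1 / 3) ^ m) * (N * (4 * x) ^ m) := by ring
      _ ≤ (1 / 3) * (N * (4 * x) ^ m) := by
          apply mul_le_mul_of_nonneg_right _ (by positivity)
          calc (m : ℝ) * (1 / 3) ^ m ≤ (3 ^ m / 3) * (1 / 3) ^ m :=
                mul_le_mul_of_nonneg_right hm3 (by positivity)
            _ = ((3 : ℝ) ^ m * (1 / 3) ^ m) / 3 := by ring
            _ = 1 / 3 := by
              rw [← mul_pow]; norm_num
      _ = _ := by ring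
  have htail2 : (m : ℝ) * (N * (4 * x * x ^ m)) ≤ 1 / 8 * N * (4 * x) ^ m := by
    have h3 : (4 : ℝ) ^ m * (1 / 4) ^ m = 1 := by
      rw [← mul_pow]; norm_num
    have h4 : x ^ m = (4 * x) ^ m * (1 / 4) ^ m := by
      rw [← mul_pow]; congr 1; ring
    calc (m : ℝ) * (N * (4 * x * x ^ m)) = (m * (1 / 4) ^ m) * (4 * x) * (N * (4 * x) ^ m) := by
          rw [h4]; ring
      _ ≤ (1 / 4) * (1 / 2) * (N * (4 * x) ^ m) := by
          apply mul_le_mul_of_nonneg_right _ (by positivity)
          apply mul_le_mul _ (by linarith) (by positivity) (by norm_num)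
          calc (m : ℝ) * (1 / 4) ^ m ≤ (4 ^ m / 4) * (1 / 4) ^ m :=
                mul_le_mul_of_nonneg_right hm4 (by positivity)
            _ = ((4 : ℝ) ^ m * (1 / 4) ^ m) / 4 := by ring
            _ = 1 / 4 := by rw [h3]
      _ = _ := by ring
  have hfin : (q : ℝ) ^ (3 * m) * B.card ≤
      8 * 4 ^ m * (Nat.card {A : Matrix (Fin n) (Fin n) F // A.det ≠ 0} : ℝ) := by
    have h1 : (B.card : ℝ) ≤ 47 / 24 * N * (4 * x) ^ m := by
      refine hcard.trans ((add_le_add (add_le_add (add_le_add hmain (hmid.trans hmid2))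
        (htail.trans htail2)) (hdepc.trans hdep2)).trans (le_of_eq ?_))
      ring
    have h2 : (q : ℝ) ^ (3 * m) * (4 * x) ^ m = 4 ^ m := by
      rw [pow_mul, ← mul_pow]
      congr 1
      rw [hx]
      field_simp
    calc (q : ℝ) ^ (3 * m) * B.card ≤ (q : ℝ) ^ (3 * m) * (47 / 24 * N * (4 * x) ^ m) :=
          mul_le_mul_of_nonneg_left h1 (by positivity)
      _ = 47 / 24 * N * ((q : ℝ) ^ (3 * m) * (4 * x) ^ m) := by ring
      _ = 47 / 24 * N * 4 ^ m := by rw [h2]
      _ ≤ 2 * N * 4 ^ m := by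
          apply mul_le_mul_of_nonneg_right _ (by positivity)
          apply mul_le_mul_of_nonneg_right _ hN0.le
          norm_num
      _ ≤ 2 * (4 * (Nat.card {A : Matrix (Fin n) (Fin n) F // A.det ≠ 0} : ℝ)) * 4 ^ m := by
          apply mul_le_mul_of_nonneg_right _ (by positivity)
          linarith
      _ = _ := by ring
  exact_mod_cast hfin

end Pool.CYA
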