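import Pool.Agent.Work.MP_dd2eb3_aa.Interface

/-! # Block FUL (helper25): independent pairs are full -/

set_option autoImplicit false

namespace Pool.CYA

open Module

theorem FUL_top {F : Type} [Field F] (t : AlgebraicClosure F) :
    Algebra.adjoin F {gt t} = ⊤ := by
  have ht : IsIntegral F t := Algebra.IsIntegral.isIntegral t
  have h := (IntermediateField.adjoin.powerBasis ht).adjoin_gen_eq_top
  rwa [IntermediateField.adjoin.powerBasis_gen] at h

/-- the multipliers of a subspace -/
def FUL_S {F : Type} [Field F] (t : AlgebraicClosure F) (W : Submodule F (Fin 2 → Kt t)) :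
    Subalgebra F (Kt t) where
  carrier := {s | ∀ w ∈ W, (fun a => s * w a) ∈ W}
  mul_mem' := by
    intro x y hx hy w hw
    have h := hx _ (hy w hw)
    have e : (fun a => x * y * w a) = fun a => x * (y * w a) := by
      funext a
      ring
    rw [e]
    exact h
  add_mem' := by
    intro x y hx hy w hw
    have h := W.add_mem (hx w hw) (hy w hw)
    have e : (fun a => (x + y) * w a) = (fun a => x * w a) + fun a => y * w a := by
      funext a
      simp [add_mul]
    rw [e]
    exact h
  algebraMap_mem' := by
    intro r w hw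
    have h := W.smul_mem r hw
    have e : (fun a => algebraMap F (Kt t) r * w a) = r • w := by
      funext a
      rw [Pi.smul_apply, Algebra.smul_def]
    rw [e]
    exact h

theorem FUL_all {F : Type} [Field F] (t : AlgebraicClosure F) (W : Submodule F (Fin 2 → Kt t))
    (h : ∀ w ∈ W, mt t w ∈ W) (s : Kt t) (w : Fin 2 → Kt t) (hw : w ∈ W) :
    (fun a => s * w a) ∈ W := by
  have h1 : Algebra.adjoin F {gt t} ≤ FUL_S t W := by
    rw [Algebra.adjoin_le_iff]
    intro x hx
    rw [Set.mem_singleton_iff] at hx
    subst hx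
    exact fun w hw => h w hw
  have h2 : s ∈ FUL_S t W := h1 (by rw [FUL_top]; exact Algebra.mem_top)
  exact h2 w hw

theorem p_FUL : Stmt_FUL := by
  intro F _ n t v hv W h1 h2
  have h3 := FUL_all t W h2
  let W' : Submodule (Kt t) (Fin 2 → Kt t) :=
    { carrier := {w | w ∈ W}
      add_mem' := fun {x y} hx hy => W.add_mem hx hy
      zero_mem' := W.zero_mem
      smul_mem' := fun s w hw => h3 s w hw }
  have hW' : ∀ w, w ∈ W' ↔ w ∈ W := fun w => Iff.rfl
  by_contra hne
  have hlt : W' < ⊤ := by
    rw [lt_top_iff_ne_top]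
    intro he
    apply hne
    rw [Submodule.eq_top_iff']
    intro w
    rw [← hW', he]
    exact Submodule.mem_top
  obtain ⟨f, hf0, hf⟩ := Submodule.exists_le_ker_of_lt_top W' hlt
  apply hf0
  have hfe : ∀ w : Fin 2 → Kt t, f w = ∑ a, w a * f (Pi.single a 1) := by
    intro w
    rw [LinearMap.pi_apply_eq_sum_univ f w]
    refine Finset.sum_congr rfl fun a _ => ?_
    rw [smul_eq_mul]
    congr 2
    funext b
    rw [Pi.single_apply]
    by_cases hab : a = b
    · simp [hab]
    · rw [if_neg hab, if_neg (Ne.symm hab)]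
  have hsum : ∑ a, f (Pi.single a 1) • v a = 0 := by
    funext i
    have h4 : (fun a => v a i) ∈ W' := (hW' _).mpr (h1 i)
    have h5 := hf h4
    rw [LinearMap.mem_ker, hfe] at h5
    rw [Finset.sum_apply, Pi.zero_apply, ← h5]
    refine Finset.sum_congr rfl fun a _ => ?_
    rw [Pi.smul_apply, smul_eq_mul, mul_comm]
  rw [Fintype.linearIndependent_iff] at hv
  have h6 := hv (fun a => f (Pi.single a 1)) hsum
  refine LinearMap.ext fun w => ?_
  rw [hfe w, LinearMap.zero_apply]
  exact Finset.sum_eq_zero fun a _ => by rw [h6 a, mul_zero]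

end Pool.CYA
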