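import Pool.Agent.Work.MP_dd2eb3_aa.Interface

/-!
# Block GLC: a quarter of all matrices over a finite field are invertible
-/

set_option autoImplicit false

namespace Pool.CYA

open Finset

lemma GLC_prod (q : ℝ) (hq : 2 ≤ q) (n : ℕ) :
    (1 : ℝ) / 4 + (1 / 2) ^ (n + 1 + 1) ≤ ∏ j ∈ range (n + 1), (1 - (1 / q) ^ (j + 1)) := by
  have hq0 : (0 : ℝ) < q := by linarith
  have h1 : 1 / q ≤ 1 / 2 := one_div_le_one_div_of_le (by norm_num) hq
  have h0 : 0 ≤ 1 / q := by positivity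
  induction n with
  | zero =>
    simp
    have : q⁻¹ ≤ 1 / 2 := by rw [← one_div]; exact h1
    norm_num
    linarith
  | succ n ih =>
    rw [Finset.prod_range_succ]
    have h2 : (1 / q) ^ (n + 1 + 1) ≤ (1 / 2) ^ (n + 1 + 1) := pow_le_pow_left₀ h0 h1 _
    have h3 : (0 : ℝ) < (1 / 2) ^ (n + 1 + 1) := by positivity
    have h4 : (1 / 2 : ℝ) ^ (n + 1 + 1) ≤ 1 / 4 := by
      have : (1 / 2 : ℝ) ^ (n + 1 + 1) ≤ (1 / 2) ^ 2 :=
        pow_le_pow_of_le_one (by norm_num) (by norm_num) (by omega)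
      linarith [this, (by norm_num : (1 / 2 : ℝ) ^ 2 = 1 / 4)]
    set t : ℝ := (1 / 2) ^ (n + 1 + 1) with ht
    have h5 : (1 / 2 : ℝ) ^ (n + 1 + 1 + 1) = t / 2 := by
      rw [pow_succ, ht]; ring
    rw [h5]
    have h6 : (1 / 4 + t) * (1 - t) ≤
        (∏ j ∈ range (n + 1), (1 - (1 / q) ^ (j + 1))) * (1 - (1 / q) ^ (n + 1 + 1)) :=
      mul_le_mul ih (by linarith) (by linarith) (by linarith)
    refine le_trans ?_ h6
    nlinarith [h3, h4]

lemma GLC_quarter (q : ℝ) (hq : 2 ≤ q) (n : ℕ) :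
    (1 : ℝ) / 4 ≤ ∏ j ∈ range n, (1 - (1 / q) ^ (j + 1)) := by
  cases n with
  | zero => norm_num
  | succ n =>
    have h := GLC_prod q hq n
    have h3 : (0 : ℝ) < (1 / 2) ^ (n + 1 + 1) := by positivity
    linarith

lemma GLC_eq (q : ℕ) (hq : 2 ≤ q) (n : ℕ) :
    ((∏ i ∈ range n, (q ^ n - q ^ i) : ℕ) : ℝ) =
      (q : ℝ) ^ (n * n) * ∏ j ∈ range n, (1 - (1 / (q : ℝ)) ^ (j + 1)) := by
  have hq0 : (q : ℝ) ≠ 0 := by positivity
  rw [← Finset.prod_range_reflect, Nat.cast_prod]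
  have h1 : (q : ℝ) ^ (n * n) = ∏ _j ∈ range n, (q : ℝ) ^ n := by
    rw [Finset.prod_const, Finset.card_range, pow_mul]
  rw [h1, ← Finset.prod_mul_distrib]
  refine Finset.prod_congr rfl fun j hj => ?_
  have hj' : j < n := Finset.mem_range.1 hj
  rw [Nat.cast_sub (Nat.pow_le_pow_right (by omega) (by omega))]
  push_cast
  have h2 : (q : ℝ) ^ n = (q : ℝ) ^ (n - 1 - j) * (q : ℝ) ^ (j + 1) := by
    rw [← pow_add]; congr 1; omega
  rw [mul_sub, mul_one, h2, mul_assoc, ← mul_pow, mul_one_div_cancel hq0, one_pow, mul_one]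

/-- Block GLC. -/
theorem p_GLC : Stmt_GLC := by
  intro F _ _ n
  classical
  haveI : Fintype F := Fintype.ofFinite F
  set q := Nat.card F with hqdef
  have hq : 2 ≤ q := by
    have : 1 < Nat.card F := Finite.one_lt_card
    omega
  have hcard : Nat.card {A : Matrix (Fin n) (Fin n) F // A.det ≠ 0} =
      ∏ i ∈ range n, (q ^ n - q ^ i) := by
    have h1 : Nat.card {A : Matrix (Fin n) (Fin n) F // A.det ≠ 0} =
        Nat.card (Matrix.GeneralLinearGroup (Fin n) F) := by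
      refine Nat.card_congr ⟨fun A => Matrix.GeneralLinearGroup.mkOfDetNeZero A.1 A.2,
        fun g => ⟨g.1, ?_⟩, fun A => ?_, fun g => ?_⟩
      · have := (Matrix.isUnit_iff_isUnit_det _).1 g.isUnit
        exact this.ne_zero
      · rfl
      · ext
        rfl
    rw [h1, Matrix.card_GL_field, ← Fin.prod_univ_eq_prod_range (fun i => q ^ n - q ^ i) n]
    rw [hqdef, Nat.card_eq_fintype_card]
  rw [hcard]
  have h2 : ((q ^ (n * n) : ℕ) : ℝ) ≤ ((4 * ∏ i ∈ range n, (q ^ n - q ^ i) : ℕ) : ℝ) := by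
    rw [Nat.cast_mul, GLC_eq q hq n]
    have h3 := GLC_quarter (q : ℝ) (by exact_mod_cast hq) n
    have h4 : (0 : ℝ) < (q : ℝ) ^ (n * n) := by positivity
    push_cast
    nlinarith
  exact_mod_cast h2

end Pool.CYA
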