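import Pool.Agent.Work.MP_dd2eb3_aa.Interface

/-! # Block HYP (helper40): families spanning a given proper subspace -/

set_option autoImplicit false

namespace Pool.CYA

open Module

theorem HYP_sum {F : Type} [Field F] {k : ℕ} {V : Fin k → Type} [∀ j, AddCommGroup (V j)]
    [∀ j, Module F (V j)] (κ : (∀ j, V j) →ₗ[F] F) (w : ∀ j, V j) :
    κ w = ∑ j, (κ ∘ₗ LinearMap.single F V j) (w j) := by
  classical
  have h : w = ∑ j, LinearMap.single F V j (w j) := by
    simp only [LinearMap.coe_single]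
    exact (Finset.univ_sum_single w).symm
  conv_lhs => rw [h]
  rw [map_sum]
  rfl

theorem p_HYP : Stmt_HYP := by
  classical
  intro F _ _ n k V _ _ _ T σ hT hσ hkn W hW
  have := Fintype.ofFinite F
  by_cases hemp : IsEmpty {x : Fin n → ∀ j, V j // Submodule.span F (Set.range x) = W ∧ Full T x ∧
      ∀ c, (fun j => T j (x (σ j c) j)) ∈ W}
  · rw [Nat.card_of_isEmpty, zero_mul]
    exact Nat.zero_le _
  rw [not_isEmpty_iff] at hemp
  obtain ⟨⟨x0, hx0s, hx0f, hx0w⟩⟩ := hemp
  obtain ⟨κ, hκ0, hκW⟩ := Submodule.exists_le_ker_of_lt_top W (lt_top_iff_ne_top.2 hW)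
  set κj : ∀ j, V j →ₗ[F] F := fun j => κ ∘ₗ LinearMap.single F V j with hκj
  -- the largest index
  have hne : (Finset.univ.filter (fun j => κj j ≠ 0)).Nonempty := by
    by_contra hc
    rw [Finset.not_nonempty_iff_eq_empty, Finset.filter_eq_empty_iff] at hc
    apply hκ0
    refine LinearMap.ext fun w => ?_
    rw [HYP_sum κ]
    refine Finset.sum_eq_zero fun j _ => ?_
    have h1 : κj j = 0 := by
      have := hc (Finset.mem_univ j)
      push Not at this
      exact this
    have h2 : (κ ∘ₗ LinearMap.single F V j) = 0 := h1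
    rw [h2, LinearMap.zero_apply]
  set J := (Finset.univ.filter (fun j => κj j ≠ 0)).max' hne with hJ
  have hJ1 : κj J ≠ 0 := (Finset.mem_filter.1 (Finset.max'_mem _ hne)).2
  have hJ2 : ∀ j, J < j → κj j = 0 := by
    intro j hj
    by_contra hc
    have := Finset.le_max' (Finset.univ.filter (fun j => κj j ≠ 0)) j
      (Finset.mem_filter.2 ⟨Finset.mem_univ j, hc⟩)
    exact absurd hj (not_lt.2 this)
  have hJk : J.1 + 1 ≤ k := J.2
  -- (1) the projection is everything
  have hproj : W.map (LinearMap.proj (R := F) (φ := V) J) = ⊤ := by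
    refine hx0f J _ (fun i => ?_) ?_
    · refine ⟨x0 i, ?_, rfl⟩
      rw [SetLike.mem_coe, ← hx0s]
      exact Submodule.subset_span ⟨i, rfl⟩
    · have hle : W ≤ (W.map (LinearMap.proj (R := F) (φ := V) J)).comap
          (T J ∘ₗ LinearMap.proj (R := F) (φ := V) J) := by
        conv_lhs => rw [← hx0s]
        rw [Submodule.span_le]
        rintro _ ⟨i, rfl⟩
        rw [SetLike.mem_coe, Submodule.mem_comap]
        refine ⟨_, hx0w ((σ J).symm i), ?_⟩
        simp
      rintro _ ⟨w, hw, rfl⟩
      exact hle hw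
  -- (2) a vector
  obtain ⟨w0, hw0, hlam⟩ : ∃ w0 ∈ W, κj J (T J (w0 J)) = 1 := by
    obtain ⟨v, hv⟩ : ∃ v, κj J v ≠ 0 := by
      by_contra hc
      push Not at hc
      exact hJ1 (LinearMap.ext hc)
    obtain ⟨u, hu⟩ := (Finite.injective_iff_surjective.1 (hT J)) v
    have hu2 : u ∈ W.map (LinearMap.proj (R := F) (φ := V) J) := by
      rw [hproj]
      exact Submodule.mem_top
    obtain ⟨w, hw, hwu⟩ := hu2
    have hwu' : w J = u := hwu
    refine ⟨(κj J v)⁻¹ • w, W.smul_mem _ hw, ?_⟩
    rw [Pi.smul_apply, hwu', map_smul, hu, map_smul, smul_eq_mul, inv_mul_cancel₀ hv]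
  -- (3) determination
  have hdet : ∀ x x' : Fin n → ∀ j, V j, (∀ c, (fun j => T j (x (σ j c) j)) ∈ W) →
      (∀ c, (fun j => T j (x' (σ j c) j)) ∈ W) → ∀ m : Fin n, J.1 ≤ m.1 →
      (∀ i : Fin n, i < m → x i = x' i) → κj J (T J (x m J)) = κj J (T J (x' m J)) := by
    intro x x' hx hx' m hm hi
    set c : Fin n := ⟨m.1 - J.1, by omega⟩ with hc
    have e1 : ∑ j, κj j (T j (x (σ j c) j)) = 0 := by
      have := LinearMap.mem_ker.1 (hκW (hx c))
      rw [HYP_sum κ] at this
      exact this
    have e2 : ∑ j, κj j (T j (x' (σ j c) j)) = 0 := by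
      have := LinearMap.mem_ker.1 (hκW (hx' c))
      rw [HYP_sum κ] at this
      exact this
    have e3 : ∑ j, (κj j (T j (x (σ j c) j)) - κj j (T j (x' (σ j c) j))) = 0 := by
      rw [Finset.sum_sub_distrib, e1, e2, sub_zero]
    have hσJ : σ J c = m := by
      apply Fin.ext
      rw [hσ J c (by rw [hc]; dsimp only; omega), hc]
      dsimp only
      omega
    rw [Finset.sum_eq_single J] at e3
    · rw [hσJ] at e3
      exact sub_eq_zero.1 e3
    · intro j _ hj
      rcases lt_or_gt_of_ne hj with h1 | h1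
      · have h2 : j.1 < J.1 := h1
        have h3 : (σ j c).1 = c.1 + j.1 := hσ j c (by rw [hc]; dsimp only; omega)
        have h4 : σ j c < m := by
          show (σ j c).1 < m.1
          rw [h3, hc]
          dsimp only
          omega
        rw [hi _ h4, sub_self]
      · rw [hJ2 j h1]
        simp
    · intro h
      exact absurd (Finset.mem_univ J) h
  -- the injection
  have hmem : ∀ x : Fin n → ∀ j, V j, Submodule.span F (Set.range x) = W → ∀ m, x m ∈ W := by
    intro x hx m
    rw [← hx]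
    exact Submodule.subset_span ⟨m, rfl⟩
  have hinj : Function.Injective (fun p : {x : Fin n → ∀ j, V j //
      Submodule.span F (Set.range x) = W ∧ Full T x ∧ ∀ c, (fun j => T j (x (σ j c) j)) ∈ W} ×
      (Fin (n - J.1) → F) => (fun m : Fin n => if h : J.1 ≤ m.1 then
        (⟨p.1.1 m, hmem p.1.1 p.1.2.1 m⟩ + p.2 ⟨m.1 - J.1, by omega⟩ • ⟨w0, hw0⟩ : W)
        else ⟨p.1.1 m, hmem p.1.1 p.1.2.1 m⟩)) := by
    rintro ⟨⟨x, hx1, hx2, hx3⟩, a⟩ ⟨⟨x', hx'1, hx'2, hx'3⟩, a'⟩ h
    have hkey : ∀ m : Fin n, (∀ i : Fin n, i < m → x i = x' i) → x m = x' m ∧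
        ∀ h : J.1 ≤ m.1, a ⟨m.1 - J.1, by omega⟩ = a' ⟨m.1 - J.1, by omega⟩ := by
      intro m hi
      have hm := congrFun h m
      dsimp only at hm
      by_cases hJm : J.1 ≤ m.1
      · rw [dif_pos hJm, dif_pos hJm] at hm
        have hm2 := congrArg Subtype.val hm
        have hm3 : x m + a ⟨m.1 - J.1, by omega⟩ • w0 =
            x' m + a' ⟨m.1 - J.1, by omega⟩ • w0 := hm2
        have hl := hdet x x' hx3 hx'3 m hJm hi
        have hm4 := congrArg (fun w : (∀ j, V j) => κj J (T J (w J))) hm3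
        simp only [Pi.add_apply, Pi.smul_apply, map_add, map_smul, hlam, hl, smul_eq_mul,
          mul_one] at hm4
        have ha : a ⟨m.1 - J.1, by omega⟩ = a' ⟨m.1 - J.1, by omega⟩ := add_left_cancel hm4
        rw [ha] at hm3
        exact ⟨add_right_cancel hm3, fun _ => ha⟩
      · rw [dif_neg hJm, dif_neg hJm] at hm
        exact ⟨congrArg Subtype.val hm, fun h => absurd h hJm⟩
    have hall : ∀ N : ℕ, ∀ m : Fin n, m.1 < N → x m = x' m := by
      intro N
      induction N with
      | zero => intro m hm; omega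
      | succ N ih =>
        intro m hm
        exact (hkey m fun i hi => ih i (by
          have : i.1 < m.1 := hi
          omega)).1
    have hx : x = x' := funext fun m => hall (m.1 + 1) m (by omega)
    have ha : a = a' := by
      funext i
      have hi : J.1 + i.1 < n := by
        have := i.2
        omega
      have h1 := (hkey ⟨J.1 + i.1, hi⟩ (fun i' _ => congrFun hx i')).2 (by dsimp only; omega)
      have h2 : (⟨J.1 + i.1 - J.1, by omega⟩ : Fin (n - J.1)) = i := by
        apply Fin.ext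
        dsimp only
        omega
      dsimp only at h1
      rw [h2] at h1
      exact h1
    subst hx
    subst ha
    rfl
  have hcard := Nat.card_le_card_of_injective _ hinj
  rw [Nat.card_prod, Nat.card_fun, Nat.card_fun, Nat.card_fin, Nat.card_fin] at hcard
  have hq : 1 ≤ Nat.card F := Nat.card_pos
  calc _ = Nat.card {x : Fin n → ∀ j, V j // Submodule.span F (Set.range x) = W ∧ Full T x ∧
      ∀ c, (fun j => T j (x (σ j c) j)) ∈ W} * Nat.card F ^ (n - J.1) *
        Nat.card F ^ (J.1 + 1) := by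
        rw [mul_assoc, ← pow_add]
        congr 2
        omega
    _ ≤ Nat.card W ^ n * Nat.card F ^ (J.1 + 1) := Nat.mul_le_mul_right _ hcard
    _ ≤ _ := Nat.mul_le_mul_left _ (Nat.pow_le_pow_right hq hJk)

end Pool.CYA
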