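import Pool.Agent.Work.MP_dd2eb3_aa.Interface4
import Pool.Agent.Work.MP_dd2eb3_aa.B_HYP

/-! # Block HYP2 (helper54, after B_HYP of helper40): families spanning a given subspace whose first
components are independent -/

set_option autoImplicit false

namespace Pool.CYA

open Module

/-- the class of the vector with last component `T_J w_J` and other components zero -/
noncomputable def HYP2_lam {F : Type} [Field F] {k : ℕ} {V : Fin (k + 1) → Type}
    [∀ j, AddCommGroup (V j)] [∀ j, Module F (V j)] (T : ∀ j, V j →ₗ[F] V j)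
    (W : Submodule F (∀ j, V j)) : W →ₗ[F] (∀ j, V j) ⧸ W :=
  W.mkQ ∘ₗ (LinearMap.single F V (Fin.last k)) ∘ₗ (T (Fin.last k)) ∘ₗ
      (LinearMap.proj (R := F) (φ := V) (Fin.last k)) ∘ₗ W.subtype

theorem HYP2_lam_apply {F : Type} [Field F] {k : ℕ} {V : Fin (k + 1) → Type}
    [∀ j, AddCommGroup (V j)] [∀ j, Module F (V j)] (T : ∀ j, V j →ₗ[F] V j)
    (W : Submodule F (∀ j, V j)) (w : W) :
    HYP2_lam T W w = W.mkQ (LinearMap.single F V (Fin.last k)
      (T (Fin.last k) (w.1 (Fin.last k)))) := rfl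

theorem p_HYP2 : Stmt_HYP2 := by
  classical
  intro F _ _ n k V _ _ _ T σ hT hσ W
  have := Fintype.ofFinite F
  by_cases hemp : IsEmpty {x : Fin n → ∀ j, V j // Submodule.span F (Set.range x) = W ∧ Full T x ∧
      (∀ c, (fun j => T j (x (σ j c) j)) ∈ W) ∧
      Submodule.span F (Set.range (fun (i : Fin n) (j : Fin k) => x i j.castSucc)) = ⊤}
  · rw [Nat.card_of_isEmpty, zero_mul]
    exact Nat.zero_le _
  rw [not_isEmpty_iff] at hemp
  obtain ⟨⟨x0, hx0s, hx0f, hx0w, hx0t⟩⟩ := hemp
  -- (1) the projection is everything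
  have hproj : W.map (LinearMap.proj (R := F) (φ := V) (Fin.last k)) = ⊤ := by
    refine hx0f (Fin.last k) _ (fun i => ?_) ?_
    · refine ⟨x0 i, ?_, rfl⟩
      rw [SetLike.mem_coe, ← hx0s]
      exact Submodule.subset_span ⟨i, rfl⟩
    · have hle : W ≤ (W.map (LinearMap.proj (R := F) (φ := V) (Fin.last k))).comap
          (T (Fin.last k) ∘ₗ LinearMap.proj (R := F) (φ := V) (Fin.last k)) := by
        conv_lhs => rw [← hx0s]
        rw [Submodule.span_le]
        rintro _ ⟨i, rfl⟩
        rw [SetLike.mem_coe, Submodule.mem_comap]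
        refine ⟨_, hx0w ((σ (Fin.last k)).symm i), ?_⟩
        simp
      rintro _ ⟨w, hw, rfl⟩
      exact hle hw
  -- (2) the last component of a functional determines it
  have hzero : ∀ κ : (∀ j, V j) →ₗ[F] F, (∀ w ∈ W, κ w = 0) → κ ∘ₗ LinearMap.single F V (Fin.last k) = 0 → κ = 0 := by
    intro κ hκ hκk
    let κ' : (∀ j : Fin k, V j.castSucc) →ₗ[F] F :=
      ∑ j : Fin k, (κ ∘ₗ LinearMap.single F V j.castSucc) ∘ₗ
        LinearMap.proj (R := F) (φ := fun j : Fin k => V j.castSucc) j
    have hκ' : ∀ w : ∀ j, V j, κ w = κ' (fun j => w j.castSucc) := by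
      intro w
      rw [HYP_sum κ, Fin.sum_univ_castSucc, hκk]
      simp [κ']
    have h1 : κ' = 0 := by
      have h2 : (⊤ : Submodule F (∀ j : Fin k, V j.castSucc)) ≤ LinearMap.ker κ' := by
        rw [← hx0t, Submodule.span_le]
        rintro _ ⟨i, rfl⟩
        rw [SetLike.mem_coe, LinearMap.mem_ker]
        show κ' (fun j => x0 i j.castSucc) = 0
        rw [← hκ' (x0 i)]
        refine hκ _ ?_
        rw [← hx0s]
        exact Submodule.subset_span ⟨i, rfl⟩
      refine LinearMap.ext fun u => ?_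
      exact LinearMap.mem_ker.1 (h2 Submodule.mem_top)
    refine LinearMap.ext fun w => ?_
    rw [hκ' w, h1]
    rfl
  -- (3) surjectivity
  have hsurj : LinearMap.range (HYP2_lam T W) = ⊤ := by
    by_contra hne
    obtain ⟨f, hf0, hf⟩ := Submodule.exists_le_ker_of_lt_top _ (lt_top_iff_ne_top.2 hne)
    apply hf0
    have h1 : ∀ w : W, f (HYP2_lam T W w) = 0 := fun w => LinearMap.mem_ker.1 (hf ⟨w, rfl⟩)
    have h2 : (f ∘ₗ W.mkQ) ∘ₗ LinearMap.single F V (Fin.last k) = 0 := by
      refine LinearMap.ext fun v => ?_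
      obtain ⟨u, hu⟩ := (Finite.injective_iff_surjective.1 (hT (Fin.last k))) v
      have hu2 : u ∈ W.map (LinearMap.proj (R := F) (φ := V) (Fin.last k)) := by
        rw [hproj]
        exact Submodule.mem_top
      obtain ⟨w, hw, hwu⟩ := hu2
      have hwu' : w (Fin.last k) = u := hwu
      have h3 := h1 ⟨w, hw⟩
      rw [HYP2_lam_apply] at h3
      dsimp only at h3
      rw [hwu', hu] at h3
      exact h3
    have h4 : f ∘ₗ W.mkQ = 0 := hzero _ (fun w hw => by
      show f (W.mkQ w) = 0
      rw [Submodule.mkQ_apply, (Submodule.Quotient.mk_eq_zero W).2 hw, map_zero]) h2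
    refine LinearMap.ext fun y => ?_
    obtain ⟨z, rfl⟩ := W.mkQ_surjective y
    exact LinearMap.congr_fun h4 z
  obtain ⟨g, hg⟩ := (HYP2_lam T W).exists_rightInverse_of_surjective hsurj
  have hg' : ∀ u, HYP2_lam T W (g u) = u := fun u => LinearMap.congr_fun hg u
  -- (4) determination
  have hdet : ∀ x x' : Fin n → ∀ j, V j, (∀ c, (fun j => T j (x (σ j c) j)) ∈ W) →
      (∀ c, (fun j => T j (x' (σ j c) j)) ∈ W) → ∀ (m : Fin n) (h : x m ∈ W) (h' : x' m ∈ W),
      k ≤ m.1 → (∀ i : Fin n, i < m → x i = x' i) →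
      HYP2_lam T W ⟨x m, h⟩ = HYP2_lam T W ⟨x' m, h'⟩ := by
    intro x x' hx hx' m h h' hm hi
    rw [HYP2_lam_apply, HYP2_lam_apply]
    set c : Fin n := ⟨m.1 - k, by omega⟩ with hc
    have e0 : ∀ y : ∀ j, V j, y ∈ W → ∑ j, W.mkQ (LinearMap.single F V j (y j)) = 0 := by
      intro y hy
      have h : y = ∑ j, LinearMap.single F V j (y j) := by
        simp only [LinearMap.coe_single]
        exact (Finset.univ_sum_single y).symm
      rw [← map_sum, ← h, Submodule.mkQ_apply, (Submodule.Quotient.mk_eq_zero W).2 hy]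
    have e1 : ∑ j, W.mkQ (LinearMap.single F V j (T j (x (σ j c) j))) = 0 := e0 _ (hx c)
    have e2 : ∑ j, W.mkQ (LinearMap.single F V j (T j (x' (σ j c) j))) = 0 := e0 _ (hx' c)
    have e3 : ∑ j, (W.mkQ (LinearMap.single F V j (T j (x (σ j c) j))) -
        W.mkQ (LinearMap.single F V j (T j (x' (σ j c) j)))) = 0 := by
      rw [Finset.sum_sub_distrib, e1, e2, sub_zero]
    have hσJ : σ (Fin.last k) c = m := by
      apply Fin.ext
      rw [hσ (Fin.last k) c (by rw [hc]; simp only [Fin.val_last]; omega), hc]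
      simp only [Fin.val_last]
      omega
    rw [Finset.sum_eq_single (Fin.last k)] at e3
    · rw [hσJ] at e3
      exact sub_eq_zero.1 e3
    · intro j _ hj
      have h1 : j.1 < k := by
        have := j.2
        have h2 : j.1 ≠ k := fun h => hj (Fin.ext h)
        omega
      have h3 : (σ j c).1 = c.1 + j.1 := hσ j c (by rw [hc]; dsimp only; omega)
      have h4 : σ j c < m := by
        show (σ j c).1 < m.1
        rw [h3, hc]
        dsimp only
        omega
      rw [hi _ h4, sub_self]
    · intro h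
      exact absurd (Finset.mem_univ _) h
  -- the injection
  have hmem : ∀ x : Fin n → ∀ j, V j, Submodule.span F (Set.range x) = W → ∀ m, x m ∈ W := by
    intro x hx m
    rw [← hx]
    exact Submodule.subset_span ⟨m, rfl⟩
  have hinj : Function.Injective (fun p : {x : Fin n → ∀ j, V j //
      Submodule.span F (Set.range x) = W ∧ Full T x ∧ (∀ c, (fun j => T j (x (σ j c) j)) ∈ W) ∧
      Submodule.span F (Set.range (fun (i : Fin n) (j : Fin k) => x i j.castSucc)) = ⊤} ×
      (Fin (n - k) → (∀ j, V j) ⧸ W) => (fun m : Fin n => if h : k ≤ m.1 then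
        (⟨p.1.1 m, hmem p.1.1 p.1.2.1 m⟩ + g (p.2 ⟨m.1 - k, by omega⟩) : W)
        else ⟨p.1.1 m, hmem p.1.1 p.1.2.1 m⟩)) := by
    rintro ⟨⟨x, hx1, hx2, hx3, hx4⟩, a⟩ ⟨⟨x', hx'1, hx'2, hx'3, hx'4⟩, a'⟩ h
    have hkey : ∀ m : Fin n, (∀ i : Fin n, i < m → x i = x' i) → x m = x' m ∧
        ∀ h : k ≤ m.1, a ⟨m.1 - k, by omega⟩ = a' ⟨m.1 - k, by omega⟩ := by
      intro m hi
      have hm := congrFun h m
      dsimp only at hm
      by_cases hJm : k ≤ m.1
      · rw [dif_pos hJm, dif_pos hJm] at hm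
        have hl := hdet x x' hx3 hx'3 m (hmem x hx1 m) (hmem x' hx'1 m) hJm hi
        have hm4 := congrArg (HYP2_lam T W) hm
        rw [map_add, map_add, hg', hg', hl] at hm4
        have ha : a ⟨m.1 - k, by omega⟩ = a' ⟨m.1 - k, by omega⟩ := add_left_cancel hm4
        rw [ha] at hm
        exact ⟨congrArg Subtype.val (add_right_cancel hm), fun _ => ha⟩
      · rw [dif_neg hJm, dif_neg hJm] at hm
        exact ⟨congrArg Subtype.val hm, fun h => absurd h hJm⟩
    have hall : ∀ N : ℕ, ∀ m : Fin n, m.1 < N → x m = x' m := by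
      intro N
      induction N with
      | zero => intro m hm; omega
      | succ N ih =>
        intro m hm
        exact (hkey m fun i hi => ih i (by
          have : i.1 < m.1 := hi
          omega)).1
    have hx : x = x' := funext fun m => hall (m.1 + 1) m (by omega)
    have ha : a = a' := by
      funext i
      have hi : k + i.1 < n := by
        have := i.2
        omega
      have h1 := (hkey ⟨k + i.1, hi⟩ (fun i' _ => congrFun hx i')).2 (by dsimp only; omega)
      have h2 : (⟨k + i.1 - k, by omega⟩ : Fin (n - k)) = i := by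
        apply Fin.ext
        dsimp only
        omega
      dsimp only at h1
      rw [h2] at h1
      exact h1
    subst hx
    subst ha
    rfl
  have hcard := Nat.card_le_card_of_injective _ hinj
  rw [Nat.card_prod, Nat.card_fun, Nat.card_fun, Nat.card_fin, Nat.card_fin] at hcard
  -- the number of elements
  have hR : Nat.card (∀ j, V j) = Nat.card ((∀ j, V j) ⧸ W) * Nat.card W := by
    rw [mul_comm]
    exact Submodule.card_eq_card_quotient_mul_card W
  rw [hR, mul_pow, ← mul_assoc]
  calc _ ≤ Nat.card W ^ n * Nat.card W ^ (n - k) := Nat.mul_le_mul_right _ hcard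
    _ = _ := (pow_add _ _ _).symm

end Pool.CYA
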