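import Pool.Agent.Work.MP_dd2eb3_aa.Interface

/-!
# Block PAIR
-/

set_option autoImplicit false

namespace Pool.CYA

open Module

/-- The row combinations of a pair. -/
theorem PAIR_li {K : Type} [Field K] {n : ℕ} (v : Fin 2 → (Fin n → K))
    (hv : LinearIndependent K v) (g : GL (Fin 2) K) :
    LinearIndependent K (fun a => ∑ b, (g : Matrix (Fin 2) (Fin 2) K) a b • v b) := by
  classical
  rw [Fintype.linearIndependent_iff]
  intro c hc
  have h1 : ∑ b, (∑ a, c a * (g : Matrix (Fin 2) (Fin 2) K) a b) • v b = 0 := by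
    rw [← hc]
    simp only [Finset.smul_sum, Finset.sum_smul, smul_smul]
    exact Finset.sum_comm
  have h2 := Fintype.linearIndependent_iff.mp hv _ h1
  have h3 : Matrix.vecMul c (g : Matrix (Fin 2) (Fin 2) K) = 0 := by
    funext b
    exact h2 b
  have h4 : c = 0 := by
    have h5 : Matrix.vecMul (Matrix.vecMul c (g : Matrix (Fin 2) (Fin 2) K))
        ((g⁻¹ : GL (Fin 2) K) : Matrix (Fin 2) (Fin 2) K) = c := by
      rw [Matrix.vecMul_vecMul, ← Units.val_mul, mul_inv_cancel, Units.val_one, Matrix.vecMul_one]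
    rw [← h5, h3, Matrix.zero_vecMul]
  intro a
  rw [h4]
  rfl

theorem PAIR_inj {K : Type} [Field K] {n : ℕ} (v : Fin 2 → (Fin n → K))
    (hv : LinearIndependent K v) (g g' : GL (Fin 2) K)
    (h : (fun a => ∑ b, (g : Matrix (Fin 2) (Fin 2) K) a b • v b) =
      (fun a => ∑ b, (g' : Matrix (Fin 2) (Fin 2) K) a b • v b)) : g = g' := by
  apply Units.ext
  ext a b
  have h1 : ∑ b, (g : Matrix (Fin 2) (Fin 2) K) a b • v b =
      ∑ b, (g' : Matrix (Fin 2) (Fin 2) K) a b • v b := congrFun h a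
  have h2 : ∑ b, ((g : Matrix (Fin 2) (Fin 2) K) a b - (g' : Matrix (Fin 2) (Fin 2) K) a b) • v b
      = 0 := by
    simp only [sub_smul, Finset.sum_sub_distrib]
    rw [h1, sub_self]
  exact sub_eq_zero.mp (Fintype.linearIndependent_iff.mp hv _ h2 b)

theorem PAIR_eig {F : Type} [Field F] {n : ℕ} (A : Matrix (Fin n) (Fin n) F)
    (σ : Equiv.Perm (Fin n)) (t : AlgebraicClosure F) (v : Fin 2 → (Fin n → Kt t))
    (hv : ∀ a, Eig A σ t (v a)) (c : Fin 2 → Kt t) : Eig A σ t (∑ b, c b • v b) := by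
  intro d
  have h := fun a => hv a d
  have h1 : ∀ i, (∑ b, c b • v b) i = ∑ b, c b * v b i := by
    intro i
    simp [Finset.sum_apply]
  calc ∑ i, A i d • (∑ b, c b • v b) i = ∑ i, ∑ b, c b * (A i d • v b i) := by
        refine Finset.sum_congr rfl (fun i _ => ?_)
        rw [h1, Finset.smul_sum]
        refine Finset.sum_congr rfl (fun b _ => ?_)
        rw [mul_smul_comm]
    _ = ∑ b, c b * ∑ i, A i d • v b i := by
        rw [Finset.sum_comm]
        refine Finset.sum_congr rfl (fun b _ => ?_)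
        rw [Finset.mul_sum]
    _ = ∑ b, c b * (gt t * v b (σ d)) := by
        refine Finset.sum_congr rfl (fun b _ => ?_)
        rw [h b]
    _ = gt t * (∑ b, c b • v b) (σ d) := by
        rw [h1, Finset.mul_sum]
        refine Finset.sum_congr rfl (fun b _ => ?_)
        ring

theorem p_PAIR : Stmt_PAIR := by
  intro F _ _ n A σ t hD
  classical
  obtain ⟨v, hv, he⟩ := hD
  have hint : IsIntegral F t := Algebra.IsIntegral.isIntegral t
  have hfd : FiniteDimensional F (Kt t) := IntermediateField.adjoin.finiteDimensional hint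
  have hfin : Finite (Kt t) := Module.finite_of_finite F
  have hcard : Nat.card (Kt t) = Nat.card F ^ dg t := by
    rw [Module.natCard_eq_pow_finrank (K := F), IntermediateField.adjoin.finrank hint]
    rfl
  have hft : Fintype (Kt t) := Fintype.ofFinite _
  have hGL : Nat.card (GL (Fin 2) (Kt t)) = gl2 (Nat.card F ^ dg t) := by
    rw [Matrix.card_GL_field, Fin.prod_univ_two, ← Nat.card_eq_fintype_card, hcard]
    simp [gl2]
  rw [← hGL]
  have hft2 : Finite {v : Fin 2 → (Fin n → Kt t) // LinearIndependent (Kt t) v ∧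
      ∀ a, Eig A σ t (v a)} := inferInstance
  refine Nat.card_le_card_of_injective (fun g : GL (Fin 2) (Kt t) =>
    (⟨fun a => ∑ b, (g : Matrix (Fin 2) (Fin 2) (Kt t)) a b • v b, PAIR_li v hv g,
      fun a => PAIR_eig A σ t v he _⟩ :
      {v : Fin 2 → (Fin n → Kt t) // LinearIndependent (Kt t) v ∧ ∀ a, Eig A σ t (v a)})) ?_
  intro g g' hgg
  exact PAIR_inj v hv g g' (Subtype.mk.inj hgg)

end Pool.CYA
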