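import Pool.Agent.Work.MP_dd2eb3_aa.Interface4

/-! # Block SUBL: the number of subspaces of codimension l -/

set_option autoImplicit false

namespace Pool.CYA

open Module

/-- SUBL. -/
theorem p_SUBL : Stmt_SUBL := by
  intro F _ _ R _ _ _ l
  haveI : Module.Finite F R := Module.Finite.of_finite
  haveI : Finite (Module.Dual F R) := Module.finite_of_finite F
  have hex : ∀ W : {W : Submodule F R // finrank F W + l = finrank F R},
      ∃ f : Fin l → Module.Dual F R,
        (Submodule.span F (Set.range f)).dualCoannihilator = W.1 := by
    rintro ⟨W, hW⟩
    have h1 : finrank F W + finrank F W.dualAnnihilator = finrank F R :=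
      Subspace.finrank_add_finrank_dualAnnihilator_eq W
    have h2 : finrank F W.dualAnnihilator = l := by omega
    haveI : Module.Free F W.dualAnnihilator := Module.Free.of_divisionRing F W.dualAnnihilator
    let b := Module.finBasisOfFinrankEq F W.dualAnnihilator h2
    refine ⟨fun i => (b i : Module.Dual F R), ?_⟩
    have h3 : Submodule.span F (Set.range (fun i => (b i : Module.Dual F R))) =
        W.dualAnnihilator := by
      have h4 : Submodule.map W.dualAnnihilator.subtype (Submodule.span F (Set.range b)) =
          W.dualAnnihilator := by
        rw [b.span_eq, Submodule.map_top, Submodule.range_subtype]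
      rw [Submodule.map_span, ← Set.range_comp] at h4
      exact h4
    rw [h3]
    exact Subspace.dualAnnihilator_dualCoannihilator_eq
  choose f hf using hex
  have hinj : Function.Injective f := by
    intro W1 W2 h
    apply Subtype.ext
    rw [← hf W1, ← hf W2, h]
  have h1 := Nat.card_le_card_of_injective f hinj
  refine h1.trans (le_of_eq ?_)
  have h2 : Nat.card (Module.Dual F R) = Nat.card F ^ finrank F R := by
    rw [← Subspace.dual_finrank_eq (K := F) (V := R)]
    exact Module.natCard_eq_pow_finrank
  rw [Nat.card_fun, h2, Nat.card_fin, ← pow_mul, mul_comm]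

end Pool.CYA
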