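import Pool.Agent.Work.MP_dd2eb3_aa.Interface

/-!
# Block SUMT
-/

set_option autoImplicit false

namespace Pool.CYA

open Module Polynomial

section

variable {F : Type} [Field F] [Finite F]

theorem pow_dg_eq (t : AlgebraicClosure F) : t ^ (Nat.card F ^ dg t) = t := by
  have hint : IsIntegral F t := Algebra.IsIntegral.isIntegral t
  have hfin : finrank F (Kt t) = dg t := IntermediateField.adjoin.finrank hint
  have : FiniteDimensional F (Kt t) := IntermediateField.adjoin.finiteDimensional hint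
  have : Finite (Kt t) := Module.finite_of_finite F
  have : Fintype (Kt t) := Fintype.ofFinite _
  have h1 : Nat.card (Kt t) = Nat.card F ^ dg t := by
    rw [Module.natCard_eq_pow_finrank (K := F), hfin]
  have h2 : gt t ^ (Nat.card F ^ dg t) = gt t := by
    rw [← h1, Nat.card_eq_fintype_card]
    exact FiniteField.pow_card _
  have h3 := congrArg (algebraMap (Kt t) (AlgebraicClosure F)) h2
  rw [map_pow] at h3
  exact h3

theorem one_lt_card : 1 < Nat.card F := Finite.one_lt_card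

omit [Finite F] in
theorem dg_pos (t : AlgebraicClosure F) : 0 < dg t :=
  minpoly.natDegree_pos (Algebra.IsIntegral.isIntegral t)

theorem card_dg_le (S : Finset (AlgebraicClosure F)) (d : ℕ) (hd : d ≠ 0)
    (hS : ∀ t ∈ S, dg t = d) : S.card ≤ Nat.card F ^ d := by
  classical
  have hq : 1 < Nat.card F ^ d := Nat.one_lt_pow hd one_lt_card
  have h1 : S ⊆ (X ^ (Nat.card F ^ d) - X : (AlgebraicClosure F)[X]).roots.toFinset := by
    intro t ht
    rw [Multiset.mem_toFinset, mem_roots (FiniteField.X_pow_card_sub_X_ne_zero _ hq)]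
    rw [IsRoot.def, eval_sub, eval_pow, eval_X, sub_eq_zero, ← hS t ht]
    exact pow_dg_eq t
  calc S.card ≤ _ := Finset.card_le_card h1
    _ ≤ _ := Multiset.toFinset_card_le _
    _ ≤ _ := card_roots' _
    _ = _ := FiniteField.X_pow_card_sub_X_natDegree_eq _ hq

end

theorem mul_gl2 (Q : ℕ) (hQ : 2 ≤ Q) : (Q : ℝ) * (1 / (gl2 Q : ℝ)) ≤ 8 / 3 / (Q : ℝ) ^ 3 := by
  have h2 : (2 : ℝ) ≤ Q := by exact_mod_cast hQ
  have h1 : (gl2 Q : ℝ) = ((Q : ℝ) ^ 2 - 1) * ((Q : ℝ) ^ 2 - Q) := by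
    unfold gl2
    rw [Nat.cast_mul, Nat.cast_sub (by nlinarith), Nat.cast_sub (by nlinarith)]
    push_cast
    ring
  have h3 : (0 : ℝ) < ((Q : ℝ) ^ 2 - 1) * ((Q : ℝ) ^ 2 - Q) := by
    apply mul_pos <;> nlinarith
  rw [h1, mul_one_div, div_le_div_iff₀ h3 (by positivity)]
  have h4 : (3 / 4 : ℝ) * (Q : ℝ) ^ 2 ≤ (Q : ℝ) ^ 2 - 1 := by nlinarith
  have h5 : (1 / 2 : ℝ) * (Q : ℝ) ^ 2 ≤ (Q : ℝ) ^ 2 - Q := by nlinarith
  have h6 : (3 / 4 : ℝ) * (Q : ℝ) ^ 2 * ((1 / 2 : ℝ) * (Q : ℝ) ^ 2) ≤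
      ((Q : ℝ) ^ 2 - 1) * ((Q : ℝ) ^ 2 - Q) := by
    apply mul_le_mul h4 h5 (by positivity)
    nlinarith
  nlinarith

theorem b_SUMT : Stmt_SUMT := by
  intro F _ _ m S hS
  classical
  set q := Nat.card F with hq
  have hq1 : 1 < q := one_lt_card
  set I := S.image dg with hI
  have h1 : ∑ t ∈ S, (1 / (gl2 (q ^ dg t) : ℝ)) =
      ∑ d ∈ I, ∑ t ∈ S.filter (fun t => dg t = d), (1 / (gl2 (q ^ dg t) : ℝ)) := by
    rw [Finset.sum_fiberwise_of_maps_to]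
    intro t ht
    exact Finset.mem_image_of_mem _ ht
  have hId : ∀ d ∈ I, m < d := by
    intro d hd
    obtain ⟨t, ht, rfl⟩ := Finset.mem_image.1 hd
    exact hS t ht
  have h2 : ∀ d ∈ I, ∑ t ∈ S.filter (fun t => dg t = d), (1 / (gl2 (q ^ dg t) : ℝ)) ≤
      8 / 3 * (1 / 8 : ℝ) ^ d := by
    intro d hd
    have hd0 : d ≠ 0 := by have := hId d hd; omega
    have h3 : ∑ t ∈ S.filter (fun t => dg t = d), (1 / (gl2 (q ^ dg t) : ℝ)) =
        (S.filter (fun t => dg t = d)).card * (1 / (gl2 (q ^ d) : ℝ)) := by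
      rw [← nsmul_eq_mul, ← Finset.sum_const]
      apply Finset.sum_congr rfl
      intro t ht
      rw [(Finset.mem_filter.1 ht).2]
    rw [h3]
    have h4 : (S.filter (fun t => dg t = d)).card ≤ q ^ d :=
      card_dg_le _ d hd0 fun t ht => (Finset.mem_filter.1 ht).2
    have h5 : ((S.filter (fun t => dg t = d)).card : ℝ) ≤ ((q ^ d : ℕ) : ℝ) := by
      exact_mod_cast h4
    have hQ : 2 ^ d ≤ q ^ d := Nat.pow_le_pow_left hq1 d
    have hQ2 : 2 ≤ q ^ d := by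
      calc 2 = 2 ^ 1 := rfl
        _ ≤ 2 ^ d := Nat.pow_le_pow_right (by norm_num) (by omega)
        _ ≤ _ := hQ
    have h6 := mul_gl2 (q ^ d) hQ2
    have h7 : (0 : ℝ) ≤ 1 / (gl2 (q ^ d) : ℝ) := by positivity
    calc _ ≤ ((q ^ d : ℕ) : ℝ) * (1 / (gl2 (q ^ d) : ℝ)) := mul_le_mul_of_nonneg_right h5 h7
      _ ≤ _ := h6
      _ ≤ 8 / 3 / ((2 : ℝ) ^ d) ^ 3 := by
        apply div_le_div_of_nonneg_left (by norm_num) (by positivity)
        apply pow_le_pow_left₀ (by positivity)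
        exact_mod_cast hQ
      _ = _ := by
        rw [← pow_mul, mul_comm d 3, pow_mul, div_eq_mul_inv, one_div, inv_pow]
        norm_num
  obtain ⟨M, hM⟩ : ∃ M, ∀ d ∈ I, d < M := ⟨I.sup id + 1, fun d hd =>
    Nat.lt_succ_of_le (Finset.le_sup (f := id) hd)⟩
  have h3 : I ⊆ Finset.Ico (m + 1) M := by
    intro d hd
    rw [Finset.mem_Ico]
    exact ⟨hId d hd, hM d hd⟩
  have h4 := geom_sum_Ico_le_of_lt_one (x := (1 / 8 : ℝ)) (m := m + 1) (n := M) (by norm_num)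
    (by norm_num)
  have h5 : ∑ d ∈ I, 8 / 3 * (1 / 8 : ℝ) ^ d ≤ ∑ d ∈ Finset.Ico (m + 1) M, 8 / 3 * (1 / 8 : ℝ) ^ d :=
    Finset.sum_le_sum_of_subset_of_nonneg h3 fun _ _ _ => by positivity
  have h6 : (0 : ℝ) < (1 / 8 : ℝ) ^ m := by positivity
  rw [h1]
  calc _ ≤ ∑ d ∈ I, 8 / 3 * (1 / 8 : ℝ) ^ d := Finset.sum_le_sum h2
    _ ≤ _ := h5
    _ = 8 / 3 * ∑ d ∈ Finset.Ico (m + 1) M, (1 / 8 : ℝ) ^ d := by rw [Finset.mul_sum]
    _ ≤ 8 / 3 * ((1 / 8 : ℝ) ^ (m + 1) / (1 - 1 / 8)) := by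
      apply mul_le_mul_of_nonneg_left h4 (by norm_num)
    _ ≤ _ := by
      have h7 : 8 / 3 * ((1 / 8 : ℝ) ^ (m + 1) / (1 - 1 / 8)) = 8 / 21 * (1 / 8 : ℝ) ^ m := by
        rw [pow_succ]
        ring
      rw [h7]
      nlinarith

end Pool.CYA
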