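import Pool.Agent.Work.MP_dd2eb3_aa.Interface3
import Pool.Agent.Work.MP_dd2eb3_aa.B_SUMT

/-!
# Blocks SUMA and SUMB
-/

set_option autoImplicit false

namespace Pool.CYA

open Module Polynomial

/-- The sum over the eigenvalues of one degree. -/
theorem SUMQ_deg {F : Type} [Field F] [Finite F] (S : Finset (AlgebraicClosure F)) (d : ℕ)
    (hd0 : d ≠ 0) (hS : ∀ t ∈ S, dg t = d) :
    ∑ t ∈ S, (1 / (gl2 (Nat.card F ^ dg t) : ℝ)) ≤ 8 / 3 * (1 / (Nat.card F : ℝ) ^ 3) ^ d := by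
  set q := Nat.card F with hq
  have hq1 : 1 < q := one_lt_card
  have h3 : ∑ t ∈ S, (1 / (gl2 (q ^ dg t) : ℝ)) = S.card * (1 / (gl2 (q ^ d) : ℝ)) := by
    rw [← nsmul_eq_mul, ← Finset.sum_const]
    apply Finset.sum_congr rfl
    intro t ht
    rw [hS t ht]
  rw [h3]
  have h5 : (S.card : ℝ) ≤ ((q ^ d : ℕ) : ℝ) := by
    exact_mod_cast card_dg_le S d hd0 hS
  have hQ2 : 2 ≤ q ^ d := (Nat.succ_le_of_lt hq1).trans (Nat.le_self_pow hd0 q)
  have h6 := mul_gl2 (q ^ d) hQ2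
  have h7 : (0 : ℝ) ≤ 1 / (gl2 (q ^ d) : ℝ) := by positivity
  calc _ ≤ ((q ^ d : ℕ) : ℝ) * (1 / (gl2 (q ^ d) : ℝ)) := mul_le_mul_of_nonneg_right h5 h7
    _ ≤ _ := h6
    _ = _ := by
      push_cast
      rw [← pow_mul, mul_comm d 3, pow_mul, div_eq_mul_inv, one_div, inv_pow]

theorem p_SUMA : Stmt_SUMA := by
  intro F _ _ m S hS
  classical
  have hq1 : 1 < Nat.card F := one_lt_card
  have hmain := fun (S : Finset (AlgebraicClosure F)) d h1 h2 => SUMQ_deg S d h1 h2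
  set q := Nat.card F with hq
  have hqr : (2 : ℝ) ≤ q := by exact_mod_cast hq1
  have hq3 : (8 : ℝ) ≤ (q : ℝ) ^ 3 := by
    calc (8 : ℝ) = 2 ^ 3 := by norm_num
      _ ≤ _ := pow_le_pow_left₀ (by norm_num) hqr 3
  set x : ℝ := 1 / (q : ℝ) ^ 3 with hx
  have hx0 : 0 < x := by rw [hx]; positivity
  have hx8 : x ≤ 1 / 8 := by
    rw [hx]
    exact one_div_le_one_div_of_le (by norm_num) hq3
  set I := S.image dg with hI
  have h1 : ∑ t ∈ S, (1 / (gl2 (q ^ dg t) : ℝ)) =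
      ∑ d ∈ I, ∑ t ∈ S.filter (fun t => dg t = d), (1 / (gl2 (q ^ dg t) : ℝ)) := by
    rw [Finset.sum_fiberwise_of_maps_to]
    intro t ht
    exact Finset.mem_image_of_mem _ ht
  have hId : ∀ d ∈ I, m < d := by
    intro d hd
    obtain ⟨t, ht, rfl⟩ := Finset.mem_image.1 hd
    exact hS t ht
  have h2 : ∀ d ∈ I, ∑ t ∈ S.filter (fun t => dg t = d), (1 / (gl2 (q ^ dg t) : ℝ)) ≤
      8 / 3 * x ^ d := by
    intro d hd
    have := hId d hd
    exact hmain _ d (by omega) fun t ht => (Finset.mem_filter.1 ht).2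
  obtain ⟨M, hM⟩ : ∃ M, ∀ d ∈ I, d < M := ⟨I.sup id + 1, fun d hd =>
    Nat.lt_succ_of_le (Finset.le_sup (f := id) hd)⟩
  have h3 : I ⊆ Finset.Ico (m + 1) M := by
    intro d hd
    rw [Finset.mem_Ico]
    exact ⟨hId d hd, hM d hd⟩
  have h4 := geom_sum_Ico_le_of_lt_one (x := x) (m := m + 1) (n := M) hx0.le (by linarith)
  have h5 : ∑ d ∈ I, 8 / 3 * x ^ d ≤ ∑ d ∈ Finset.Ico (m + 1) M, 8 / 3 * x ^ d :=
    Finset.sum_le_sum_of_subset_of_nonneg h3 fun _ _ _ => by positivity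
  have h6 : (0 : ℝ) < x ^ m := by positivity
  rw [h1]
  calc _ ≤ ∑ d ∈ I, 8 / 3 * x ^ d := Finset.sum_le_sum h2
    _ ≤ _ := h5
    _ = 8 / 3 * ∑ d ∈ Finset.Ico (m + 1) M, x ^ d := by rw [Finset.mul_sum]
    _ ≤ 8 / 3 * (x ^ (m + 1) / (1 - x)) := by
      apply mul_le_mul_of_nonneg_left h4 (by norm_num)
    _ ≤ 8 / 3 * (x ^ (m + 1) / (7 / 8)) := by
      apply mul_le_mul_of_nonneg_left _ (by norm_num)
      apply div_le_div_of_nonneg_left (by positivity) (by norm_num)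
      linarith
    _ = 64 / 21 * x * x ^ m := by rw [pow_succ]; ring
    _ ≤ 4 * x * x ^ m := by
      apply mul_le_mul_of_nonneg_right _ h6.le
      apply mul_le_mul_of_nonneg_right _ hx0.le
      norm_num
    _ = _ := by rw [hx]; ring

theorem p_SUMB : Stmt_SUMB := by
  intro F _ _ S
  classical
  have hq1 : 1 < Nat.card F := one_lt_card
  have hmain := fun (S : Finset (AlgebraicClosure F)) d h1 h2 => SUMQ_deg S d h1 h2
  set q := Nat.card F with hq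
  have hq0 : (0 : ℝ) < q := by exact_mod_cast (by omega : 0 < q)
  set I := S.image dg with hI
  have h1 : ∑ t ∈ S, (((q : ℝ) ^ 3 / 2) ^ dg t / (gl2 (q ^ dg t) : ℝ)) =
      ∑ d ∈ I, ∑ t ∈ S.filter (fun t => dg t = d),
        (((q : ℝ) ^ 3 / 2) ^ dg t / (gl2 (q ^ dg t) : ℝ)) := by
    rw [Finset.sum_fiberwise_of_maps_to]
    intro t ht
    exact Finset.mem_image_of_mem _ ht
  have hId : ∀ d ∈ I, 0 < d := by
    intro d hd
    obtain ⟨t, ht, rfl⟩ := Finset.mem_image.1 hd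
    exact dg_pos t
  have h2 : ∀ d ∈ I, ∑ t ∈ S.filter (fun t => dg t = d),
      (((q : ℝ) ^ 3 / 2) ^ dg t / (gl2 (q ^ dg t) : ℝ)) ≤ 8 / 3 * (1 / 2 : ℝ) ^ d := by
    intro d hd
    have hd0 := hId d hd
    have h3 := hmain (S.filter (fun t => dg t = d)) d (by omega)
      fun t ht => (Finset.mem_filter.1 ht).2
    have h4 : ∑ t ∈ S.filter (fun t => dg t = d),
        (((q : ℝ) ^ 3 / 2) ^ dg t / (gl2 (q ^ dg t) : ℝ)) =
        ((q : ℝ) ^ 3 / 2) ^ d * ∑ t ∈ S.filter (fun t => dg t = d),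
          (1 / (gl2 (q ^ dg t) : ℝ)) := by
      rw [Finset.mul_sum]
      apply Finset.sum_congr rfl
      intro t ht
      rw [(Finset.mem_filter.1 ht).2]
      ring
    rw [h4]
    calc _ ≤ ((q : ℝ) ^ 3 / 2) ^ d * (8 / 3 * (1 / (q : ℝ) ^ 3) ^ d) :=
          mul_le_mul_of_nonneg_left h3 (by positivity)
      _ = 8 / 3 * (((q : ℝ) ^ 3 / 2) ^ d * (1 / (q : ℝ) ^ 3) ^ d) := by ring
      _ = _ := by
        rw [← mul_pow]
        congr 2
        field_simp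
  obtain ⟨M, hM⟩ : ∃ M, ∀ d ∈ I, d < M := ⟨I.sup id + 1, fun d hd =>
    Nat.lt_succ_of_le (Finset.le_sup (f := id) hd)⟩
  have h3 : I ⊆ Finset.Ico 1 M := by
    intro d hd
    rw [Finset.mem_Ico]
    exact ⟨hId d hd, hM d hd⟩
  have h4 := geom_sum_Ico_le_of_lt_one (x := (1 / 2 : ℝ)) (m := 1) (n := M) (by norm_num)
    (by norm_num)
  have h5 : ∑ d ∈ I, 8 / 3 * (1 / 2 : ℝ) ^ d ≤ ∑ d ∈ Finset.Ico 1 M, 8 / 3 * (1 / 2 : ℝ) ^ d :=
    Finset.sum_le_sum_of_subset_of_nonneg h3 fun _ _ _ => by positivity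
  rw [h1]
  calc _ ≤ ∑ d ∈ I, 8 / 3 * (1 / 2 : ℝ) ^ d := Finset.sum_le_sum h2
    _ ≤ _ := h5
    _ = 8 / 3 * ∑ d ∈ Finset.Ico 1 M, (1 / 2 : ℝ) ^ d := by rw [Finset.mul_sum]
    _ ≤ 8 / 3 * ((1 / 2 : ℝ) ^ 1 / (1 - 1 / 2)) := by
      apply mul_le_mul_of_nonneg_left h4 (by norm_num)
    _ ≤ _ := by norm_num

end Pool.CYA
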