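import Pool.Agent.Work.MP_dd2eb3_aa.Interface4
import Pool.Agent.Work.MP_dd2eb3_aa.B_SUMQ

/-!
# Block SUMC
-/

set_option autoImplicit false

namespace Pool.CYA

open Module Polynomial

theorem p_SUMC : Stmt_SUMC := by
  intro F _ _ S
  classical
  have hq1 : 1 < Nat.card F := one_lt_card
  have hmain := fun (S : Finset (AlgebraicClosure F)) d h1 h2 => card_dg_le S d h1 h2
  set q := Nat.card F with hq
  have hqr : (2 : ℝ) ≤ q := by exact_mod_cast hq1
  set y : ℝ := 1 / (q : ℝ) with hy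
  have hy0 : 0 < y := by rw [hy]; positivity
  have hy2 : y ≤ 1 / 2 := by
    rw [hy]
    exact one_div_le_one_div_of_le (by norm_num) hqr
  set I := S.image dg with hI
  have h1 : ∑ t ∈ S, (1 / (q : ℝ) ^ 2) ^ dg t =
      ∑ d ∈ I, ∑ t ∈ S.filter (fun t => dg t = d), (1 / (q : ℝ) ^ 2) ^ dg t := by
    rw [Finset.sum_fiberwise_of_maps_to]
    intro t ht
    exact Finset.mem_image_of_mem _ ht
  have hId : ∀ d ∈ I, 0 < d := by
    intro d hd
    obtain ⟨t, ht, rfl⟩ := Finset.mem_image.1 hd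
    exact dg_pos t
  have h2 : ∀ d ∈ I, ∑ t ∈ S.filter (fun t => dg t = d), (1 / (q : ℝ) ^ 2) ^ dg t ≤ y ^ d := by
    intro d hd
    have hd0 := hId d hd
    have h3 : ∑ t ∈ S.filter (fun t => dg t = d), (1 / (q : ℝ) ^ 2) ^ dg t =
        (S.filter (fun t => dg t = d)).card * (1 / (q : ℝ) ^ 2) ^ d := by
      rw [← nsmul_eq_mul, ← Finset.sum_const]
      apply Finset.sum_congr rfl
      intro t ht
      rw [(Finset.mem_filter.1 ht).2]
    rw [h3]
    have h5 : ((S.filter (fun t => dg t = d)).card : ℝ) ≤ (q : ℝ) ^ d := by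
      have := hmain (S.filter (fun t => dg t = d)) d (by omega)
        fun t ht => (Finset.mem_filter.1 ht).2
      exact_mod_cast this
    calc _ ≤ (q : ℝ) ^ d * (1 / (q : ℝ) ^ 2) ^ d :=
          mul_le_mul_of_nonneg_right h5 (by positivity)
      _ = _ := by
        rw [← mul_pow, hy]
        congr 1
        field_simp
  obtain ⟨M, hM⟩ : ∃ M, ∀ d ∈ I, d < M := ⟨I.sup id + 1, fun d hd =>
    Nat.lt_succ_of_le (Finset.le_sup (f := id) hd)⟩
  have h3 : I ⊆ Finset.Ico 1 M := by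
    intro d hd
    rw [Finset.mem_Ico]
    exact ⟨hId d hd, hM d hd⟩
  have h4 := geom_sum_Ico_le_of_lt_one (x := y) (m := 1) (n := M) hy0.le (by linarith)
  have h5 : ∑ d ∈ I, y ^ d ≤ ∑ d ∈ Finset.Ico 1 M, y ^ d :=
    Finset.sum_le_sum_of_subset_of_nonneg h3 fun _ _ _ => by positivity
  rw [h1]
  calc _ ≤ ∑ d ∈ I, y ^ d := Finset.sum_le_sum h2
    _ ≤ _ := h5
    _ ≤ y ^ 1 / (1 - y) := h4
    _ ≤ _ := by
      rw [pow_one, div_le_one (by linarith)]
      linarith

end Pool.CYA
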