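import Pool.Agent.Work.MP_dd2eb3_aa.Interface

/-!
# MP_dd2eb3_aa, block BADK (helper38): matrices with given derogatory eigenvalues for k shifts
-/

set_option autoImplicit false

namespace Pool.CYA

open Module

theorem BADK_fin {F : Type} [Field F] [Finite F] (t : AlgebraicClosure F) :
    FiniteDimensional F (Kt t) :=
  IntermediateField.adjoin.finiteDimensional (Algebra.IsIntegral.isIntegral t)

theorem BADK_inj {F : Type} [Field F] (t : AlgebraicClosure F) (ht : t ≠ 0) :
    Function.Injective (mt t) := by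
  have hg : gt t ≠ 0 := by
    intro h
    apply ht
    have h1 : ((gt t : Kt t) : AlgebraicClosure F) = t := IntermediateField.AdjoinSimple.coe_gen F t
    rw [← h1, h]
    rfl
  intro w w' h
  funext a
  have h1 := congrFun h a
  exact mul_left_cancel₀ hg h1

theorem BADK_rank {F : Type} [Field F] [Finite F] (t : AlgebraicClosure F) :
    finrank F (Fin 2 → Kt t) = 2 * dg t := by
  haveI := BADK_fin t
  rw [Module.finrank_pi_fintype]
  rw [Finset.sum_const, Finset.card_univ, Fintype.card_fin, smul_eq_mul]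
  rw [IntermediateField.adjoin.finrank (Algebra.IsIntegral.isIntegral t)]
  rfl

theorem p_BADK (hCNT : Stmt_CNT) (hPAIR : Stmt_PAIR) (hFUL : Stmt_FUL) : Stmt_BADK := by
  classical
  intro F _ _ n k t σ ht hσ hkn hD
  haveI : ∀ j, FiniteDimensional F (Kt (t j)) := fun j => BADK_fin (t j)
  haveI : ∀ j, Finite (Kt (t j)) := fun j => Module.finite_of_finite F
  haveI : Fintype F := Fintype.ofFinite F
  have hrank : finrank F (∀ j, (Fin 2 → Kt (t j))) = ∑ j, 2 * dg (t j) := by
    rw [Module.finrank_pi_fintype]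
    exact Finset.sum_congr rfl fun j _ => BADK_rank (t j)
  refine le_trans ?_ (hCNT F n k (fun j => Fin 2 → Kt (t j)) (fun j => mt (t j)) σ
    (fun j => BADK_inj (t j) (ht j)) hσ hkn (by rw [hrank]; exact hD))
  let D : Type := {A : Matrix (Fin n) (Fin n) F // ∀ j, Der A (σ j) (t j)}
  let P : D → Fin k → Type := fun A j => {v : Fin 2 → (Fin n → Kt (t j)) //
    LinearIndependent (Kt (t j)) v ∧ ∀ a, Eig A.1 (σ j) (t j) (v a)}
  haveI : Finite D := inferInstance
  haveI : Fintype D := Fintype.ofFinite D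
  haveI : ∀ (A : D) (j : Fin k), Finite (P A j) := fun A j => inferInstance
  have h1 : Nat.card D * ∏ j, gl2 (Nat.card F ^ dg (t j)) ≤
      Nat.card (Σ A : D, ∀ j, P A j) := by
    rw [Nat.card_sigma]
    have h2 : ∑ A : D, ∏ j, gl2 (Nat.card F ^ dg (t j)) ≤ ∑ A : D, Nat.card (∀ j, P A j) := by
      refine Finset.sum_le_sum fun A _ => ?_
      rw [Nat.card_pi]
      exact Finset.prod_le_prod' fun j _ => hPAIR F n A.1 (σ j) (t j) (A.2 j)
    rw [Finset.sum_const, Finset.card_univ, smul_eq_mul, ← Nat.card_eq_fintype_card] at h2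
    exact h2
  refine h1.trans ?_
  refine Nat.card_le_card_of_injective
    (fun p => ⟨(p.1.1, fun i j a => (p.2 j).1 a i), ?_, ?_⟩) ?_
  · intro j W hW hT
    exact hFUL F n (t j) (p.2 j).1 (p.2 j).2.1 W hW hT
  · intro j c
    funext a
    have h3 := (p.2 j).2.2 a c
    rw [Finset.sum_apply]
    exact h3
  · rintro ⟨⟨A, hA⟩, v⟩ ⟨⟨A', hA'⟩, v'⟩ h
    simp only [Subtype.mk.injEq, Prod.mk.injEq] at h
    obtain ⟨e1, e2⟩ := h
    subst e1
    have e3 : v = v' := by
      funext j
      apply Subtype.ext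
      funext a i
      exact congrFun (congrFun (congrFun e2 i) j) a
    subst e3
    rfl

end Pool.CYA
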