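import Pool.Agent.Work.MP_dd2eb3_aa.Interface4
import Pool.Agent.Work.MP_dd2eb3_aa.B_BADK

/-!
# Block BADD (helper55): matrices with a first dependency at the last place
-/

set_option autoImplicit false

namespace Pool.CYA

open Module

theorem BADD_shift (n m : ℕ) :
    IsShift (n := n) (k := m) (fun j => sh n j) := by
  intro j c
  obtain ⟨j, hj⟩ := j
  change c.1 + j < n → (((finRotate n) ^ j) c).1 = c.1 + j
  clear hj
  induction j with
  | zero => intro _; simp
  | succ j ih =>
    intro h
    have h1 := ih (by omega)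
    rw [pow_succ', Equiv.Perm.mul_apply]
    obtain _ | n := n
    · exact c.elim0
    rw [coe_finRotate_of_ne_last]
    · rw [h1]; rfl
    · intro h2
      rw [h2, Fin.val_last] at h1
      omega

theorem p_BADD (hCNTD : Stmt_CNTD) (hFUL : Stmt_FUL) : Stmt_BADD := by
  classical
  intro F _ _ n k t ht hn
  have : ∀ j, FiniteDimensional F (Kt (t j)) := fun j => BADK_fin (t j)
  have : ∀ j, Finite (Kt (t j)) := fun j => Module.finite_of_finite F
  have : Fintype F := Fintype.ofFinite F
  have hrank : finrank F (∀ j, (Fin 2 → Kt (t j))) = ∑ j, 2 * dg (t j) := by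
    rw [Module.finrank_pi_fintype]
    exact Finset.sum_congr rfl fun j _ => BADK_rank (t j)
  have hC := hCNTD F n k (fun j => Fin 2 → Kt (t j)) (fun j => mt (t j)) (fun j => sh n j)
    (fun j => BADK_inj (t j) (ht j)) (BADD_shift n (k + 1)) (by rw [hrank]; exact hn)
  rw [hrank] at hC
  refine le_trans (Nat.mul_le_mul_right _ ?_) hC
  -- choose the planes
  let v : {A : Matrix (Fin n) (Fin n) F // Dep A t ∧ ¬ Dep A (fun j : Fin k => t j.castSucc)} →
      ∀ j, Fin 2 → (Fin n → Kt (t j)) := fun A => A.2.1.choose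
  have hv : ∀ A : {A : Matrix (Fin n) (Fin n) F // Dep A t ∧
      ¬ Dep A (fun j : Fin k => t j.castSucc)},
      (∀ j, LinearIndependent (Kt (t j)) (v A j) ∧ ∀ a, Eig A.1 (sh n j) (t j) (v A j a)) ∧
      Submodule.span F (Set.range
        (fun (i : Fin n) => (fun j a => v A j a i : ∀ j, Fin 2 → Kt (t j)))) ≠ ⊤ :=
    fun A => A.2.1.choose_spec
  refine Nat.card_le_card_of_injective
    (fun A => ⟨(A.1, fun i j a => v A j a i), ?_, ?_, ?_, ?_⟩) ?_
  · intro j W hW hT
    exact hFUL F n (t j) (v A j) ((hv A).1 j).1 W hW hT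
  · intro j c
    funext a
    have h3 := ((hv A).1 j).2 a c
    rw [Finset.sum_apply]
    exact h3
  · by_contra hne
    exact A.2.2 ⟨fun j => v A j.castSucc, fun j => (hv A).1 j.castSucc, hne⟩
  · exact (hv A).2
  · rintro A A' h
    simp only [Subtype.mk.injEq, Prod.mk.injEq] at h
    exact Subtype.ext h.1

end Pool.CYA
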