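import Pool.Agent.Work.MP_dd2eb3_aa.Interface

/-!
# MP_dd2eb3_aa, block CNT (helper41): the first moment
-/

set_option autoImplicit false

namespace Pool.CYA

open Module

namespace CNT

theorem abs_top (N R : ℕ) {X : Type} (s : Finset X) (a : X → ℕ)
    (ha : ∀ x ∈ s, a x * R ≤ N) (hs : s.card ≤ R) (hR : 0 < R) : ∑ x ∈ s, a x ≤ N := by
  have h1 : (∑ x ∈ s, a x) * R ≤ N * R := by
    rw [Finset.sum_mul]
    calc ∑ x ∈ s, a x * R ≤ ∑ x ∈ s, N := Finset.sum_le_sum ha
      _ = s.card * N := by rw [Finset.sum_const, smul_eq_mul]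
      _ ≤ R * N := Nat.mul_le_mul_right _ hs
      _ = N * R := Nat.mul_comm _ _
  exact Nat.le_of_mul_le_mul_right h1 hR

theorem abs_sub (N w Q K : ℕ) {X : Type} (s : Finset X) (a : X → ℕ)
    (ha : ∀ x ∈ s, a x * w ≤ N) (hs : s.card * Q ≤ w * K) (hw : 0 < w) :
    (∑ x ∈ s, a x) * Q ≤ K * N := by
  have h1 : ((∑ x ∈ s, a x) * Q) * w ≤ (K * N) * w := by
    calc ((∑ x ∈ s, a x) * Q) * w = (∑ x ∈ s, a x * w) * Q := by
            rw [← Finset.sum_mul]; ring
      _ ≤ (∑ x ∈ s, N) * Q := Nat.mul_le_mul_right _ (Finset.sum_le_sum ha)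
      _ = (s.card * Q) * N := by rw [Finset.sum_const, smul_eq_mul]; ring
      _ ≤ (w * K) * N := Nat.mul_le_mul_right _ hs
      _ = (K * N) * w := by ring
  exact Nat.le_of_mul_le_mul_right h1 hw

end CNT

theorem p_CNT (hCOL : Stmt_COL) (hHYP : Stmt_HYP) (hSUB : Stmt_SUB) : Stmt_CNT := by
  intro F _ _ n k V _ _ _ T σ hT hσ hkn hD
  classical
  haveI : Finite (Fin n → ∀ j, V j) := inferInstance
  haveI : Finite (Matrix (Fin n) (Fin n) F) := inferInstanceAs (Finite (Fin n → Fin n → F))
  haveI : Fintype (Fin n → ∀ j, V j) := Fintype.ofFinite _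
  haveI : Finite (Submodule F (∀ j, V j)) :=
    Finite.of_injective (fun W : Submodule F (∀ j, V j) => (W : Set (∀ j, V j)))
      SetLike.coe_injective
  haveI : Fintype (Submodule F (∀ j, V j)) := Fintype.ofFinite _
  have hq : 0 < Nat.card F := Nat.card_pos
  set q := Nat.card F with hqdef
  set N := q ^ (n * n) with hN
  -- the total is a sum over the families
  have htot : Nat.card {p : Matrix (Fin n) (Fin n) F × (Fin n → ∀ j, V j) //
      Full T p.2 ∧ Rel T σ p.1 p.2} =
      ∑ x : Fin n → ∀ j, V j,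
        Nat.card {A : Matrix (Fin n) (Fin n) F // Full T x ∧ Rel T σ A x} := by
    rw [← Nat.card_sigma]
    refine Nat.card_congr ⟨fun p => ⟨p.1.2, ⟨p.1.1, p.2⟩⟩, fun y => ⟨(y.2.1, y.1), y.2.2⟩,
      fun _ => rfl, fun _ => rfl⟩
  set a : (Fin n → ∀ j, V j) → ℕ := fun x =>
    Nat.card {A : Matrix (Fin n) (Fin n) F // Full T x ∧ Rel T σ A x} with ha
  set g : (Fin n → ∀ j, V j) → Submodule F (∀ j, V j) := fun x =>
    Submodule.span F (Set.range x) with hg
  -- the number of matrices for one family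
  have hrel : ∀ (A : Matrix (Fin n) (Fin n) F) (x : Fin n → ∀ j, V j), Rel T σ A x →
      ∀ c, ∑ i, A i c • x i = fun j => T j (x (σ j c) j) := by
    intro A x h c
    funext j
    rw [← h j c, Finset.sum_apply]
    rfl
  have hbound : ∀ x, a x * Nat.card (g x) ^ n ≤ N := by
    intro x
    refine le_trans (Nat.mul_le_mul_right _ ?_)
      (hCOL F n (∀ j, V j) x (fun c j => T j (x (σ j c) j)))
    haveI : Finite {A : Matrix (Fin n) (Fin n) F //
      ∀ c, ∑ i, A i c • x i = (fun c j => T j (x (σ j c) j)) c} := inferInstance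
    exact Nat.card_le_card_of_injective
      (fun A : {A : Matrix (Fin n) (Fin n) F // Full T x ∧ Rel T σ A x} =>
        (⟨A.1, hrel A.1 x A.2.2⟩ : {A : Matrix (Fin n) (Fin n) F //
          ∀ c, ∑ i, A i c • x i = (fun c j => T j (x (σ j c) j)) c}))
      (fun A B h => Subtype.ext (congrArg (fun z => z.1) h))
  have hzero : ∀ x, ¬ (Full T x ∧ ∀ c, (fun j => T j (x (σ j c) j)) ∈ g x) → a x = 0 := by
    intro x hx
    have : IsEmpty {A : Matrix (Fin n) (Fin n) F // Full T x ∧ Rel T σ A x} := by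
      constructor
      rintro ⟨A, h1, h2⟩
      refine hx ⟨h1, fun c => ?_⟩
      rw [← hrel A x h2 c]
      exact Submodule.sum_mem _ fun i _ => Submodule.smul_mem _ _
        (Submodule.subset_span ⟨i, rfl⟩)
    exact Nat.card_of_isEmpty
  -- group by the span
  have hfib : ∑ x, a x = ∑ W : Submodule F (∀ j, V j), ∑ x ∈ Finset.univ with g x = W, a x :=
    (Finset.sum_fiberwise Finset.univ g a).symm
  have hpos : ∀ W : Submodule F (∀ j, V j), 0 < Nat.card W ^ n := by
    intro W
    exact pow_pos Nat.card_pos _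
  have htop : ∑ x ∈ Finset.univ with g x = ⊤, a x ≤ N := by
    refine CNT.abs_top N (Nat.card (⊤ : Submodule F (∀ j, V j)) ^ n) _ a ?_ ?_ (hpos ⊤)
    · intro x hx
      have h := hbound x
      rw [(Finset.mem_filter.1 hx).2] at h
      exact h
    · refine le_trans (Finset.card_le_univ _) ?_
      rw [← Nat.card_eq_fintype_card, Nat.card_fun, Nat.card_eq_fintype_card (α := Fin n),
        Fintype.card_fin]
      refine Nat.pow_le_pow_left (le_of_eq ?_) n
      exact (Nat.card_congr (Submodule.topEquiv (R := F) (M := ∀ j, V j)).toEquiv).symm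
  have hsub : ∀ W : Submodule F (∀ j, V j), W ≠ ⊤ →
      (∑ x ∈ Finset.univ with g x = W, a x) * q ^ (n + 1) ≤ q ^ k * N := by
    intro W hW
    have h1 : ∑ x ∈ Finset.univ with g x = W, a x =
        ∑ x ∈ Finset.univ with (g x = W ∧ Full T x ∧ ∀ c, (fun j => T j (x (σ j c) j)) ∈ W),
          a x := by
      symm
      refine Finset.sum_subset ?_ ?_
      · intro x hx
        exact Finset.mem_filter.2 ⟨Finset.mem_univ _, (Finset.mem_filter.1 hx).2.1⟩
      · intro x hx hx'
        apply hzero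
        rintro ⟨h2, h3⟩
        apply hx'
        have hgx := (Finset.mem_filter.1 hx).2
        rw [hgx] at h3
        exact Finset.mem_filter.2 ⟨Finset.mem_univ _, hgx, h2, h3⟩
    rw [h1]
    refine CNT.abs_sub N (Nat.card W ^ n) (q ^ (n + 1)) (q ^ k) _ a ?_ ?_ (hpos W)
    · intro x hx
      have h := hbound x
      rw [(Finset.mem_filter.1 hx).2.1] at h
      exact h
    · have h2 := hHYP F n k V T σ hT hσ hkn W hW
      have h3 : Nat.card {x : Fin n → ∀ j, V j // Submodule.span F (Set.range x) = W ∧ Full T x ∧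
          ∀ c, (fun j => T j (x (σ j c) j)) ∈ W} =
          (Finset.univ.filter fun x : Fin n → ∀ j, V j => g x = W ∧ Full T x ∧
            ∀ c, (fun j => T j (x (σ j c) j)) ∈ W).card := by
        rw [Nat.card_eq_fintype_card, Fintype.card_subtype]
      rw [h3] at h2
      exact h2
  have hQ : 0 < q ^ (n + 1) := pow_pos hq _
  have hrest : ∑ W ∈ Finset.univ.erase (⊤ : Submodule F (∀ j, V j)),
      ∑ x ∈ Finset.univ with g x = W, a x ≤ N := by
    have h1 : (∑ W ∈ Finset.univ.erase (⊤ : Submodule F (∀ j, V j)),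
        ∑ x ∈ Finset.univ with g x = W, a x) * q ^ (n + 1) ≤ N * q ^ (n + 1) := by
      rw [Finset.sum_mul]
      calc ∑ W ∈ Finset.univ.erase (⊤ : Submodule F (∀ j, V j)),
            (∑ x ∈ Finset.univ with g x = W, a x) * q ^ (n + 1)
          ≤ ∑ W ∈ Finset.univ.erase (⊤ : Submodule F (∀ j, V j)), q ^ k * N :=
            Finset.sum_le_sum fun W hW => hsub W (Finset.ne_of_mem_erase hW)
        _ = (Finset.univ.erase (⊤ : Submodule F (∀ j, V j))).card * (q ^ k * N) := by
            rw [Finset.sum_const, smul_eq_mul]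
        _ ≤ Nat.card (Submodule F (∀ j, V j)) * (q ^ k * N) := by
            refine Nat.mul_le_mul_right _ ?_
            rw [Nat.card_eq_fintype_card]
            exact Finset.card_le_univ _
        _ ≤ q ^ (finrank F (∀ j, V j) * finrank F (∀ j, V j)) * (q ^ k * N) :=
            Nat.mul_le_mul_right _ (hSUB F (∀ j, V j))
        _ = q ^ (finrank F (∀ j, V j) * finrank F (∀ j, V j) + k) * N := by
            rw [pow_add]; ring
        _ ≤ q ^ (n + 1) * N := Nat.mul_le_mul_right _ (Nat.pow_le_pow_right hq hD)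
        _ = N * q ^ (n + 1) := Nat.mul_comm _ _
    exact Nat.le_of_mul_le_mul_right h1 hQ
  rw [htot, hfib, ← Finset.add_sum_erase Finset.univ _ (Finset.mem_univ ⊤)]
  calc _ ≤ N + N := Nat.add_le_add htop hrest
    _ = 2 * N := by ring

end Pool.CYA
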