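import Pool.Agent.Work.MP_dd2eb3_aa.Interface

/-!
# Matrices with prescribed combinations of the columns
-/

set_option autoImplicit false

namespace Pool.CYA

open Module

/-- The bound for one column. -/
theorem COL_column (F : Type) [Field F] [Finite F] (n : ℕ) (R : Type) [AddCommGroup R]
    [Module F R] [Finite R] (x : Fin n → R) (s : R) :
    Nat.card {a : Fin n → F // ∑ i, a i • x i = s} *
      Nat.card (Submodule.span F (Set.range x)) ≤ Nat.card F ^ n := by
  classical
  have hr : LinearMap.range (Fintype.linearCombination F x) = Submodule.span F (Set.range x) :=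
    Fintype.range_linearCombination F x
  have hk : Nat.card {a : Fin n → F // ∑ i, a i • x i = s} ≤
      Nat.card (LinearMap.ker (Fintype.linearCombination F x)) := by
    rcases isEmpty_or_nonempty {a : Fin n → F // ∑ i, a i • x i = s} with h | ⟨⟨a0, h0⟩⟩
    · simp
    · refine Nat.card_le_card_of_injective
        (fun a : {a : Fin n → F // ∑ i, a i • x i = s} =>
          (⟨a.1 - a0, ?_⟩ : LinearMap.ker (Fintype.linearCombination F x))) ?_
      · rw [LinearMap.mem_ker, map_sub, Fintype.linearCombination_apply,
          Fintype.linearCombination_apply, a.2, h0, sub_self]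
      · intro a b hab
        have h1 : a.1 - a0 = b.1 - a0 := congrArg Subtype.val hab
        exact Subtype.ext (sub_left_injective h1)
  have hc : Nat.card (LinearMap.ker (Fintype.linearCombination F x)) *
      Nat.card (Submodule.span F (Set.range x)) = Nat.card F ^ n := by
    rw [← hr]
    have h1 := Submodule.card_eq_card_quotient_mul_card
      (LinearMap.ker (Fintype.linearCombination F x))
    have h2 : Nat.card ((Fin n → F) ⧸ LinearMap.ker (Fintype.linearCombination F x)) =
        Nat.card (LinearMap.range (Fintype.linearCombination F x)) :=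
      Nat.card_congr (LinearMap.quotKerEquivRange (Fintype.linearCombination F x)).toEquiv
    have h3 : Nat.card (Fin n → F) = Nat.card F ^ n := by
      rw [Nat.card_fun, Nat.card_fin]
    rw [← h2, ← h3, h1, mul_comm]
  calc Nat.card {a : Fin n → F // ∑ i, a i • x i = s} *
      Nat.card (Submodule.span F (Set.range x))
      ≤ Nat.card (LinearMap.ker (Fintype.linearCombination F x)) *
        Nat.card (Submodule.span F (Set.range x)) := Nat.mul_le_mul_right _ hk
    _ = Nat.card F ^ n := hc

/-- A condition on the columns is a product. -/
theorem COL_card (F : Type) [Field F] [Finite F] (n : ℕ) (R : Type) [AddCommGroup R]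
    [Module F R] (x s : Fin n → R) :
    Nat.card {A : Matrix (Fin n) (Fin n) F // ∀ c, ∑ i, A i c • x i = s c} =
      ∏ c, Nat.card {a : Fin n → F // ∑ i, a i • x i = s c} := by
  rw [← Nat.card_pi]
  refine Nat.card_congr ⟨fun A c => ⟨fun i => A.1 i c, A.2 c⟩,
    fun a => ⟨fun i c => (a c).1 i, fun c => (a c).2⟩, ?_, ?_⟩
  · intro A
    rfl
  · intro a
    rfl

/-- Matrices with prescribed combinations of the columns. -/
theorem p_COL : Stmt_COL := by
  intro F _ _ n R _ _ _ x s
  rw [COL_card F n R x s]
  have h1 : Nat.card (Submodule.span F (Set.range x)) ^ n =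
      ∏ _c : Fin n, Nat.card (Submodule.span F (Set.range x)) := by
    rw [Finset.prod_const, Finset.card_univ, Fintype.card_fin]
  have h2 : Nat.card F ^ (n * n) = ∏ _c : Fin n, Nat.card F ^ n := by
    rw [Finset.prod_const, Finset.card_univ, Fintype.card_fin, pow_mul]
  rw [h1, h2, ← Finset.prod_mul_distrib]
  exact Finset.prod_le_prod (fun c _ => Nat.zero_le _) fun c _ => COL_column F n R x (s c)

end Pool.CYA
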