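import Pool.Agent.Work.MP_dd2eb3_aa.Interface

/-! # Block SUB: the number of subspaces -/

set_option autoImplicit false

namespace Pool.CYA

open Module

/-- SUB. -/
theorem p_SUB : Stmt_SUB := by
  intro F _ _ R _ _ _
  haveI : Module.Finite F R := Module.Finite.of_finite
  set D := finrank F R with hD
  have hsurj : Function.Surjective (fun f : Fin D → R => Submodule.span F (Set.range f)) := by
    intro W
    have hd : finrank F W ≤ D := Submodule.finrank_le W
    let b := Module.finBasis F W
    refine ⟨fun i => if h : i.1 < finrank F W then (b ⟨i.1, h⟩ : R) else 0, ?_⟩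
    apply le_antisymm
    · rw [Submodule.span_le]
      rintro _ ⟨i, rfl⟩
      dsimp only
      split_ifs with h
      · exact (b ⟨i.1, h⟩).2
      · exact W.zero_mem
    · intro w hw
      have h1 : (⟨w, hw⟩ : W) ∈ Submodule.span F (Set.range b) := by
        rw [b.span_eq]; trivial
      have h2 : w ∈ Submodule.map W.subtype (Submodule.span F (Set.range b)) := ⟨⟨w, hw⟩, h1, rfl⟩
      rw [Submodule.map_span] at h2
      refine Submodule.span_mono ?_ h2
      rintro _ ⟨_, ⟨i, rfl⟩, rfl⟩
      refine ⟨⟨i.1, lt_of_lt_of_le i.2 hd⟩, ?_⟩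
      simp
  have h1 := Nat.card_le_card_of_surjective _ hsurj
  refine h1.trans (le_of_eq ?_)
  have h2 : Nat.card R = Nat.card F ^ D := Module.natCard_eq_pow_finrank
  rw [Nat.card_fun, h2, Nat.card_fin, ← pow_mul]

end Pool.CYA
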