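import Mathlib

/-!
# Almost all invertible matrices over a finite field have a cyclic column shift: definitions
-/

set_option autoImplicit false

namespace Pool.CYA

open Module

section rel

variable {F : Type} [Field F] {n k : ℕ} {V : Fin k → Type} [∀ j, AddCommGroup (V j)]
  [∀ j, Module F (V j)]

/-- `A` and the family `x` of vectors of `V 0 x ... x V (k-1)` are related: for every `j` and every
column `c` the combination of the `j`-th components of the `x i` with coefficients `A i c` is
`T j` applied to the `j`-th component of `x (σ j c)`. -/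
def Rel (T : ∀ j, V j →ₗ[F] V j) (σ : Fin k → Equiv.Perm (Fin n))
    (A : Matrix (Fin n) (Fin n) F) (x : Fin n → ∀ j, V j) : Prop :=
  ∀ j c, ∑ i, A i c • x i j = T j (x (σ j c) j)

/-- For every `j` the `j`-th components of the `x i` generate `V j` under `T j`. -/
def Full (T : ∀ j, V j →ₗ[F] V j) (x : Fin n → ∀ j, V j) : Prop :=
  ∀ (j : Fin k) (W : Submodule F (V j)), (∀ i, x i j ∈ W) → (∀ w ∈ W, T j w ∈ W) → W = ⊤

end rel

section eig

variable {F : Type} [Field F] {n : ℕ}

/-- The field `F(t)`, `t` in the algebraic closure. -/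
abbrev Kt (t : AlgebraicClosure F) : Type := IntermediateField.adjoin F {t}

/-- The element `t` of `F(t)`. -/
noncomputable abbrev gt (t : AlgebraicClosure F) : Kt t := IntermediateField.AdjoinSimple.gen F t

/-- `v` is a left eigenvector of `A P_σ` with eigenvalue `t`, with coordinates in `F(t)`. -/
def Eig (A : Matrix (Fin n) (Fin n) F) (σ : Equiv.Perm (Fin n)) (t : AlgebraicClosure F)
    (v : Fin n → Kt t) : Prop :=
  ∀ c, ∑ i, A i c • v i = gt t * v (σ c)

/-- The eigenspace of `A P_σ` at `t` contains two linearly independent vectors. -/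
def Der (A : Matrix (Fin n) (Fin n) F) (σ : Equiv.Perm (Fin n)) (t : AlgebraicClosure F) : Prop :=
  ∃ v : Fin 2 → (Fin n → Kt t), LinearIndependent (Kt t) v ∧ ∀ a, Eig A σ t (v a)

/-- The degree of `t`. -/
noncomputable def dg (t : AlgebraicClosure F) : ℕ := (minpoly F t).natDegree

/-- The number `(Q^2 - 1)(Q^2 - Q)` of ordered pairs of independent vectors of a plane over the
field with `Q` elements. -/
def gl2 (Q : ℕ) : ℕ := (Q ^ 2 - 1) * (Q ^ 2 - Q)

/-- Multiplication by `t` on `F(t)^2`. -/
noncomputable def mt (t : AlgebraicClosure F) : (Fin 2 → Kt t) →ₗ[F] (Fin 2 → Kt t) where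
  toFun := fun w a => gt t * w a
  map_add' := by
    intro x y
    funext a
    simp [mul_add]
  map_smul' := by
    intro c x
    funext a
    simp

/-- The shifts. -/
def IsShift {n k : ℕ} (σ : Fin k → Equiv.Perm (Fin n)) : Prop :=
  ∀ (j : Fin k) (c : Fin n), c.1 + j.1 < n → (σ j c).1 = c.1 + j.1

end eig

end Pool.CYA
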