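import Pool.Agent.Work.MP_dd2eb3_aa.Defs

/-!
# Almost all invertible matrices over a finite field: the blocks
-/

set_option autoImplicit false

namespace Pool.CYA

open Module

/-- Matrices with prescribed combinations of the columns. -/
def Stmt_COL : Prop :=
  ∀ (F : Type) [Field F] [Finite F] (n : ℕ) (R : Type) [AddCommGroup R] [Module F R] [Finite R]
    (x s : Fin n → R),
    Nat.card {A : Matrix (Fin n) (Fin n) F // ∀ c, ∑ i, A i c • x i = s c} *
      Nat.card (Submodule.span F (Set.range x)) ^ n ≤ Nat.card F ^ (n * n)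

/-- Families spanning a given proper subspace. -/
def Stmt_HYP : Prop :=
  ∀ (F : Type) [Field F] [Finite F] (n k : ℕ) (V : Fin k → Type) [∀ j, AddCommGroup (V j)]
    [∀ j, Module F (V j)] [∀ j, Finite (V j)] (T : ∀ j, V j →ₗ[F] V j)
    (σ : Fin k → Equiv.Perm (Fin n)), (∀ j, Function.Injective (T j)) → IsShift σ → k ≤ n →
    ∀ W : Submodule F (∀ j, V j), W ≠ ⊤ →
    Nat.card {x : Fin n → ∀ j, V j // Submodule.span F (Set.range x) = W ∧ Full T x ∧
      ∀ c, (fun j => T j (x (σ j c) j)) ∈ W} * Nat.card F ^ (n + 1) ≤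
      Nat.card W ^ n * Nat.card F ^ k

/-- The number of subspaces. -/
def Stmt_SUB : Prop :=
  ∀ (F : Type) [Field F] [Finite F] (R : Type) [AddCommGroup R] [Module F R] [Finite R],
    Nat.card (Submodule F R) ≤ Nat.card F ^ (finrank F R * finrank F R)

/-- The first moment. -/
def Stmt_CNT : Prop :=
  ∀ (F : Type) [Field F] [Finite F] (n k : ℕ) (V : Fin k → Type) [∀ j, AddCommGroup (V j)]
    [∀ j, Module F (V j)] [∀ j, Finite (V j)] (T : ∀ j, V j →ₗ[F] V j)
    (σ : Fin k → Equiv.Perm (Fin n)), (∀ j, Function.Injective (T j)) → IsShift σ → k ≤ n →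
    finrank F (∀ j, V j) * finrank F (∀ j, V j) + k ≤ n + 1 →
    Nat.card {p : Matrix (Fin n) (Fin n) F × (Fin n → ∀ j, V j) //
      Full T p.2 ∧ Rel T σ p.1 p.2} ≤ 2 * Nat.card F ^ (n * n)

/-- The first moment for one permutation. -/
def Stmt_CNT1 : Prop :=
  ∀ (F : Type) [Field F] [Finite F] (n : ℕ) (V : Type) [AddCommGroup V] [Module F V] [Finite V]
    (T : V →ₗ[F] V) (σ : Equiv.Perm (Fin n)),
    Nat.card {p : Matrix (Fin n) (Fin n) F × (Fin n → V) //
      (∀ W : Submodule F V, (∀ i, p.2 i ∈ W) → (∀ w ∈ W, T w ∈ W) → W = ⊤) ∧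
      ∀ c, ∑ i, p.1 i c • p.2 i = T (p.2 (σ c))} ≤ Nat.card F ^ (n * n)

/-- A derogatory matrix has a plane of eigenvectors over `F(t)`. -/
def Stmt_EIG : Prop :=
  ∀ (F : Type) [Field F] (n : ℕ) (A : Matrix (Fin n) (Fin n) F) (σ : Equiv.Perm (Fin n)),
    A.det ≠ 0 → minpoly F (A * σ.permMatrix F) ≠ (A * σ.permMatrix F).charpoly →
    ∃ t : AlgebraicClosure F, t ≠ 0 ∧ Der A σ t

/-- The number of independent pairs of eigenvectors. -/
def Stmt_PAIR : Prop :=
  ∀ (F : Type) [Field F] [Finite F] (n : ℕ) (A : Matrix (Fin n) (Fin n) F)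
    (σ : Equiv.Perm (Fin n)) (t : AlgebraicClosure F), Der A σ t →
    gl2 (Nat.card F ^ dg t) ≤
      Nat.card {v : Fin 2 → (Fin n → Kt t) // LinearIndependent (Kt t) v ∧ ∀ a, Eig A σ t (v a)}

/-- Independent pairs are full. -/
def Stmt_FUL : Prop :=
  ∀ (F : Type) [Field F] (n : ℕ) (t : AlgebraicClosure F) (v : Fin 2 → (Fin n → Kt t)),
    LinearIndependent (Kt t) v → ∀ W : Submodule F (Fin 2 → Kt t),
    (∀ i, (fun a => v a i) ∈ W) → (∀ w ∈ W, mt t w ∈ W) → W = ⊤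

/-- Matrices with given derogatory eigenvalues for `k` shifts. -/
def Stmt_BADK : Prop :=
  ∀ (F : Type) [Field F] [Finite F] (n k : ℕ) (t : Fin k → AlgebraicClosure F)
    (σ : Fin k → Equiv.Perm (Fin n)), (∀ j, t j ≠ 0) → IsShift σ → k ≤ n →
    (∑ j, 2 * dg (t j)) * (∑ j, 2 * dg (t j)) + k ≤ n + 1 →
    Nat.card {A : Matrix (Fin n) (Fin n) F // ∀ j, Der A (σ j) (t j)} *
      ∏ j, gl2 (Nat.card F ^ dg (t j)) ≤ 2 * Nat.card F ^ (n * n)

/-- Matrices with a given derogatory eigenvalue for one permutation. -/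
def Stmt_BAD1 : Prop :=
  ∀ (F : Type) [Field F] [Finite F] (n : ℕ) (t : AlgebraicClosure F) (σ : Equiv.Perm (Fin n)),
    Nat.card {A : Matrix (Fin n) (Fin n) F // Der A σ t} * gl2 (Nat.card F ^ dg t) ≤
      Nat.card F ^ (n * n)

/-- The sum over the eigenvalues. -/
def Stmt_SUMT : Prop :=
  ∀ (F : Type) [Field F] [Finite F] (m : ℕ) (S : Finset (AlgebraicClosure F)),
    (∀ t ∈ S, m < dg t) →
    ∑ t ∈ S, (1 / (gl2 (Nat.card F ^ dg t) : ℝ)) ≤ 1 / 2 * (1 / 8) ^ m

/-- Derogatory eigenvalues have degree at most `n`, and there are finitely many of them. -/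
def Stmt_DEG : Prop :=
  ∀ (F : Type) [Field F] [Finite F] (n : ℕ), {t : AlgebraicClosure F | dg t ≤ n}.Finite ∧
    ∀ (A : Matrix (Fin n) (Fin n) F) (σ : Equiv.Perm (Fin n)) (t : AlgebraicClosure F),
    Der A σ t → dg t ≤ n

/-- A quarter of all matrices are invertible. -/
def Stmt_GLC : Prop :=
  ∀ (F : Type) [Field F] [Finite F] (n : ℕ),
    Nat.card F ^ (n * n) ≤ 4 * Nat.card {A : Matrix (Fin n) (Fin n) F // A.det ≠ 0}

/-- The final count. -/
def Stmt_FIN : Prop :=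
  ∀ (F : Type) [Field F] [Finite F] (n m : ℕ), 5 * m ^ 4 ≤ n →
    2 ^ m * Nat.card {A : Matrix (Fin n) (Fin n) F // A.det ≠ 0 ∧ ∀ j < m,
      minpoly F (A * ((finRotate n) ^ j).permMatrix F) ≠
        (A * ((finRotate n) ^ j).permMatrix F).charpoly} ≤
    9 * Nat.card {A : Matrix (Fin n) (Fin n) F // A.det ≠ 0}

end Pool.CYA
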