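import Pool.Agent.Work.MP_dd2eb3_aa.Interface

/-!
# Almost all invertible matrices over a finite field: the final count with the right power of `q`
-/

set_option autoImplicit false

namespace Pool.CYA

open Module

/-- Sums over eigenvalues of degree larger than `m`. -/
def Stmt_SUMA : Prop :=
  ∀ (F : Type) [Field F] [Finite F] (m : ℕ) (S : Finset (AlgebraicClosure F)),
    (∀ t ∈ S, m < dg t) →
    ∑ t ∈ S, (1 / (gl2 (Nat.card F ^ dg t) : ℝ)) ≤
      4 / (Nat.card F : ℝ) ^ 3 * (1 / (Nat.card F : ℝ) ^ 3) ^ m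

/-- The weighted sum over the eigenvalues. -/
def Stmt_SUMB : Prop :=
  ∀ (F : Type) [Field F] [Finite F] (S : Finset (AlgebraicClosure F)),
    ∑ t ∈ S, (((Nat.card F : ℝ) ^ 3 / 2) ^ dg t / (gl2 (Nat.card F ^ dg t) : ℝ)) ≤ 8 / 3

/-- The final count. -/
def Stmt_FINQ : Prop :=
  ∀ (F : Type) [Field F] [Finite F] (n m : ℕ), 37 * m ^ 2 ≤ n →
    Nat.card F ^ (3 * m) * Nat.card {A : Matrix (Fin n) (Fin n) F // A.det ≠ 0 ∧ ∀ j < m,
      minpoly F (A * ((finRotate n) ^ j).permMatrix F) ≠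
        (A * ((finRotate n) ^ j).permMatrix F).charpoly} ≤
    12 * 4 ^ m * Nat.card {A : Matrix (Fin n) (Fin n) F // A.det ≠ 0}

end Pool.CYA
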