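import Pool.Agent.Work.MP_dd2eb3_aa.Interface3

/-!
# Almost all invertible matrices over a finite field: exponentially small exceptional sets
-/

set_option autoImplicit false

namespace Pool.CYA

open Module

/-- The shifts `c ↦ c + j` of the columns. -/
def sh (n : ℕ) {k : ℕ} (j : Fin k) : Equiv.Perm (Fin n) := (finRotate n) ^ j.1

/-- For some choice of planes of eigenvectors of the `A P_j` at the `t j` the corresponding families
of vectors over `F` are linearly dependent. -/
def Dep {F : Type} [Field F] {n k : ℕ} (A : Matrix (Fin n) (Fin n) F)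
    (t : Fin k → AlgebraicClosure F) : Prop :=
  ∃ v : ∀ j, Fin 2 → (Fin n → Kt (t j)),
    (∀ j, LinearIndependent (Kt (t j)) (v j) ∧ ∀ a, Eig A (sh n j) (t j) (v j a)) ∧
    Submodule.span F (Set.range
      (fun (i : Fin n) => (fun j a => v j a i : ∀ j, Fin 2 → Kt (t j)))) ≠ ⊤

/-- Families spanning a given subspace whose first components are independent. -/
def Stmt_HYP2 : Prop :=
  ∀ (F : Type) [Field F] [Finite F] (n k : ℕ) (V : Fin (k + 1) → Type) [∀ j, AddCommGroup (V j)]
    [∀ j, Module F (V j)] [∀ j, Finite (V j)] (T : ∀ j, V j →ₗ[F] V j)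
    (σ : Fin (k + 1) → Equiv.Perm (Fin n)), (∀ j, Function.Injective (T j)) → IsShift σ →
    ∀ W : Submodule F (∀ j, V j),
    Nat.card {x : Fin n → ∀ j, V j // Submodule.span F (Set.range x) = W ∧ Full T x ∧
      (∀ c, (fun j => T j (x (σ j c) j)) ∈ W) ∧
      Submodule.span F (Set.range (fun (i : Fin n) (j : Fin k) => x i j.castSucc)) = ⊤} *
      Nat.card (∀ j, V j) ^ (n - k) ≤ Nat.card W ^ (n + (n - k))

/-- The number of subspaces of codimension `l`. -/
def Stmt_SUBL : Prop :=
  ∀ (F : Type) [Field F] [Finite F] (R : Type) [AddCommGroup R] [Module F R] [Finite R] (l : ℕ),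
    Nat.card {W : Submodule F R // finrank F W + l = finrank F R} ≤
      Nat.card F ^ (l * finrank F R)

/-- The first moment of the configurations with a first dependency at the last place. -/
def Stmt_CNTD : Prop :=
  ∀ (F : Type) [Field F] [Finite F] (n k : ℕ) (V : Fin (k + 1) → Type) [∀ j, AddCommGroup (V j)]
    [∀ j, Module F (V j)] [∀ j, Finite (V j)] (T : ∀ j, V j →ₗ[F] V j)
    (σ : Fin (k + 1) → Equiv.Perm (Fin n)), (∀ j, Function.Injective (T j)) → IsShift σ →
    k + finrank F (∀ j, V j) + 1 ≤ n →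
    Nat.card {p : Matrix (Fin n) (Fin n) F × (Fin n → ∀ j, V j) //
      Full T p.2 ∧ Rel T σ p.1 p.2 ∧
      Submodule.span F (Set.range (fun (i : Fin n) (j : Fin k) => p.2 i j.castSucc)) = ⊤ ∧
      Submodule.span F (Set.range p.2) ≠ ⊤} * Nat.card F ^ n ≤
      2 * Nat.card F ^ (n * n + k + finrank F (∀ j, V j))

/-- The first moment of the independent configurations. -/
def Stmt_CNTI : Prop :=
  ∀ (F : Type) [Field F] [Finite F] (n k : ℕ) (V : Fin k → Type) [∀ j, AddCommGroup (V j)]
    [∀ j, Module F (V j)] [∀ j, Finite (V j)] (T : ∀ j, V j →ₗ[F] V j)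
    (σ : Fin k → Equiv.Perm (Fin n)),
    Nat.card {p : Matrix (Fin n) (Fin n) F × (Fin n → ∀ j, V j) //
      Rel T σ p.1 p.2 ∧ Submodule.span F (Set.range p.2) = ⊤} ≤ Nat.card F ^ (n * n)

/-- Matrices with given derogatory eigenvalues for `k` shifts, all configurations independent. -/
def Stmt_BADI : Prop :=
  ∀ (F : Type) [Field F] [Finite F] (n k : ℕ) (t : Fin k → AlgebraicClosure F),
    Nat.card {A : Matrix (Fin n) (Fin n) F // (∀ j, Der A (sh n j) (t j)) ∧ ¬ Dep A t} *
      ∏ j, gl2 (Nat.card F ^ dg (t j)) ≤ Nat.card F ^ (n * n)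

/-- Matrices with a first dependency at the last place. -/
def Stmt_BADD : Prop :=
  ∀ (F : Type) [Field F] [Finite F] (n k : ℕ) (t : Fin (k + 1) → AlgebraicClosure F),
    (∀ j, t j ≠ 0) → k + ∑ j, 2 * dg (t j) + 1 ≤ n →
    Nat.card {A : Matrix (Fin n) (Fin n) F // Dep A t ∧ ¬ Dep A (fun j : Fin k => t j.castSucc)} *
      Nat.card F ^ n ≤ 2 * Nat.card F ^ (n * n + k + ∑ j, 2 * dg (t j))

/-- Another sum over the eigenvalues. -/
def Stmt_SUMC : Prop :=
  ∀ (F : Type) [Field F] [Finite F] (S : Finset (AlgebraicClosure F)),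
    ∑ t ∈ S, (1 / (Nat.card F : ℝ) ^ 2) ^ dg t ≤ 1

/-- The final count. -/
def Stmt_FINL : Prop :=
  ∀ (F : Type) [Field F] [Finite F] (n m : ℕ), 16 * m ≤ n →
    Nat.card F ^ (3 * m) * Nat.card {A : Matrix (Fin n) (Fin n) F // A.det ≠ 0 ∧ ∀ j < m,
      minpoly F (A * ((finRotate n) ^ j).permMatrix F) ≠
        (A * ((finRotate n) ^ j).permMatrix F).charpoly} ≤
    8 * 4 ^ m * Nat.card {A : Matrix (Fin n) (Fin n) F // A.det ≠ 0}

end Pool.CYA
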